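import Mathlib
import Pool.Agent.N924.LP.Box

set_option autoImplicit false

/-! # Counting in boxes along lines and planes -/

namespace Pool.Agent.Helper82.LP

open Finset

section

variable {I : Type} [Fintype I] [DecidableEq I]

/-- the points of a box in a set with few points on every line in the direction `i₀` -/
theorem card_line (J : I → Finset ℤ) (i₀ : I) (S : Set (I → ℤ)) [DecidablePred (· ∈ S)] (c : ℕ)
    (h : ∀ y : I → ℤ, ((J i₀).filter fun z => Function.update y i₀ z ∈ S).card ≤ c) :
    ((Fintype.piFinset J).filter (· ∈ S)).card * (J i₀).card ≤ c * (Fintype.piFinset J).card := by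
  classical
  have h1 : ((Fintype.piFinset J).filter (· ∈ S)).card ≤
      c * (Fintype.piFinset (Function.update J i₀ {0})).card := by
    apply card_le_mul_card_image_of_maps_to (f := fun x => Function.update x i₀ 0)
    · intro x hx
      rw [mem_filter, Fintype.mem_piFinset] at hx
      rw [Fintype.mem_piFinset]
      intro i
      by_cases hi : i = i₀
      · subst hi; simp
      · rw [Function.update_of_ne hi, Function.update_of_ne hi]
        exact hx.1 i
    · intro b _
      refine le_trans ?_ (h b)
      apply card_le_card_of_injOn (fun x => x i₀)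
      · intro x hx
        rw [mem_coe, mem_filter, mem_filter, Fintype.mem_piFinset] at hx
        rw [mem_coe, mem_filter]
        refine ⟨hx.1.1 i₀, ?_⟩
        have : Function.update b i₀ (x i₀) = x := by
          rw [← hx.2]
          simp
        rw [this]
        exact hx.1.2
      · intro x hx y hy hxy
        rw [mem_coe, mem_filter] at hx hy
        have h2 := hx.2.trans hy.2.symm
        have h3 : Function.update (Function.update x i₀ 0) i₀ (x i₀) =
            Function.update (Function.update y i₀ 0) i₀ (x i₀) := by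
          rw [h2]
        simp only at hxy
        rw [Function.update_idem, Function.update_idem, Function.update_eq_self, hxy,
          Function.update_eq_self] at h3
        exact h3
  have h2 : (Fintype.piFinset (Function.update J i₀ {0})).card * (J i₀).card = (Fintype.piFinset J).card := by
    rw [Fintype.card_piFinset, Fintype.card_piFinset, ← mul_prod_erase univ (fun i => #(J i)) (mem_univ i₀),
      ← mul_prod_erase univ _ (mem_univ i₀)]
    rw [Function.update_self, card_singleton, one_mul, mul_comm]
    congr 1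
    apply prod_congr rfl
    intro i hi
    rw [Function.update_of_ne (ne_of_mem_erase hi)]
  calc ((Fintype.piFinset J).filter (· ∈ S)).card * (J i₀).card
      ≤ c * (Fintype.piFinset (Function.update J i₀ {0})).card * (J i₀).card := Nat.mul_le_mul_right _ h1
    _ = c * (Fintype.piFinset J).card := by rw [mul_assoc, h2]

/-- two directions -/
theorem card_plane (J : I → Finset ℤ) (i₀ i₁ : I) (hne : i₁ ≠ i₀) (S₀ S₁ : Set (I → ℤ)) [DecidablePred (· ∈ S₀)]
    [DecidablePred (· ∈ S₁)] (c₀ c₁ : ℕ)
    (h₀ : ∀ y : I → ℤ, ((J i₀).filter fun z => Function.update y i₀ z ∈ S₀).card ≤ c₀)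
    (h₁ : ∀ y : I → ℤ, ((J i₁).filter fun z => Function.update y i₁ z ∈ S₁).card ≤ c₁)
    (hind : ∀ (y : I → ℤ) (z : ℤ), y ∈ S₁ → Function.update y i₀ z ∈ S₁) :
    ((Fintype.piFinset J).filter (fun x => x ∈ S₀ ∧ x ∈ S₁)).card * ((J i₀).card * (J i₁).card) ≤
      c₀ * c₁ * (Fintype.piFinset J).card := by
  classical
  set J' := Function.update J i₀ {0} with hJ'
  have h1 : ((Fintype.piFinset J).filter (fun x => x ∈ S₀ ∧ x ∈ S₁)).card ≤
      c₀ * ((Fintype.piFinset J').filter (· ∈ S₁)).card := by
    apply card_le_mul_card_image_of_maps_to (f := fun x => Function.update x i₀ 0)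
    · intro x hx
      rw [mem_filter, Fintype.mem_piFinset] at hx
      rw [mem_filter, Fintype.mem_piFinset]
      refine ⟨fun i => ?_, hind x 0 hx.2.2⟩
      by_cases hi : i = i₀
      · subst hi; simp [hJ']
      · rw [hJ', Function.update_of_ne hi, Function.update_of_ne hi]
        exact hx.1 i
    · intro b _
      refine le_trans ?_ (h₀ b)
      apply card_le_card_of_injOn (fun x => x i₀)
      · intro x hx
        rw [mem_coe, mem_filter, mem_filter, Fintype.mem_piFinset] at hx
        rw [mem_coe, mem_filter]
        refine ⟨hx.1.1 i₀, ?_⟩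
        have : Function.update b i₀ (x i₀) = x := by
          rw [← hx.2]
          simp
        rw [this]
        exact hx.1.2.1
      · intro x hx y hy hxy
        rw [mem_coe, mem_filter] at hx hy
        have h2 := hx.2.trans hy.2.symm
        have h3 : Function.update (Function.update x i₀ 0) i₀ (x i₀) =
            Function.update (Function.update y i₀ 0) i₀ (x i₀) := by
          rw [h2]
        simp only at hxy
        rw [Function.update_idem, Function.update_idem, Function.update_eq_self, hxy,
          Function.update_eq_self] at h3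
        exact h3
  have h2 := card_line J' i₁ S₁ c₁ (fun y => by
    rw [hJ', Function.update_of_ne hne]
    exact h₁ y)
  have h3 : (Fintype.piFinset J').card * (J i₀).card = (Fintype.piFinset J).card := by
    rw [Fintype.card_piFinset, Fintype.card_piFinset, ← mul_prod_erase univ (fun i => #(J i)) (mem_univ i₀),
      ← mul_prod_erase univ _ (mem_univ i₀)]
    rw [hJ', Function.update_self, card_singleton, one_mul, mul_comm]
    congr 1
    apply prod_congr rfl
    intro i hi
    rw [Function.update_of_ne (ne_of_mem_erase hi)]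
  have h4 : J' i₁ = J i₁ := by rw [hJ', Function.update_of_ne hne]
  rw [h4] at h2
  calc ((Fintype.piFinset J).filter (fun x => x ∈ S₀ ∧ x ∈ S₁)).card * ((J i₀).card * (J i₁).card)
      ≤ c₀ * ((Fintype.piFinset J').filter (· ∈ S₁)).card * ((J i₀).card * (J i₁).card) :=
        Nat.mul_le_mul_right _ h1
    _ = c₀ * (J i₀).card * (((Fintype.piFinset J').filter (· ∈ S₁)).card * (J i₁).card) := by ring
    _ ≤ c₀ * (J i₀).card * (c₁ * (Fintype.piFinset J').card) := Nat.mul_le_mul_left _ h2
    _ = c₀ * c₁ * ((Fintype.piFinset J').card * (J i₀).card) := by ring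
    _ = c₀ * c₁ * (Fintype.piFinset J).card := by rw [h3]

end

/-- points of an interval in few classes modulo `p` -/
theorem card_classes (a b : ℤ) (hab : a ≤ b) (p : ℕ) (hp : 0 < p) (κ : ℕ) (T : Set (ZMod p))
    [DecidablePred (· ∈ T)] (hT : T.encard ≤ κ) (σ : ℤ → ℤ)
    (hσ' : (∀ z, σ z = z) ∨ ∀ z, σ z = -z) :
    (((Ioc a b).filter fun z => ((σ z : ℤ) : ZMod p) ∈ T).card : ℝ) ≤ κ * (((b : ℝ) - a) / p + 1) := by
  classical
  have : NeZero p := ⟨hp.ne'⟩
  have hTf : T.Finite := Set.toFinite T
  have hcard : hTf.toFinset.card ≤ κ := by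
    rw [hTf.encard_eq_coe_toFinset_card] at hT
    exact_mod_cast hT
  have h1 : ((Ioc a b).filter fun z => ((σ z : ℤ) : ZMod p) ∈ T) ⊆
      hTf.toFinset.biUnion fun c => (Ioc a b).filter fun z => ((σ z : ℤ) : ZMod p) = c := by
    intro z hz
    rw [mem_filter] at hz
    rw [mem_biUnion]
    exact ⟨_, hTf.mem_toFinset.2 hz.2, mem_filter.2 ⟨hz.1, rfl⟩⟩
  have h2 : ∀ c : ZMod p, (((Ioc a b).filter fun z => ((σ z : ℤ) : ZMod p) = c).card : ℝ) ≤
      ((b : ℝ) - a) / p + 1 := by
    intro c
    obtain ⟨ρ, hρ⟩ : ∃ ρ : ℤ, ∀ z, (((σ z : ℤ) : ZMod p) = c ↔ (p : ℤ) ∣ z - ρ) := by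
      obtain ⟨ρ, rfl⟩ := ZMod.intCast_surjective c
      rcases hσ' with h | h
      · refine ⟨ρ, fun z => ?_⟩
        rw [h, ← ZMod.intCast_zmod_eq_zero_iff_dvd]
        push_cast
        rw [sub_eq_zero]
      · refine ⟨-ρ, fun z => ?_⟩
        rw [h, ← ZMod.intCast_zmod_eq_zero_iff_dvd]
        push_cast
        constructor
        · intro h'; rw [← h']; ring
        · intro h'
          have : (z : ZMod p) = -ρ := by linear_combination h'
          rw [this]; ring
    have h3 := Pool.Agent.N924.LP.count a b hab p hp ρ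
    have h4 : ((Ioc a b).filter fun z => ((σ z : ℤ) : ZMod p) = c) = {x ∈ Ioc a b | (p : ℤ) ∣ x - ρ} := by
      ext z
      rw [mem_filter, mem_filter, hρ]
    rw [h4]
    have := (abs_le.1 h3).2
    linarith
  calc (((Ioc a b).filter fun z => ((σ z : ℤ) : ZMod p) ∈ T).card : ℝ)
      ≤ ((hTf.toFinset.biUnion fun c => (Ioc a b).filter fun z => ((σ z : ℤ) : ZMod p) = c).card : ℝ) := by
        exact_mod_cast card_le_card h1
    _ ≤ ∑ c ∈ hTf.toFinset, (((Ioc a b).filter fun z => ((σ z : ℤ) : ZMod p) = c).card : ℝ) := by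
        exact_mod_cast card_biUnion_le
    _ ≤ ∑ c ∈ hTf.toFinset, (((b : ℝ) - a) / p + 1) := sum_le_sum fun c _ => h2 c
    _ = hTf.toFinset.card * (((b : ℝ) - a) / p + 1) := by rw [sum_const, nsmul_eq_mul]
    _ ≤ κ * (((b : ℝ) - a) / p + 1) := by
        apply mul_le_mul_of_nonneg_right (by exact_mod_cast hcard)
        have : (a : ℝ) ≤ b := by exact_mod_cast hab
        have : (0 : ℝ) ≤ ((b : ℝ) - a) / p := div_nonneg (by linarith) (Nat.cast_nonneg _)
        linarith

end Pool.Agent.Helper82.LP
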