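import Mathlib

set_option autoImplicit false

/-! # Counting over residue classes -/

namespace Pool.Agent.Helper82.LP

theorem encard_biUnion_le' {α ι : Type} (s : Finset ι) (A : ι → Set α) (c : ℕ)
    (h : ∀ i ∈ s, (A i).encard ≤ c) : (⋃ i ∈ s, A i).encard ≤ s.card * c := by
  classical
  induction s using Finset.induction_on with
  | empty => simp
  | insert a s ha ih =>
    rw [Finset.set_biUnion_insert, Finset.card_insert_of_notMem ha]
    refine (Set.encard_union_le _ _).trans ?_
    have h1 := h a (Finset.mem_insert_self _ _)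
    have h2 := ih fun i hi => h i (Finset.mem_insert_of_mem hi)
    calc (A a).encard + (⋃ i ∈ s, A i).encard ≤ c + s.card * c := add_le_add h1 h2
      _ = ((s.card + 1 : ℕ) : ℕ∞) * c := by push_cast; ring

theorem encard_le_of_no {α : Type} (S : Set α) (r : ℕ)
    (h : ¬ ∃ f : Fin (r + 1) → α, Function.Injective f ∧ ∀ a, f a ∈ S) : S.encard ≤ r := by
  by_contra hlt
  rw [not_le] at hlt
  have h1 : ((r + 1 : ℕ) : ℕ∞) ≤ S.encard := by
    push_cast
    exact Order.add_one_le_of_lt hlt
  obtain ⟨T, hT, hTc⟩ := Set.exists_subset_encard_eq h1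
  have hfin : T.Finite := Set.finite_of_encard_eq_coe hTc
  have hcard : hfin.toFinset.card = r + 1 := by
    rw [hfin.encard_eq_coe_toFinset_card] at hTc
    exact_mod_cast hTc
  let e := (hfin.toFinset.equivFinOfCardEq hcard).symm
  apply h
  refine ⟨fun a => (e a : α), fun a b hab => e.injective (Subtype.ext hab), fun a => hT ?_⟩
  exact (hfin.mem_toFinset).1 (e a).2

theorem encard_le_of_classes (p r : ℕ) (hp : 0 < p) (S : Set ℤ)
    (h : ∀ (t₁ : ℤ) (m : Fin (r + 1) → ℤ), Function.Injective m → ¬ ∀ a, t₁ + p * m a ∈ S) :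
    S.encard ≤ r * p := by
  have hp0 : (p : ℤ) ≠ 0 := by exact_mod_cast hp.ne'
  have h1 : S ⊆ ⋃ c ∈ Finset.range p, (S ∩ {t | t % p = c}) := by
    intro t ht
    rw [Set.mem_iUnion₂]
    have h2 := Int.emod_nonneg t hp0
    have h3 := Int.emod_lt_of_pos t (by exact_mod_cast hp : (0 : ℤ) < p)
    refine ⟨(t % p).toNat, ?_, ht, ?_⟩
    · rw [Finset.mem_range]
      omega
    · rw [Set.mem_ofPred_eq, Int.toNat_of_nonneg h2]
  refine (Set.encard_le_encard h1).trans ?_
  refine (encard_biUnion_le' (Finset.range p) _ r ?_).trans ?_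
  · intro c _
    apply encard_le_of_no
    rintro ⟨f, hf, hfS⟩
    have h4 : ∀ a, (c : ℤ) + p * (f a / p) = f a := by
      intro a
      have := (hfS a).2
      rw [Set.mem_ofPred_eq] at this
      rw [← this]
      exact Int.emod_add_mul_ediv _ _
    apply h c (fun a => f a / p)
    · intro a b hab
      apply hf
      rw [← h4 a, ← h4 b]
      simp only at hab
      rw [hab]
    · intro a
      rw [h4]
      exact (hfS a).1
  · rw [Finset.card_range, mul_comm]

end Pool.Agent.Helper82.LP
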