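import Mathlib

set_option autoImplicit false

/-! # The powers `(1 + p v) ^ (p ^ k)` -/

namespace Pool.Agent.Helper82.LP

/-- `(1 + w) ^ p = 1 + p w + w ^ 2 (p a + w b)` for odd `p` -/
theorem one_add_pow {R : Type} [CommRing R] {p : ℕ} (hp : p.Prime) (hp2 : p ≠ 2) (w : R) :
    ∃ a b : R, (1 + w) ^ p = 1 + p * w + w ^ 2 * (p * a + w * b) := by
  have hp3 : 3 ≤ p := by
    have := hp.two_le
    omega
  obtain ⟨q, rfl⟩ : ∃ q, p = q + 3 := ⟨p - 3, by omega⟩
  rw [add_comm 1 w, add_pow]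
  simp only [one_pow, mul_one]
  rw [Finset.sum_range_succ, Finset.sum_range_succ', Finset.sum_range_succ']
  have hdv : ∀ k ∈ Finset.range (q + 1), ((q + 3 : ℕ) : ℕ) ∣ (q + 3).choose (k + 1 + 1) := by
    intro k hk
    rw [Finset.mem_range] at hk
    exact hp.dvd_choose_self (by omega) (by omega)
  choose! g hg using hdv
  refine ⟨∑ k ∈ Finset.range (q + 1), w ^ k * (g k : R), w ^ q, ?_⟩
  have h1 : ∑ k ∈ Finset.range (q + 1), w ^ (k + 1 + 1) * (((q + 3).choose (k + 1 + 1) : ℕ) : R) =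
      w ^ 2 * (((q + 3 : ℕ) : R) * ∑ k ∈ Finset.range (q + 1), w ^ k * (g k : R)) := by
    rw [Finset.mul_sum, Finset.mul_sum]
    refine Finset.sum_congr rfl fun k hk => ?_
    rw [hg k hk]
    push_cast
    ring
  rw [h1]
  simp only [Nat.choose_self, zero_add, pow_one, Nat.choose_one_right, pow_zero, Nat.choose_zero_right]
  push_cast
  ring

/-- `(1 + p v) ^ (p ^ k) = 1 + p ^ (k + 1) (v + p v ^ 2 a + p ^ 2 b)` -/
theorem pow_exp {R : Type} [CommRing R] {p : ℕ} (hp : p.Prime) (hp2 : p ≠ 2) (v : R) (k : ℕ) :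
    ∃ a b : R, (1 + (p : R) * v) ^ (p ^ k) = 1 + (p : R) ^ (k + 1) * (v + p * v ^ 2 * a + p ^ 2 * b) := by
  induction k with
  | zero => exact ⟨0, 0, by simp⟩
  | succ k ih =>
    obtain ⟨a, b, hab⟩ := ih
    obtain ⟨a', b', h⟩ := one_add_pow hp hp2 ((p : R) ^ (k + 1) * (v + p * v ^ 2 * a + p ^ 2 * b))
    rw [pow_succ, pow_mul, hab, h]
    rcases Nat.eq_zero_or_pos k with hk | hk
    · subst hk
      set u := v + p * v ^ 2 * a + p ^ 2 * b with hu
      -- `u ^ 2 = v ^ 2 + p * c`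
      refine ⟨a + (a' + u * b'), b + (2 * v * (v ^ 2 * a + p * b) + p * (v ^ 2 * a + p * b) ^ 2) *
        (a' + u * b'), ?_⟩
      have h3 : (p : R) * u + 0 = p * u := by ring
      simp only [zero_add, pow_one]
      rw [hu]
      ring
    · obtain ⟨k', rfl⟩ : ∃ k', k = k' + 1 := ⟨k - 1, by omega⟩
      set u := v + p * v ^ 2 * a + p ^ 2 * b with hu
      refine ⟨a, b + (p : R) ^ k' * u ^ 2 * (a' + (p : R) ^ (k' + 1) * u * b'), ?_⟩
      have : (p : R) ^ (k' + 1 + 1) * u + 0 = p ^ (k' + 1 + 1) * u := by ring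
      have e : v + (p : R) * v ^ 2 * a + (p : R) ^ 2 * (b + (p : R) ^ k' * u ^ 2 *
          (a' + (p : R) ^ (k' + 1) * u * b')) = u + (p : R) ^ (k' + 2) * u ^ 2 *
          (a' + (p : R) ^ (k' + 1) * u * b') := by
        rw [hu]; ring
      rw [e]
      ring

end Pool.Agent.Helper82.LP
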