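import Pool.Agent.Helper82.LP.Strass
import Pool.Agent.Helper82.LP.Pow
import Pool.Agent.H33R4.PB2
import Pool.Agent.H33R4.LOGB

set_option autoImplicit false

/-! # At most `r` members of a class modulo `p` of an affine family have dependent logarithms -/

namespace Pool.Agent.Helper82.LP

open Polynomial
open Pool.Agent.H33R4 (IsLog PGood)

noncomputable section

/-- the polynomial `F + p s H` over `ℤ[s]` -/
def FF (p : ℕ) (F H : ℤ[X]) : ℤ[X][X] := F.map C + C (C (p : ℤ) * X) * H.map C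

/-- the polynomial `V - s H A` over `ℤ[s]` -/
def VV (H A V : ℤ[X]) : ℤ[X][X] := V.map C - C X * (H * A).map C

theorem degree_C_mul_le' {R : Type} [Semiring R] (a : R) (Q : R[X]) : (C a * Q).degree ≤ Q.degree := by
  refine (degree_mul_le _ _).trans ?_
  calc (C a).degree + Q.degree ≤ 0 + Q.degree := add_le_add degree_C_le le_rfl
    _ = Q.degree := zero_add _

theorem FF_monic {p : ℕ} {F H : ℤ[X]} (hF : F.Monic) (hH : H.degree < F.degree) : (FF p F H).Monic := by
  unfold FF
  apply Monic.add_of_left (hF.map C)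
  refine lt_of_le_of_lt (degree_C_mul_le' _ _) ?_
  rw [degree_map_eq_of_injective C_injective, degree_map_eq_of_injective C_injective]
  exact hH

theorem FF_natDegree {p : ℕ} {F H : ℤ[X]} (hH : H.degree < F.degree) :
    (FF p F H).natDegree = F.natDegree := by
  unfold FF
  rw [natDegree_add_eq_left_of_degree_lt]
  · exact natDegree_map_eq_of_injective C_injective _
  · refine lt_of_le_of_lt (degree_C_mul_le' _ _) ?_
    rw [degree_map_eq_of_injective C_injective, degree_map_eq_of_injective C_injective]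
    exact hH

theorem map_C_eval (P : ℤ[X]) (m : ℤ) : (P.map (C : ℤ →+* ℤ[X])).map (evalRingHom m) = P := by
  rw [Polynomial.map_map]
  have : (evalRingHom m).comp (C : ℤ →+* ℤ[X]) = RingHom.id ℤ := by
    ext a; simp
  rw [this, Polynomial.map_id]

theorem FF_eval (p : ℕ) (F H : ℤ[X]) (m : ℤ) :
    (FF p F H).map (evalRingHom m) = F + C ((p : ℤ) * m) * H := by
  unfold FF
  rw [Polynomial.map_add, Polynomial.map_mul, map_C_eval, map_C_eval, Polynomial.map_C]
  simp

theorem VV_eval (H A V : ℤ[X]) (m : ℤ) : (VV H A V).map (evalRingHom m) = V - C m * (H * A) := by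
  unfold VV
  rw [Polynomial.map_sub, Polynomial.map_mul, map_C_eval, map_C_eval, Polynomial.map_C]
  simp

/-- divisibility in `R[X] / (G)` and the coefficients of polynomials of small degree -/
theorem dvd_coeff {R : Type} [CommRing R] [Nontrivial R] {G Q : R[X]} (hG : G.Monic)
    (hQ : Q.degree < G.degree) (a : R) (h : AdjoinRoot.of G a ∣ AdjoinRoot.mk G Q) (l : ℕ) :
    a ∣ Q.coeff l := by
  obtain ⟨y, hy⟩ := h
  obtain ⟨S, rfl⟩ := AdjoinRoot.mk_surjective y
  have h1 : G ∣ Q - C a * S := by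
    rw [← AdjoinRoot.mk_eq_zero, map_sub, map_mul, hy]
    simp
  have h2 : Q %ₘ G = Q := (modByMonic_eq_self_iff hG).2 hQ
  have h3 := (modByMonic_eq_zero_iff_dvd hG).2 h1
  rw [sub_modByMonic, h2, sub_eq_zero, ← smul_eq_C_mul, smul_modByMonic] at h3
  rw [h3, coeff_smul]
  exact dvd_mul_right _ _

section

variable {p : ℕ} [hp : Fact p.Prime]

/-- **reduction modulo `p` of the determinant** -/
theorem det_red {r n : ℕ} {F H : ℤ[X]} (hF : F.Monic) (hH : H.degree < F.degree)
    (A V : Fin r → ℤ[X]) (E : Fin r → ℤ[X][X])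
    (hE : ∀ i, ∃ z, E i = VV H (A i) (V i) + (p : ℤ[X][X]) * z)
    (N : Fin n → Fin r → ℤ)
    (hN : ∀ i j, ∑ l : Fin n, -(((H * A i).map (Int.castRingHom (ZMod p)) %ₘ
      F.map (Int.castRingHom (ZMod p))).coeff l) * (N l j : ZMod p) = if i = j then 1 else 0) :
    ¬ (p : ℤ) ∣ (Matrix.det (Matrix.of fun i j : Fin r =>
      ∑ l : Fin n, (E i %ₘ FF p F H).coeff l * C (N l j))).coeff r ∧
    ∀ j, r < j → (p : ℤ) ∣ (Matrix.det (Matrix.of fun i j : Fin r =>
      ∑ l : Fin n, (E i %ₘ FF p F H).coeff l * C (N l j))).coeff j := by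
  classical
  set φ : ℤ →+* ZMod p := Int.castRingHom (ZMod p) with hφ
  set D := Matrix.det (Matrix.of fun i j : Fin r =>
      ∑ l : Fin n, (E i %ₘ FF p F H).coeff l * C (N l j)) with hD
  have hdv : ∀ a : ℤ, (p : ℤ) ∣ a ↔ φ a = 0 := fun a => (ZMod.intCast_zmod_eq_zero_iff_dvd a p).symm
  -- the reduction
  have hFF : (FF p F H).map (mapRingHom φ) = (F.map φ).map C := by
    unfold FF
    rw [Polynomial.map_add, Polynomial.map_mul, Polynomial.map_C]
    have e1 : mapRingHom φ (C (p : ℤ) * X) = 0 := by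
      rw [map_mul, coe_mapRingHom, Polynomial.map_C]
      have : φ (p : ℤ) = 0 := (hdv _).1 dvd_rfl
      rw [this]; simp
    rw [e1, C_0, zero_mul, add_zero, Polynomial.map_map, Polynomial.map_map]
    congr 1
    ext a; simp
  have hmapC : ∀ P : ℤ[X], (P.map (C : ℤ →+* ℤ[X])).map (mapRingHom φ) = (P.map φ).map C := by
    intro P
    rw [Polynomial.map_map, Polynomial.map_map]
    congr 1
    ext a; simp
  have hco : ∀ i (l : ℕ), mapRingHom φ ((E i %ₘ FF p F H).coeff l) =
      C (((V i).map φ %ₘ F.map φ).coeff l) -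
        X * C (((H * A i).map φ %ₘ F.map φ).coeff l) := by
    intro i l
    obtain ⟨z, hz⟩ := hE i
    rw [← coeff_map, map_modByMonic _ (FF_monic hF hH), hFF]
    have e1 : (E i).map (mapRingHom φ) = ((V i).map φ).map C - C X * ((H * A i).map φ).map C := by
      rw [hz, Polynomial.map_add, Polynomial.map_mul, Polynomial.map_natCast]
      have : ((p : ℕ) : (ZMod p)[X][X]) = 0 := by
        rw [← map_natCast (C : (ZMod p)[X] →+* (ZMod p)[X][X]), ← map_natCast (C : ZMod p →+* (ZMod p)[X])]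
        simp
      rw [this, zero_mul, add_zero]
      unfold VV
      rw [Polynomial.map_sub, Polynomial.map_mul, hmapC, hmapC, Polynomial.map_C]
      simp
    rw [e1, sub_modByMonic, coeff_sub, ← smul_eq_C_mul, smul_modByMonic, coeff_smul,
      ← map_modByMonic _ (hF.map φ), ← map_modByMonic _ (hF.map φ), coeff_map, coeff_map, smul_eq_mul]
  have hDm : D.map φ = Matrix.det ((X : (ZMod p)[X]) • (1 : Matrix (Fin r) (Fin r) (ZMod p)).map C +
      (Matrix.of fun i j : Fin r => ∑ l : Fin n, ((V i).map φ %ₘ F.map φ).coeff l * (N l j : ZMod p)).map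
        C) := by
    rw [hD, ← coe_mapRingHom, RingHom.map_det]
    congr 1
    ext1 i j
    simp only [RingHom.mapMatrix_apply, Matrix.map_apply, Matrix.of_apply, Matrix.add_apply,
      Matrix.smul_apply, map_sum, map_mul, smul_eq_mul]
    have e1 : ∀ l : Fin n, mapRingHom φ ((E i %ₘ FF p F H).coeff l) * mapRingHom φ (C (N l j)) =
        X * C (-(((H * A i).map φ %ₘ F.map φ).coeff l) * (N l j : ZMod p)) +
        C (((V i).map φ %ₘ F.map φ).coeff l * (N l j : ZMod p)) := by
      intro l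
      rw [hco, coe_mapRingHom, Polynomial.map_C]
      have : φ (N l j) = (N l j : ZMod p) := rfl
      rw [this]
      simp only [map_mul, map_neg]
      ring
    rw [Finset.sum_congr rfl fun l _ => e1 l, Finset.sum_add_distrib, ← Finset.mul_sum, ← map_sum,
      ← map_sum, hN i j, Matrix.one_apply]
    simp only [map_mul, map_sum, coe_mapRingHom]
  have hcoef := coeff_det_X_add_C_card (1 : Matrix (Fin r) (Fin r) (ZMod p))
    (Matrix.of fun i j : Fin r => ∑ l : Fin n, ((V i).map φ %ₘ F.map φ).coeff l * (N l j : ZMod p))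
  have hdeg := natDegree_det_X_add_C_le (1 : Matrix (Fin r) (Fin r) (ZMod p))
    (Matrix.of fun i j : Fin r => ∑ l : Fin n, ((V i).map φ %ₘ F.map φ).coeff l * (N l j : ZMod p))
  rw [← hDm] at hcoef hdeg
  rw [Fintype.card_fin] at hcoef hdeg
  rw [Matrix.det_one, coeff_map] at hcoef
  constructor
  · rw [hdv, hcoef]
    exact one_ne_zero
  · intro j hj
    rw [hdv, ← coeff_map]
    exact coeff_eq_zero_of_natDegree_lt (by omega)

theorem tf_cancel {B : Type} [CommRing B] (tf : ∀ b : B, (p : B) * b = 0 → b = 0) (j k : ℕ) (a : B)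
    (h : (p : B) ^ (j + k) ∣ (p : B) ^ j * a) : (p : B) ^ k ∣ a := by
  obtain ⟨y, hy⟩ := h
  refine ⟨y, ?_⟩
  have h1 : (p : B) ^ j * (a - p ^ k * y) = 0 := by
    rw [mul_sub, hy]; ring
  have h2 : ∀ (j : ℕ) (b : B), (p : B) ^ j * b = 0 → b = 0 := by
    intro j
    induction j with
    | zero => intro b hb; simpa using hb
    | succ j ih =>
      intro b hb
      apply ih
      apply tf
      rw [← hb]; ring
  exact sub_eq_zero.1 (h2 j _ h1)

/-- **the determinant at an exceptional point is divisible by a high power of `p`** -/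
theorem det_dvd {r n : ℕ} {F H : ℤ[X]} (hF : F.Monic) (hH : H.degree < F.degree)
    (P A V : Fin r → ℤ[X]) (M : ℕ) (hPM : ∀ i, P i ^ M = 1 + F * A i + C (p : ℤ) * V i)
    (k : ℕ) (hk : 1 ≤ k) (E : Fin r → ℤ[X][X])
    (hE : ∀ i, (1 + (p : ℤ[X][X]) * VV H (A i) (V i)) ^ (p ^ k) = 1 + (p : ℤ[X][X]) ^ (k + 1) * E i)
    (N : Fin n → Fin r → ℤ) (m : ℤ) (w : Fin r → ℤ_[p]) (G : ℤ_[p][X])
    (hG : G = (F + C ((p : ℤ) * m) * H).map (Int.castRingHom ℤ_[p]))
    (tf : ∀ b : AdjoinRoot G, (p : AdjoinRoot G) * b = 0 → b = 0)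
    (l : Fin r → AdjoinRoot G)
    (hl : ∀ i, IsLog p ((AdjoinRoot.mk G ((P i).map (Int.castRingHom ℤ_[p]))) ^ M) (l i))
    (hrel : ∑ i, AdjoinRoot.of G (w i) * l i = 0) (i : Fin r) :
    (p : ℤ_[p]) ^ (k - 1) ∣ w i * (((Matrix.det (Matrix.of fun i j : Fin r =>
      ∑ l : Fin n, (E i %ₘ FF p F H).coeff l * C (N l j))).eval m : ℤ) : ℤ_[p]) := by
  classical
  set Fm : ℤ[X] := F + C ((p : ℤ) * m) * H with hFm
  have hFmm : Fm.Monic := by
    apply Monic.add_of_left hF
    exact lt_of_le_of_lt (degree_C_mul_le' _ _) hH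
  have hGm : G.Monic := by rw [hG]; exact hFmm.map _
  set φ : ℤ[X] →+* AdjoinRoot G := (AdjoinRoot.mk G).comp (mapRingHom (Int.castRingHom ℤ_[p])) with hφ
  have hφa : ∀ Q : ℤ[X], φ Q = AdjoinRoot.mk G (Q.map (Int.castRingHom ℤ_[p])) := fun Q => rfl
  have hφF : φ Fm = 0 := by
    rw [hφa, ← hG, AdjoinRoot.mk_self]
  have hφp : φ (p : ℤ[X]) = (p : AdjoinRoot G) := map_natCast φ p
  -- the powers
  have hx : ∀ i, φ (P i) ^ M = φ (1 + (p : ℤ[X]) * (V i - C m * (H * A i))) := by
    intro i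
    rw [← map_pow, hPM]
    have h1 : (1 : ℤ[X]) + F * A i + C (p : ℤ) * V i =
        Fm * A i + (1 + (p : ℤ[X]) * (V i - C m * (H * A i))) := by
      rw [hFm]
      have : (C (p : ℤ) : ℤ[X]) = (p : ℤ[X]) := by simp
      rw [C_mul, this]
      ring
    rw [h1, map_add, map_mul, hφF, zero_mul, zero_add]
  have hEm : ∀ i, (1 + (p : ℤ[X]) * (V i - C m * (H * A i))) ^ (p ^ k) =
      1 + (p : ℤ[X]) ^ (k + 1) * (E i).map (evalRingHom m) := by
    intro i
    have h1 := congrArg (Polynomial.map (evalRingHom m)) (hE i)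
    simp only [Polynomial.map_pow, Polynomial.map_add, Polynomial.map_mul, Polynomial.map_one,
      Polynomial.map_natCast, VV_eval] at h1
    exact h1
  have h2 : ∀ i, (p : AdjoinRoot G) ^ k ∣ (p : AdjoinRoot G) * φ ((E i).map (evalRingHom m)) - l i := by
    intro i
    have h3 := hl i k
    rw [← hφa, hx, ← map_pow, hEm, map_add, map_one, map_mul, map_pow, hφp] at h3
    apply tf_cancel tf k k
    have e1 : (p : AdjoinRoot G) ^ k * ((p : AdjoinRoot G) * φ ((E i).map (evalRingHom m)) - l i) =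
        1 + (p : AdjoinRoot G) ^ (k + 1) * φ ((E i).map (evalRingHom m)) - 1 -
          (p : AdjoinRoot G) ^ k * l i := by ring
    rw [e1, ← two_mul]
    exact h3
  have h4 : (p : AdjoinRoot G) ^ (k - 1) ∣ ∑ i, AdjoinRoot.of G (w i) * φ ((E i).map (evalRingHom m)) := by
    apply tf_cancel tf 1 (k - 1)
    rw [show 1 + (k - 1) = k by omega, pow_one]
    have e1 : (p : AdjoinRoot G) * ∑ i, AdjoinRoot.of G (w i) * φ ((E i).map (evalRingHom m)) =
        ∑ i, AdjoinRoot.of G (w i) * ((p : AdjoinRoot G) * φ ((E i).map (evalRingHom m)) - l i) +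
          ∑ i, AdjoinRoot.of G (w i) * l i := by
      rw [Finset.mul_sum, ← Finset.sum_add_distrib]
      exact Finset.sum_congr rfl fun i _ => by ring
    rw [e1, hrel, add_zero]
    exact Finset.dvd_sum fun i _ => Dvd.dvd.mul_left (h2 i) _
  -- the remainders
  set R : Fin r → ℤ[X] := fun i => (E i).map (evalRingHom m) %ₘ Fm with hR
  have hφR : ∀ i, φ ((E i).map (evalRingHom m)) = φ (R i) := by
    intro i
    have := modByMonic_add_div ((E i).map (evalRingHom m)) Fm
    conv_lhs => rw [← this]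
    rw [map_add, map_mul, hφF, zero_mul, add_zero]
  have hRc : ∀ i (l : ℕ), (R i).coeff l = ((E i %ₘ FF p F H).coeff l).eval m := by
    intro i l
    rw [hR]
    simp only
    rw [hFm, ← FF_eval, ← map_modByMonic _ (FF_monic hF hH), coeff_map]
    rfl
  have h5 : (p : AdjoinRoot G) ^ (k - 1) ∣
      AdjoinRoot.mk G (∑ i, C (w i) * (R i).map (Int.castRingHom ℤ_[p])) := by
    rw [map_sum]
    simp only [map_mul, AdjoinRoot.mk_C]
    have e1 : ∀ i, AdjoinRoot.mk G ((R i).map (Int.castRingHom ℤ_[p])) = φ ((E i).map (evalRingHom m)) :=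
      fun i => by rw [hφR]; rfl
    simp only [e1]
    exact h4
  have h6 : ∀ l : ℕ, (p : ℤ_[p]) ^ (k - 1) ∣ ∑ i, w i * ((R i).coeff l : ℤ_[p]) := by
    intro l
    have hdeg : (∑ i, C (w i) * (R i).map (Int.castRingHom ℤ_[p])).degree < G.degree := by
      refine (degree_sum_le _ _).trans_lt ?_
      rw [Finset.sup_lt_iff (by rw [bot_lt_iff_ne_bot, Ne, degree_eq_bot]; exact hGm.ne_zero)]
      intro i _
      refine lt_of_le_of_lt (degree_C_mul_le' _ _) ?_
      rw [hG, hFmm.degree_map]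
      exact (degree_map_le).trans_lt (degree_modByMonic_lt _ hFmm)
    have e2 : AdjoinRoot.of G ((p : ℤ_[p]) ^ (k - 1)) = (p : AdjoinRoot G) ^ (k - 1) := by
      rw [map_pow, map_natCast]
    have h7 := dvd_coeff hGm hdeg ((p : ℤ_[p]) ^ (k - 1)) (by rw [e2]; exact h5) l
    rw [finsetSum_coeff] at h7
    simp only [coeff_C_mul, coeff_map] at h7
    exact h7
  -- the matrix
  set 𝒜 : Matrix (Fin r) (Fin r) ℤ_[p] := Matrix.of fun i j => ∑ l : Fin n, ((R i).coeff l : ℤ_[p]) *
    (N l j : ℤ_[p]) with h𝒜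
  have hdet : (((Matrix.det (Matrix.of fun i j : Fin r =>
      ∑ l : Fin n, (E i %ₘ FF p F H).coeff l * C (N l j))).eval m : ℤ) : ℤ_[p]) = 𝒜.det := by
    have e1 : (Matrix.det (Matrix.of fun i j : Fin r =>
      ∑ l : Fin n, (E i %ₘ FF p F H).coeff l * C (N l j))).eval m = Matrix.det (Matrix.of fun i j : Fin r =>
      ∑ l : Fin n, (R i).coeff l * N l j) := by
      rw [← coe_evalRingHom, RingHom.map_det]
      congr 1
      ext i j
      simp only [RingHom.mapMatrix_apply, Matrix.map_apply, Matrix.of_apply, coe_evalRingHom,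
        eval_finsetSum, eval_mul, eval_C, hRc]
    rw [e1, ← eq_intCast (Int.castRingHom ℤ_[p]), RingHom.map_det, h𝒜]
    congr 1
    ext1 i j
    simp
  have h8 : ∀ j, (p : ℤ_[p]) ^ (k - 1) ∣ (Matrix.vecMul w 𝒜) j := by
    intro j
    have e1 : (Matrix.vecMul w 𝒜) j = ∑ l : Fin n, (∑ i, w i * ((R i).coeff l : ℤ_[p])) * (N l j : ℤ_[p]) := by
      simp only [Matrix.vecMul, dotProduct, h𝒜, Matrix.of_apply, Finset.mul_sum, Finset.sum_mul]
      rw [Finset.sum_comm]
      exact Finset.sum_congr rfl fun l _ => Finset.sum_congr rfl fun i _ => by ring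
    rw [e1]
    exact Finset.dvd_sum fun l _ => Dvd.dvd.mul_right (h6 l) _
  have h9 : Matrix.vecMul (Matrix.vecMul w 𝒜) 𝒜.adjugate = 𝒜.det • w := by
    rw [Matrix.vecMul_vecMul, Matrix.mul_adjugate, Matrix.vecMul_smul, Matrix.vecMul_one]
  have h10 := congrFun h9 i
  rw [hdet, mul_comm, ← smul_eq_mul, ← Pi.smul_apply, ← h10]
  simp only [Matrix.vecMul, dotProduct]
  exact Finset.dvd_sum fun j _ => Dvd.dvd.mul_right (h8 j) _

end

end

end Pool.Agent.Helper82.LP
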