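import Mathlib

set_option autoImplicit false

/-! # The powers `(1 + p v) ^ (p ^ k)` modulo `p ^ (k + 3)`, `p ≥ 5` -/

namespace Pool.Agent.Helper82.LP

/-- `(1 + w) ^ p = 1 + p w + p α w ^ 2 + w ^ 3 (p a + w b)` for `p ≥ 5` -/
theorem one_add_pow5 {p : ℕ} (hp : p.Prime) (hp5 : 5 ≤ p) :
    ∃ α : ℤ, ∀ {R : Type} [CommRing R] (w : R),
    ∃ a b : R, (1 + w) ^ p = 1 + p * w + p * α * w ^ 2 + w ^ 3 * (p * a + w * b) := by
  obtain ⟨q, rfl⟩ : ∃ q, p = q + 5 := ⟨p - 5, by omega⟩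
  have h2 : (q + 5) ∣ (q + 5).choose 2 := hp.dvd_choose_self (by omega) (by omega)
  obtain ⟨α, hα⟩ := h2
  refine ⟨α, fun {R} _ w => ?_⟩
  have hdv : ∀ k ∈ Finset.range (q + 2), ((q + 5 : ℕ) : ℕ) ∣ (q + 5).choose (k + 1 + 1 + 1) := by
    intro k hk
    rw [Finset.mem_range] at hk
    exact hp.dvd_choose_self (by omega) (by omega)
  choose! g hg using hdv
  rw [add_comm 1 w, add_pow]
  simp only [one_pow, mul_one]
  rw [Finset.sum_range_succ, Finset.sum_range_succ', Finset.sum_range_succ', Finset.sum_range_succ']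
  refine ⟨∑ k ∈ Finset.range (q + 2), w ^ k * (g k : R), w ^ (q + 1), ?_⟩
  have h1 : ∑ k ∈ Finset.range (q + 2), w ^ (k + 1 + 1 + 1) * (((q + 5).choose (k + 1 + 1 + 1) : ℕ) : R) =
      w ^ 3 * (((q + 5 : ℕ) : R) * ∑ k ∈ Finset.range (q + 2), w ^ k * (g k : R)) := by
    rw [Finset.mul_sum, Finset.mul_sum]
    refine Finset.sum_congr rfl fun k hk => ?_
    rw [hg k hk]
    push_cast
    ring
  rw [h1]
  simp only [Nat.choose_self, zero_add, pow_one, Nat.choose_one_right, pow_zero, Nat.choose_zero_right]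
  have h3 : (((q + 5).choose (1 + 1) : ℕ) : R) = ((q + 5 : ℕ) : R) * ((α : ℤ) : R) := by
    rw [show (1 + 1 : ℕ) = 2 by rfl, hα]
    push_cast
    ring
  rw [h3]
  push_cast
  ring

/-- `(1 + p v) ^ (p ^ k) = 1 + p ^ (k + 1) (v + p a v ^ 2 + p ^ 2 b)` with an integer `a` -/
theorem pow_exp5 {p : ℕ} (hp : p.Prime) (hp5 : 5 ≤ p) (k : ℕ) :
    ∃ a : ℤ, ∀ {R : Type} [CommRing R] (v : R),
    ∃ b : R, (1 + (p : R) * v) ^ (p ^ k) = 1 + (p : R) ^ (k + 1) * (v + p * a * v ^ 2 + p ^ 2 * b) := by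
  obtain ⟨α, hα⟩ := one_add_pow5 hp hp5
  induction k with
  | zero => exact ⟨0, fun v => ⟨0, by simp⟩⟩
  | succ k ih =>
    rcases Nat.eq_zero_or_pos k with hk | hk
    · subst hk
      refine ⟨α, fun {R} _ v => ?_⟩
      obtain ⟨a', b', h⟩ := hα ((p : R) * v)
      refine ⟨v ^ 3 * (a' + v * b'), ?_⟩
      rw [zero_add, pow_one, h]
      ring
    · obtain ⟨a, ha⟩ := ih
      obtain ⟨k', rfl⟩ : ∃ k', k = k' + 1 := ⟨k - 1, by omega⟩
      refine ⟨a, fun {R} _ v => ?_⟩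
      obtain ⟨b, hab⟩ := ha v
      set u := v + p * a * v ^ 2 + p ^ 2 * b with hu
      obtain ⟨a', b', h⟩ := hα ((p : R) ^ (k' + 1 + 1) * u)
      refine ⟨b + (p : R) ^ k' * α * u ^ 2 + (p : R) ^ (k' + k' + 1) * u ^ 3 * (p * a' +
        (p : R) ^ (k' + 1 + 1) * u * b'), ?_⟩
      rw [pow_succ, pow_mul, hab, h]
      have e : v + (p : R) * a * v ^ 2 + (p : R) ^ 2 * (b + (p : R) ^ k' * α * u ^ 2 +
          (p : R) ^ (k' + k' + 1) * u ^ 3 * (p * a' + (p : R) ^ (k' + 1 + 1) * u * b')) =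
          u + (p : R) ^ (k' + 2) * α * u ^ 2 + (p : R) ^ (k' + k' + 3) * u ^ 3 * (p * a' +
            (p : R) ^ (k' + 1 + 1) * u * b') := by
        rw [hu]; ring
      rw [e]
      ring

end Pool.Agent.Helper82.LP
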