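import Mathlib

set_option autoImplicit false

/-! # Separable polynomials over `𝔽_p`: exponent of the units, independence of logarithmic derivatives -/

namespace Pool.Agent.Helper82.LP

open Polynomial

/-- in a finite reduced ring of characteristic `p` a power of the Frobenius map is the identity -/
theorem exists_frob (p : ℕ) [Fact p.Prime] (R : Type) [CommRing R] [Finite R] [CharP R p]
    (hred : IsReduced R) : ∃ a : ℕ, 0 < a ∧ ∀ x : R, x ^ p ^ a = x := by
  have hinj : Function.Injective (frobenius R p) := frobenius_inj R p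
  have hbij : Function.Bijective (frobenius R p) := hinj.bijective_of_finite
  let e : Equiv.Perm R := Equiv.ofBijective _ hbij
  have hfin : Finite (Equiv.Perm R) := inferInstance
  refine ⟨orderOf e, orderOf_pos e, fun x => ?_⟩
  have h1 : (e ^ orderOf e) x = x := by rw [pow_orderOf_eq_one]; rfl
  have h2 : ∀ k : ℕ, ∀ x : R, (e ^ k) x = x ^ p ^ k := by
    intro k
    induction k with
    | zero => intro x; simp
    | succ k ih =>
      intro x
      rw [pow_succ, Equiv.Perm.mul_apply, ih]
      show (frobenius R p x) ^ p ^ k = _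
      rw [frobenius_def, ← pow_mul, ← pow_succ']
  rw [← h2]
  exact h1

/-- the exponent `M` -/
theorem exists_exp (p : ℕ) [hp : Fact p.Prime] (f : (ZMod p)[X]) (hf : f.Monic) (hs : f.Separable) :
    ∃ M : ℕ, 0 < M ∧ ¬ p ∣ M ∧ ∀ P : (ZMod p)[X], IsCoprime P f → f ∣ P ^ M - 1 := by
  by_cases h1 : f = 1
  · refine ⟨1, one_pos, fun h => hp.out.one_lt.ne' (Nat.dvd_one.1 h), fun P _ => ?_⟩
    rw [h1]; exact one_dvd _
  have : Module.Finite (ZMod p) (AdjoinRoot f) := hf.finite_adjoinRoot
  have : Finite (AdjoinRoot f) := Module.finite_of_finite (ZMod p)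
  have hnt : Nontrivial (AdjoinRoot f) := by
    apply AdjoinRoot.nontrivial
    intro h
    apply h1
    have := (hf.natDegree_eq_zero).1 (natDegree_eq_zero_iff_degree_le_zero.2 h.le)
    exact this
  have : CharP (AdjoinRoot f) p := charP_of_injective_algebraMap
    (algebraMap (ZMod p) (AdjoinRoot f)).injective p
  have hred : IsReduced (AdjoinRoot f) := by
    constructor
    intro x hx
    obtain ⟨P, rfl⟩ := AdjoinRoot.mk_surjective x
    obtain ⟨n, hn⟩ := hx
    rw [← map_pow, AdjoinRoot.mk_eq_zero] at hn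
    rw [AdjoinRoot.mk_eq_zero]
    exact hs.squarefree.isRadical n P hn
  obtain ⟨a, ha, hfr⟩ := exists_frob p (AdjoinRoot f) hred
  have hpa : 1 < p ^ a := Nat.one_lt_pow ha.ne' hp.out.one_lt
  refine ⟨p ^ a - 1, by omega, ?_, fun P hP => ?_⟩
  · intro h
    have h2 : p ∣ p ^ a := dvd_pow_self _ ha.ne'
    have h3 : p ∣ 1 := by
      have := (Nat.dvd_sub h2 h)
      rwa [Nat.sub_sub_self hpa.le] at this
    exact hp.out.one_lt.ne' (Nat.dvd_one.1 h3)
  · obtain ⟨u, v, huv⟩ := hP
    have h2 : AdjoinRoot.mk f u * AdjoinRoot.mk f P = 1 := by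
      have := congrArg (AdjoinRoot.mk f) huv
      rw [map_add, map_mul, map_mul, AdjoinRoot.mk_self, mul_zero, add_zero, map_one] at this
      exact this
    have h3 := hfr (AdjoinRoot.mk f P)
    rw [← AdjoinRoot.mk_eq_zero, map_sub, map_one, map_pow, sub_eq_zero]
    calc (AdjoinRoot.mk f P) ^ (p ^ a - 1)
        = (AdjoinRoot.mk f u * AdjoinRoot.mk f P) * (AdjoinRoot.mk f P) ^ (p ^ a - 1) := by
          rw [h2, one_mul]
      _ = AdjoinRoot.mk f u * (AdjoinRoot.mk f P) ^ (p ^ a) := by
          rw [mul_assoc, ← pow_succ', Nat.sub_add_cancel hpa.le]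
      _ = 1 := by rw [h3, h2]

/-- the sum of the terms `c_i P_i' ∏_{l ≠ i} P_l` is not divisible by a polynomial of larger degree -/
theorem indep_end {k : Type} [Field k] {r : ℕ} (P : Fin r → k[X]) (hPd : ∀ i, 0 < (P i).natDegree)
    (hQ : (∏ i, P i).Separable) (f : k[X]) (hd : (∏ i, P i).natDegree < f.natDegree)
    (c : Fin r → k) (hc : f ∣ ∑ i, C (c i) * ((∏ l ∈ Finset.univ.erase i, P l) * derivative (P i))) :
    c = 0 := by
  classical
  set Q := ∏ i, P i with hQd
  have hQ0 : Q ≠ 0 := hQ.ne_zero
  have hP0 : ∀ i, P i ≠ 0 := fun i h => by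
    apply hQ0
    rw [hQd]
    exact Finset.prod_eq_zero (Finset.mem_univ i) h
  let q : Fin r → k[X] := fun i => ∏ l ∈ Finset.univ.erase i, P l
  have hq : ∀ i, P i * q i = Q := fun i => Finset.mul_prod_erase _ _ (Finset.mem_univ i)
  have h7 : (∑ i, C (c i) * (q i * derivative (P i))) = 0 := by
    apply eq_zero_of_dvd_of_natDegree_lt hc
    refine lt_of_le_of_lt (natDegree_sum_le_of_forall_le (n := Q.natDegree) _ _ ?_) hd
    intro i _
    refine (natDegree_C_mul_le _ _).trans ((natDegree_mul_le).trans ?_)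
    have e1 : Q.natDegree = (P i).natDegree + (q i).natDegree := by
      rw [← hq i, natDegree_mul (hP0 i)]
      intro h
      apply hQ0
      rw [← hq i, h, mul_zero]
    have e2 := natDegree_derivative_le (P i)
    have e3 : (q i).natDegree = (∏ l ∈ Finset.univ.erase i, P l).natDegree := rfl
    omega
  funext i
  by_contra hne
  rw [Pi.zero_apply] at hne
  have h8 : P i ∣ C (c i) * (q i * derivative (P i)) := by
    rw [← Finset.add_sum_erase _ _ (Finset.mem_univ i)] at h7
    have h9 : P i ∣ ∑ x ∈ Finset.univ.erase i, C (c x) * (q x * derivative (P x)) := by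
      refine Finset.dvd_sum fun l hl => Dvd.dvd.mul_left (Dvd.dvd.mul_right ?_ _) _
      exact Finset.dvd_prod_of_mem _ (Finset.mem_erase.2 ⟨(Finset.ne_of_mem_erase hl).symm,
        Finset.mem_univ i⟩)
    exact (dvd_add_left h9).1 (h7 ▸ dvd_zero _)
  have h10 : P i ∣ q i * derivative (P i) :=
    ((isUnit_C.2 (isUnit_iff_ne_zero.2 hne)).dvd_mul_left).1 h8
  have h11 : (P i * q i).Separable := by rw [hq]; exact hQ
  have h12 : IsCoprime (P i) (q i) := h11.isCoprime
  have h13 : (P i).Separable := h11.of_mul_left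
  have h14 : P i ∣ derivative (P i) := h12.dvd_of_dvd_mul_left h10
  have h15 : IsUnit (P i) := h13.isUnit_of_dvd' dvd_rfl h14
  have h16 := natDegree_eq_zero_of_isUnit h15
  have := hPd i
  omega

/-- **independence**: with `f A_i = P_i ^ M - 1` the classes of the `A_i` modulo the separable polynomial `f` are
linearly independent, if the product of the `P_i` is separable and of degree less than that of `f` -/
theorem indep {k : Type} [Field k] {r : ℕ} (P : Fin r → k[X]) (hPd : ∀ i, 0 < (P i).natDegree)
    (hQ : (∏ i, P i).Separable) (f : k[X]) (hd : (∏ i, P i).natDegree < f.natDegree)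
    (M : ℕ) (hM : (M : k) ≠ 0) (A : Fin r → k[X]) (hA : ∀ i, f * A i = P i ^ M - 1)
    (c : Fin r → k) (hc : f ∣ ∑ i, C (c i) * A i) : c = 0 := by
  classical
  have hM1 : 1 ≤ M := by
    rcases Nat.eq_zero_or_pos M with h | h
    · subst h; simp at hM
    · exact h
  set Q := ∏ i, P i with hQd
  have hQ0 : Q ≠ 0 := hQ.ne_zero
  have hP0 : ∀ i, P i ≠ 0 := fun i h => by
    apply hQ0
    rw [hQd]
    exact Finset.prod_eq_zero (Finset.mem_univ i) h
  let q : Fin r → k[X] := fun i => ∏ l ∈ Finset.univ.erase i, P l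
  have hq : ∀ i, P i * q i = Q := fun i => Finset.mul_prod_erase _ _ (Finset.mem_univ i)
  -- the congruence
  have h1 : ∀ i, f ∣ Q * (derivative f * A i) - (M : k[X]) * (q i * derivative (P i)) := by
    intro i
    have h2 := congrArg derivative (hA i)
    rw [derivative_mul, derivative_sub, derivative_pow, derivative_one, sub_zero] at h2
    have h3 : Q * (derivative f * A i) - (M : k[X]) * (q i * derivative (P i)) =
        f * (Q * (- derivative (A i)) + (M : k[X]) * (q i * derivative (P i)) * A i) := by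
      have e1 : (P i) ^ M = P i * (P i) ^ (M - 1) := by
        rw [← pow_succ']; congr 1; omega
      have e2 : f * A i = P i * (P i) ^ (M - 1) - 1 := by rw [hA, e1]
      have e3 : C (M : k) = (M : k[X]) := by simp
      rw [e3] at h2
      rw [← hq i] at *
      linear_combination (P i * q i) * h2 - ((M : k[X]) * (q i * derivative (P i))) * e2
    rw [h3]
    exact dvd_mul_right _ _
  have h4 : f ∣ ∑ i, C (c i) * (q i * derivative (P i)) := by
    have h5 : f ∣ Q * derivative f * (∑ i, C (c i) * A i) -
        ∑ i, C (c i) * (Q * (derivative f * A i) - (M : k[X]) * (q i * derivative (P i))) :=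
      dvd_sub (Dvd.dvd.mul_left hc _) (Finset.dvd_sum fun i _ => Dvd.dvd.mul_left (h1 i) _)
    have h6 : Q * derivative f * (∑ i, C (c i) * A i) -
        ∑ i, C (c i) * (Q * (derivative f * A i) - (M : k[X]) * (q i * derivative (P i))) =
        C (M : k) * ∑ i, C (c i) * (q i * derivative (P i)) := by
      rw [Finset.mul_sum, Finset.mul_sum, ← Finset.sum_sub_distrib]
      refine Finset.sum_congr rfl fun i _ => ?_
      have e3 : C (M : k) = (M : k[X]) := by simp
      rw [e3]
      ring
    rw [h6] at h5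
    exact ((isUnit_C.2 (isUnit_iff_ne_zero.2 hM)).dvd_mul_left).1 h5
  exact indep_end P hPd hQ f hd c h4

end Pool.Agent.Helper82.LP
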