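import Mathlib
import Pool.Agent.Helper82.LP.Frob

set_option autoImplicit false

/-! # The radical of a polynomial over `𝔽_p` -/

namespace Pool.Agent.Helper82.LP

open Polynomial UniqueFactorizationMonoid

/-- a nilpotent element of a finite dimensional algebra -/
theorem pow_finrank_eq_zero' {k A : Type} [Field k] [CommRing A] [Algebra k A] [Module.Finite k A]
    (x : A) (hx : IsNilpotent x) : x ^ Module.finrank k A = 0 := by
  set φ : Module.End k A := Algebra.lmul k A x with hφ
  have h1 : IsNilpotent φ := hx.map (Algebra.lmul k A)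
  have h2 := IsNilpotent.charpoly_eq_X_pow_finrank (R := k) (M := A) h1
  have h3 := LinearMap.aeval_self_charpoly φ
  rw [h2, map_pow, aeval_X] at h3
  have h4 : (Algebra.lmul k A (x ^ Module.finrank k A)) 1 = 0 := by
    rw [map_pow, ← hφ, h3]; rfl
  simpa using h4

theorem exists_rad (p : ℕ) [hp : Fact p.Prime] (f : (ZMod p)[X]) (hf : f.Monic) :
    ∃ ρ : (ZMod p)[X], ρ.Monic ∧ ρ.Separable ∧ ρ ∣ f ∧ f ∣ ρ ^ f.natDegree ∧ f ∣ ρ * derivative f := by
  classical
  have hf0 := hf.ne_zero
  have hr0 : radical f ≠ 0 := radical_ne_zero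
  have has : Associated (normalize (radical f)) (radical f) := normalize_associated _
  refine ⟨normalize (radical f), monic_normalize hr0, ?_, ?_, ?_, ?_⟩
  · rw [PerfectField.separable_iff_squarefree]
    exact (has.squarefree_iff).2 squarefree_radical
  · exact has.dvd.trans radical_dvd_self
  · obtain ⟨n, hn⟩ := exists_dvd_radical_self_pow hf0
    have h1 : f ∣ (normalize (radical f)) ^ n := hn.trans (pow_dvd_pow_of_dvd has.symm.dvd n)
    have : Module.Finite (ZMod p) (AdjoinRoot f) := hf.finite_adjoinRoot
    have h2 : IsNilpotent (AdjoinRoot.mk f (normalize (radical f))) :=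
      ⟨n, by rw [← map_pow, AdjoinRoot.mk_eq_zero]; exact h1⟩
    have h3 := pow_finrank_eq_zero' (k := ZMod p) _ h2
    have h4 : Module.finrank (ZMod p) (AdjoinRoot f) = f.natDegree := by
      rw [(AdjoinRoot.powerBasis' hf).finrank, AdjoinRoot.powerBasis'_dim]
    rw [h4, ← map_pow, AdjoinRoot.mk_eq_zero] at h3
    exact h3
  · have h1 := divRadical_dvd_derivative f
    have h2 : f = radical f * EuclideanDomain.divRadical f := EuclideanDomain.radical_mul_divRadical.symm
    calc f ∣ radical f * EuclideanDomain.divRadical f := h2.dvd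
      _ ∣ normalize (radical f) * derivative f := mul_dvd_mul has.symm.dvd h1

end Pool.Agent.Helper82.LP
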