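import Mathlib
import Pool.Agent.Helper82.LP.Rad

set_option autoImplicit false

/-! # The powers of the units in a class modulo `p` which may be ramified (tame case) -/

namespace Pool.Agent.Helper82.LP

open Polynomial

section

variable {p : ℕ} [hp : Fact p.Prime]

theorem map_eq_zero_dvd {Q : ℤ[X]} (h : Q.map (Int.castRingHom (ZMod p)) = 0) :
    ∃ b : ℤ[X], Q = (p : ℤ[X]) * b := by
  have h1 : C (p : ℤ) ∣ Q := by
    rw [C_dvd_iff_dvd_coeff]
    intro i
    have h2 := congrArg (fun R => R.coeff i) h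
    simp only [coeff_map, coeff_zero] at h2
    exact (ZMod.intCast_zmod_eq_zero_iff_dvd _ p).1 h2
  obtain ⟨b, hb⟩ := h1
  exact ⟨b, by rw [hb]; simp⟩

theorem dvd_lift {A B : ℤ[X]} (h : A.map (Int.castRingHom (ZMod p)) ∣ B.map (Int.castRingHom (ZMod p))) :
    ∃ a b : ℤ[X], B = A * a + (p : ℤ[X]) * b := by
  obtain ⟨y, hy⟩ := h
  have hsurj : Function.Surjective (Int.castRingHom (ZMod p)) := ZMod.intCast_surjective
  obtain ⟨a, ha⟩ := Polynomial.map_surjective _ hsurj y
  obtain ⟨b, hb⟩ := map_eq_zero_dvd (p := p) (Q := B - A * a) (by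
    rw [Polynomial.map_sub, Polynomial.map_mul, ha, hy, sub_self])
  exact ⟨a, b, by rw [← hb]; ring⟩

theorem map_p (R : ℤ[X]) : ((p : ℤ[X]) * R).map (Int.castRingHom (ZMod p)) = 0 := by
  rw [Polynomial.map_mul, Polynomial.map_natCast]
  have : ((p : ℕ) : (ZMod p)[X]) = 0 := by
    rw [← map_natCast (C : ZMod p →+* (ZMod p)[X])]; simp
  rw [this, zero_mul]

/-- the form of the powers -/
theorem exists_form {F : ℤ[X]} (hF : F.Monic) (hn : 3 * F.natDegree ≤ p) :
    ∃ ρ : ℤ[X], ρ.Monic ∧ ρ.map (Int.castRingHom (ZMod p)) ∣ F.map (Int.castRingHom (ZMod p)) ∧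
      F.map (Int.castRingHom (ZMod p)) ∣ ρ.map (Int.castRingHom (ZMod p)) *
        derivative (F.map (Int.castRingHom (ZMod p))) ∧
      ∃ M : ℕ, 0 < M ∧ ¬ p ∣ M ∧ ∀ P : ℤ[X], IsCoprime (P.map (Int.castRingHom (ZMod p)))
        (F.map (Int.castRingHom (ZMod p))) → ∃ V A A' : ℤ[X],
        P ^ (p * M) = 1 + (p : ℤ[X]) * V + F ^ 3 * A + (p : ℤ[X]) * F ^ 2 * A' ∧
        ρ.map (Int.castRingHom (ZMod p)) ∣ V.map (Int.castRingHom (ZMod p)) := by
  have hpp := hp.out
  obtain ⟨ρ', hρm, hρs, hρ1, hρ2, hρ3⟩ := exists_rad p (F.map (Int.castRingHom (ZMod p))) (hF.map _)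
  have hsurj : Function.Surjective (Int.castRingHom (ZMod p)) := ZMod.intCast_surjective
  have hl : ρ' ∈ lifts (Int.castRingHom (ZMod p)) := by
    rw [lifts_iff_coeff_lifts]
    intro n
    exact hsurj _
  obtain ⟨ρ, hρ, -, hρmon⟩ := lifts_and_natDegree_eq_and_monic hl hρm
  obtain ⟨M, hM, hpM, hMdvd⟩ := exists_exp p ρ' hρm hρs
  refine ⟨ρ, hρmon, by rw [hρ]; exact hρ1, by rw [hρ]; exact hρ3, M, hM, hpM, fun P hP => ?_⟩
  rw [hF.natDegree_map] at hρ2
  set n := F.natDegree with hnd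
  obtain ⟨u, z, huz⟩ := dvd_lift (p := p) (A := F) (B := ρ ^ n) (by rw [Polynomial.map_pow, hρ]; exact hρ2)
  have h1 := hMdvd (P.map (Int.castRingHom (ZMod p))) (hP.of_isCoprime_of_dvd_right hρ1)
  obtain ⟨a, b, hab⟩ := dvd_lift (p := p) (A := ρ) (B := P ^ M - 1) (by
    rw [Polynomial.map_sub, Polynomial.map_pow, Polynomial.map_one, hρ]; exact h1)
  have hPM : P ^ M = 1 + (ρ * a + (p : ℤ[X]) * b) := by rw [← hab]; ring
  obtain ⟨r, hr⟩ := exists_add_pow_prime_eq hpp (1 : ℤ[X]) (ρ * a + (p : ℤ[X]) * b)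
  obtain ⟨r', hr'⟩ := exists_add_pow_prime_eq hpp (ρ * a) ((p : ℤ[X]) * b)
  have e1 : (ρ * a) ^ p = a ^ p * ρ ^ (p - 3 * n) * (ρ ^ n) ^ 3 := by
    have : ρ ^ p = ρ ^ (p - 3 * n) * (ρ ^ n) ^ 3 := by
      rw [← pow_mul, ← pow_add]
      congr 1
      omega
    rw [mul_pow, this]
    ring
  have e2 : ((p : ℤ[X]) * b) ^ p = (p : ℤ[X]) ^ 2 * ((p : ℤ[X]) ^ (p - 2) * b ^ p) := by
    have : (p : ℤ[X]) ^ p = (p : ℤ[X]) ^ 2 * (p : ℤ[X]) ^ (p - 2) := by
      rw [← pow_add]
      congr 1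
      have := hpp.two_le
      omega
    rw [mul_pow, this]
    ring
  set g := a ^ p * ρ ^ (p - 3 * n) with hg
  refine ⟨(ρ * a + (p : ℤ[X]) * b) * r + (p : ℤ[X]) * (g * (3 * F * u * z ^ 2 + p * z ^ 3) +
    (p : ℤ[X]) ^ (p - 2) * b ^ p + ρ * a * b * r'), g * u ^ 3, g * (3 * u ^ 2 * z), ?_, ?_⟩
  · rw [mul_comm p M, pow_mul, hPM, hr, hr', e1, e2, huz]
    ring
  · rw [Polynomial.map_add, map_p, add_zero, Polynomial.map_mul, Polynomial.map_add, map_p, add_zero,
      Polynomial.map_mul]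
    exact Dvd.intro _ (mul_assoc _ _ _).symm

/-- the derivative of `V` -/
theorem form_deriv {F P V A A' : ℤ[X]} (hF : F.Monic) {M : ℕ}
    (h : P ^ (p * M) = 1 + (p : ℤ[X]) * V + F ^ 3 * A + (p : ℤ[X]) * F ^ 2 * A') :
    F.map (Int.castRingHom (ZMod p)) ∣ (M : (ZMod p)[X]) * ((P.map (Int.castRingHom (ZMod p))) ^ (p * M - 1) *
      derivative (P.map (Int.castRingHom (ZMod p)))) - derivative (V.map (Int.castRingHom (ZMod p))) := by
  have hpp := hp.out
  have hd := congrArg derivative h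
  have e1 : derivative (P ^ (p * M)) = (p : ℤ[X]) * ((M : ℤ[X]) * (P ^ (p * M - 1) * derivative P)) := by
    rw [derivative_pow]
    have : (C (((p * M : ℕ)) : ℤ) : ℤ[X]) = (p : ℤ[X]) * M := by simp
    rw [this]
    ring
  have e2 : derivative (1 + (p : ℤ[X]) * V + F ^ 3 * A + (p : ℤ[X]) * F ^ 2 * A') =
      (p : ℤ[X]) * derivative V + F ^ 2 * (3 * derivative F * A + F * derivative A) +
      (p : ℤ[X]) * (2 * F * derivative F * A' + F ^ 2 * derivative A') := by
    simp only [derivative_add, derivative_mul, derivative_one, derivative_natCast, derivative_pow]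
    simp
    ring
  rw [e1, e2] at hd
  -- the factor `3 F' A + F A'` is divisible by `p`
  have h1 : ((F ^ 2 * (3 * derivative F * A + F * derivative A)).map (Int.castRingHom (ZMod p))) = 0 := by
    have e3 : F ^ 2 * (3 * derivative F * A + F * derivative A) = (p : ℤ[X]) * ((M : ℤ[X]) *
        (P ^ (p * M - 1) * derivative P) - derivative V - (2 * F * derivative F * A' + F ^ 2 * derivative A')) := by
      linear_combination -hd
    rw [e3, map_p]
  rw [Polynomial.map_mul] at h1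
  have h2 : (3 * derivative F * A + F * derivative A).map (Int.castRingHom (ZMod p)) = 0 := by
    rcases mul_eq_zero.1 h1 with h3 | h3
    · exfalso
      rw [Polynomial.map_pow] at h3
      exact (pow_ne_zero 2 (hF.map (Int.castRingHom (ZMod p))).ne_zero) h3
    · exact h3
  obtain ⟨z, hz⟩ := map_eq_zero_dvd h2
  rw [hz] at hd
  have hp0 : (p : ℤ[X]) ≠ 0 := by
    exact_mod_cast hpp.ne_zero
  have h3 : (M : ℤ[X]) * (P ^ (p * M - 1) * derivative P) - derivative V =
      F * (F * z + 2 * derivative F * A' + F * derivative A') := by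
    apply mul_left_cancel₀ hp0
    linear_combination hd
  have h4 := congrArg (Polynomial.map (Int.castRingHom (ZMod p))) h3
  rw [Polynomial.map_sub, Polynomial.map_mul, Polynomial.map_mul, Polynomial.map_pow,
    Polynomial.map_natCast, ← derivative_map, ← derivative_map, Polynomial.map_mul] at h4
  rw [h4]
  exact dvd_mul_right _ _

/-- **independence** -/
theorem form_indep {r : ℕ} {F : ℤ[X]} (hF : F.Monic) {ρ : ℤ[X]}
    (hρ3 : F.map (Int.castRingHom (ZMod p)) ∣ ρ.map (Int.castRingHom (ZMod p)) *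
        derivative (F.map (Int.castRingHom (ZMod p)))) {M : ℕ} (hM : 0 < M) (hpM : ¬ p ∣ M)
    (P V A A' : Fin r → ℤ[X])
    (h : ∀ i, P i ^ (p * M) = 1 + (p : ℤ[X]) * V i + F ^ 3 * A i + (p : ℤ[X]) * F ^ 2 * A' i)
    (hPm : ∀ i, (P i).Monic) (hPd : ∀ i, 0 < (P i).natDegree)
    (hQ : ((∏ i, P i).map (Int.castRingHom (ZMod p))).Separable)
    (hd : (∏ i, P i).natDegree < F.natDegree)
    (c : Fin r → ZMod p)
    (h1 : ∑ i, C (c i) * ((V i).map (Int.castRingHom (ZMod p)) %ₘ F.map (Int.castRingHom (ZMod p))) = 0)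
    (h2 : ρ.map (Int.castRingHom (ZMod p)) ∣
      ∑ i, C (c i) * ((V i).map (Int.castRingHom (ZMod p)) /ₘ F.map (Int.castRingHom (ZMod p)))) :
    c = 0 := by
  classical
  set φ := Int.castRingHom (ZMod p) with hφ
  have hFm : (F.map φ).Monic := hF.map _
  have hpM1 : 1 ≤ p * M := Nat.mul_pos hp.out.pos hM
  -- `F` divides the derivative of `∑ c_i V_i`
  have h3 : ∑ i, C (c i) * (V i).map φ = F.map φ * ∑ i, C (c i) * ((V i).map φ /ₘ F.map φ) := by
    have e1 : ∀ i, C (c i) * (V i).map φ = C (c i) * ((V i).map φ %ₘ F.map φ) +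
        F.map φ * (C (c i) * ((V i).map φ /ₘ F.map φ)) := by
      intro i
      conv_lhs => rw [← modByMonic_add_div ((V i).map φ) (F.map φ)]
      ring
    rw [Finset.sum_congr rfl fun i _ => e1 i, Finset.sum_add_distrib, h1, zero_add, Finset.mul_sum]
  have h4 : F.map φ ∣ derivative (∑ i, C (c i) * (V i).map φ) := by
    rw [h3, derivative_mul]
    refine dvd_add ?_ (dvd_mul_right _ _)
    obtain ⟨y, hy⟩ := h2
    rw [hy]
    obtain ⟨y', hy'⟩ := hρ3
    refine ⟨y' * y, ?_⟩
    linear_combination y * hy'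
  have h5 : F.map φ ∣ ∑ i, C (c i) * derivative ((V i).map φ) := by
    rw [derivative_sum] at h4
    simpa only [derivative_mul, derivative_C, zero_mul, zero_add] using h4
  have hM0 : ((M : ℕ) : ZMod p) ≠ 0 := by
    rw [Ne, ZMod.natCast_eq_zero_iff]
    exact hpM
  have hprod : (∏ i, P i).map φ = ∏ i, (P i).map φ := by
    rw [Polynomial.map_prod]
  have h6 : F.map φ ∣ C (M : ZMod p) * ∑ i, C (c i) * ((∏ l ∈ Finset.univ.erase i, (P l).map φ) *
      derivative ((P i).map φ)) := by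
    have e1 : ∀ i, F.map φ ∣ (∏ l, (P l).map φ) * derivative ((V i).map φ) -
        C (M : ZMod p) * ((∏ l ∈ Finset.univ.erase i, (P l).map φ) * derivative ((P i).map φ)) := by
      intro i
      have e2 := form_deriv (p := p) hF (h i)
      have e3 : F.map φ ∣ ((P i).map φ) ^ (p * M) - 1 := by
        have := congrArg (Polynomial.map φ) (h i)
        rw [Polynomial.map_pow] at this
        rw [this, Polynomial.map_add, Polynomial.map_add, Polynomial.map_add, map_p, Polynomial.map_mul,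
          mul_assoc, map_p, Polynomial.map_pow, Polynomial.map_one]
        refine ⟨F.map φ ^ 2 * (A i).map φ, ?_⟩
        ring
      rw [← Finset.mul_prod_erase _ _ (Finset.mem_univ i)]
      obtain ⟨y, hy⟩ := e2
      obtain ⟨y', hy'⟩ := e3
      have e4 : ((P i).map φ) ^ (p * M) = (P i).map φ * ((P i).map φ) ^ (p * M - 1) := by
        rw [← pow_succ']
        congr 1
        omega
      rw [e4] at hy'
      have e5 : (C (M : ZMod p) : (ZMod p)[X]) = (M : (ZMod p)[X]) := by simp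
      refine ⟨-((P i).map φ * (∏ l ∈ Finset.univ.erase i, (P l).map φ) * y) +
        (M : (ZMod p)[X]) * (∏ l ∈ Finset.univ.erase i, (P l).map φ) * derivative ((P i).map φ) * y', ?_⟩
      rw [e5]
      linear_combination -((P i).map φ * (∏ l ∈ Finset.univ.erase i, (P l).map φ)) * hy +
        ((M : (ZMod p)[X]) * (∏ l ∈ Finset.univ.erase i, (P l).map φ) * derivative ((P i).map φ)) * hy'
    have e6 : F.map φ ∣ (∏ l, (P l).map φ) * (∑ i, C (c i) * derivative ((V i).map φ)) -
        ∑ i, C (c i) * ((∏ l, (P l).map φ) * derivative ((V i).map φ) -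
        C (M : ZMod p) * ((∏ l ∈ Finset.univ.erase i, (P l).map φ) * derivative ((P i).map φ))) :=
      dvd_sub (Dvd.dvd.mul_left h5 _) (Finset.dvd_sum fun i _ => Dvd.dvd.mul_left (e1 i) _)
    have e7 : (∏ l, (P l).map φ) * (∑ i, C (c i) * derivative ((V i).map φ)) -
        ∑ i, C (c i) * ((∏ l, (P l).map φ) * derivative ((V i).map φ) -
        C (M : ZMod p) * ((∏ l ∈ Finset.univ.erase i, (P l).map φ) * derivative ((P i).map φ))) =
        C (M : ZMod p) * ∑ i, C (c i) * ((∏ l ∈ Finset.univ.erase i, (P l).map φ) *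
          derivative ((P i).map φ)) := by
      rw [Finset.mul_sum, Finset.mul_sum, ← Finset.sum_sub_distrib]
      exact Finset.sum_congr rfl fun i _ => by ring
    rwa [e7] at e6
  have h7 := ((isUnit_C.2 (isUnit_iff_ne_zero.2 hM0)).dvd_mul_left).1 h6
  refine indep_end (fun i => (P i).map φ) (fun i => ?_) (by rw [← hprod]; exact hQ) (F.map φ) ?_ c h7
  · rw [(hPm i).natDegree_map]
    exact hPd i
  · rw [← hprod]
    have hpm : (∏ i, P i).Monic := monic_prod_of_monic _ _ fun i _ => hPm i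
    rw [hpm.natDegree_map, hF.natDegree_map]
    exact hd

end

end Pool.Agent.Helper82.LP
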