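import Mathlib
import Pool.Agent.Helper82.LP.Tame1
import Pool.Agent.Helper82.LP.Pow5
import Pool.Agent.Helper82.LP.Line

set_option autoImplicit false

/-! # The determinants for a class modulo `p` (tame case) -/

namespace Pool.Agent.Helper82.LP

open Polynomial

noncomputable section

section

variable {p : ℕ} [hp : Fact p.Prime]

/-- the powers in the family `F + p s H` -/
theorem pow_fam {F H P V A A' : ℤ[X]} (hp5 : 5 ≤ p) (M k : ℕ)
    (h : P ^ (p * M) = 1 + (p : ℤ[X]) * V + F ^ 3 * A + (p : ℤ[X]) * F ^ 2 * A') :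
    ∃ (T : ℤ[X]) (b c : ℤ[X][X]), T.map (Int.castRingHom (ZMod p)) = V.map (Int.castRingHom (ZMod p)) ∧
      (P.map C) ^ (p * M * p ^ k) = 1 + (p : ℤ[X][X]) ^ (k + 1) * (T.map C + (p : ℤ[X][X]) ^ 2 * b) +
        FF p F H * c := by
  obtain ⟨a, ha⟩ := pow_exp5 hp.out hp5 k
  set g : ℤ[X][X] := C X * H.map C with hg
  have hFF : F.map C = FF p F H - (p : ℤ[X][X]) * g := by
    unfold FF
    rw [hg]
    have : (C (C (p : ℤ) * X) : ℤ[X][X]) = (p : ℤ[X][X]) * C X := by
      rw [C_mul]; simp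
    rw [this]
    ring
  have h1 : (P.map (C : ℤ →+* ℤ[X])) ^ (p * M) = 1 + (p : ℤ[X][X]) * (V.map C + (p : ℤ[X][X]) ^ 2 *
      (- (g ^ 3 * A.map C) + g ^ 2 * A'.map C)) + FF p F H * (((FF p F H) ^ 2 - 3 * FF p F H * (p * g) +
        3 * (p * g) ^ 2) * A.map C + (p : ℤ[X][X]) * (FF p F H - 2 * (p * g)) * A'.map C) := by
    have h2 := congrArg (Polynomial.map (C : ℤ →+* ℤ[X])) h
    simp only [Polynomial.map_pow, Polynomial.map_add, Polynomial.map_mul, Polynomial.map_one,
      Polynomial.map_natCast] at h2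
    rw [h2, hFF]
    ring
  set v := V.map (C : ℤ →+* ℤ[X]) + (p : ℤ[X][X]) ^ 2 * (- (g ^ 3 * A.map C) + g ^ 2 * A'.map C) with hv
  obtain ⟨b, hb⟩ := ha v
  set w := ((FF p F H) ^ 2 - 3 * FF p F H * (p * g) +
        3 * (p * g) ^ 2) * A.map C + (p : ℤ[X][X]) * (FF p F H - 2 * (p * g)) * A'.map C with hw
  have h3 : FF p F H ∣ (1 + (p : ℤ[X][X]) * v + FF p F H * w) ^ (p ^ k) - (1 + (p : ℤ[X][X]) * v) ^ (p ^ k) := by
    have := sub_dvd_pow_sub_pow (1 + (p : ℤ[X][X]) * v + FF p F H * w) (1 + (p : ℤ[X][X]) * v) (p ^ k)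
    refine dvd_trans ⟨w, ?_⟩ this
    ring
  obtain ⟨c, hc⟩ := h3
  set y := - (g ^ 3 * A.map C) + g ^ 2 * A'.map C with hy
  refine ⟨V + (p : ℤ[X]) * ((a : ℤ[X]) * V ^ 2), y + p * a * (2 * V.map C * y + p ^ 2 * y ^ 2) + b, c, ?_, ?_⟩
  · rw [Polynomial.map_add, map_p, add_zero]
  · rw [pow_mul, h1, sub_eq_iff_eq_add.1 hc, hb]
    simp only [Polynomial.map_add, Polynomial.map_mul, Polynomial.map_natCast, Polynomial.map_pow,
      Polynomial.map_intCast]
    rw [hv]
    ring

/-- the remainder of `T + p ^ 2 b` modulo `F + p s H` -/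
theorem E_mod {F H : ℤ[X]} (hF : F.Monic) (hH : H.degree < F.degree) (T : ℤ[X]) (b : ℤ[X][X]) :
    ∃ z : ℤ[X][X], (T.map C + (p : ℤ[X][X]) ^ 2 * b) %ₘ FF p F H =
      (T %ₘ F).map C - (p : ℤ[X][X]) * (C X * ((H * (T /ₘ F)) %ₘ F).map C) + (p : ℤ[X][X]) ^ 2 * z ∧
      z.degree < (FF p F H).degree := by
  set Q := T /ₘ F with hQ
  set S := (H * Q) /ₘ F with hS
  have hFm := FF_monic (p := p) hF hH
  have hg : F.map (C : ℤ →+* ℤ[X]) = FF p F H - (p : ℤ[X][X]) * (C X * H.map C) := by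
    unfold FF
    have : (C (C (p : ℤ) * X) : ℤ[X][X]) = (p : ℤ[X][X]) * C X := by
      rw [C_mul]; simp
    rw [this]
    ring
  have h1 : T.map (C : ℤ →+* ℤ[X]) = (T %ₘ F).map C + F.map C * Q.map C := by
    conv_lhs => rw [← modByMonic_add_div T F]
    rw [Polynomial.map_add, Polynomial.map_mul]
  have h2 : (H * Q).map (C : ℤ →+* ℤ[X]) = ((H * Q) %ₘ F).map C + F.map C * S.map C := by
    conv_lhs => rw [← modByMonic_add_div (H * Q) F]
    rw [Polynomial.map_add, Polynomial.map_mul]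
  have h3 : T.map C + (p : ℤ[X][X]) ^ 2 * b = FF p F H * (Q.map C - (p : ℤ[X][X]) * (C X * S.map C)) +
      (((T %ₘ F).map C - (p : ℤ[X][X]) * (C X * ((H * Q) %ₘ F).map C)) +
      (p : ℤ[X][X]) ^ 2 * ((C X) ^ 2 * H.map C * S.map C + b)) := by
    rw [Polynomial.map_mul] at h2
    rw [hg] at h1 h2
    linear_combination h1 - ((p : ℤ[X][X]) * C X) * h2
  have hpp : ∀ Y : ℤ[X][X], ((p : ℤ[X][X]) ^ 2 * Y) %ₘ FF p F H = (p : ℤ[X][X]) ^ 2 * (Y %ₘ FF p F H) := by
    intro Y
    have e1 : ∀ Y : ℤ[X][X], (p : ℤ[X][X]) ^ 2 * Y = ((p : ℤ[X]) ^ 2) • Y := by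
      intro Y
      rw [smul_eq_C_mul, C_pow]; simp
    rw [e1, smul_modByMonic, e1]
  have hdeg : ∀ Y : ℤ[X], ((Y %ₘ F).map (C : ℤ →+* ℤ[X])).degree < (FF p F H).degree := by
    intro Y
    rw [degree_map_eq_of_injective C_injective]
    have e1 : (FF p F H).degree = F.degree := by
      rw [degree_eq_natDegree hFm.ne_zero, FF_natDegree hH, degree_eq_natDegree hF.ne_zero]
    rw [e1]
    exact degree_modByMonic_lt _ hF
  refine ⟨((C X) ^ 2 * H.map C * S.map C + b) %ₘ FF p F H, ?_, degree_modByMonic_lt _ hFm⟩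
  rw [h3, add_modByMonic, (modByMonic_eq_zero_iff_dvd hFm).2 (dvd_mul_right _ _), zero_add, add_modByMonic,
    hpp]
  congr 1
  rw [modByMonic_eq_self_iff hFm]
  refine (degree_sub_le _ _).trans_lt (max_lt (hdeg _) ?_)
  have e2 : (p : ℤ[X][X]) * (C X * ((H * Q) %ₘ F).map C) = C ((p : ℤ[X]) * X) * ((H * Q) %ₘ F).map C := by
    rw [C_mul]; simp; ring
  rw [e2]
  exact (degree_C_mul_le' _ _).trans_lt (hdeg _)

end

/-! ### choice of columns -/

theorem exists_cols {k : Type} [Field k] {r : ℕ} {ι : Type} [Fintype ι] (Z : Fin r → ι → k)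
    (h : ∀ c : Fin r → k, (∀ l, ∑ i, c i * Z i l = 0) → c = 0) :
    ∃ σ : Fin r → ι, (Matrix.of fun i j => Z i (σ j)).det ≠ 0 := by
  classical
  have hspan : Submodule.span k (Set.range fun l : ι => (fun i => Z i l : Fin r → k)) = ⊤ := by
    by_contra hne
    obtain ⟨f, hf0, hf⟩ := Submodule.exists_le_ker_of_lt_top _ (lt_top_iff_ne_top.2 hne)
    apply hf0
    have h1 : (fun i => f (Pi.single i 1)) = (0 : Fin r → k) := by
      apply h
      intro l
      have h2 : (fun i => Z i l : Fin r → k) ∈ LinearMap.ker f := hf (Submodule.subset_span ⟨l, rfl⟩)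
      rw [LinearMap.mem_ker, LinearMap.pi_apply_eq_sum_univ f] at h2
      rw [← h2]
      refine Finset.sum_congr rfl fun i _ => ?_
      rw [smul_eq_mul, mul_comm]
      congr 2
      funext j
      simp [Pi.single_apply, eq_comm]
    refine LinearMap.ext fun v => ?_
    rw [LinearMap.pi_apply_eq_sum_univ f, LinearMap.zero_apply]
    refine Finset.sum_eq_zero fun i _ => ?_
    have h2 := congrFun h1 i
    simp only [Pi.zero_apply] at h2
    have h3 : (fun j => if i = j then (1 : k) else 0) = Pi.single i 1 := by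
      funext j
      simp [Pi.single_apply, eq_comm]
    rw [h3, h2, smul_zero]
  obtain ⟨κ, a, ha, hsp, hli⟩ := exists_linearIndependent' k (fun l : ι => (fun i => Z i l : Fin r → k))
  have hκ : Finite κ := Finite.of_injective a ha
  have : Fintype κ := Fintype.ofFinite κ
  rw [hspan] at hsp
  let B := Module.Basis.mk hli hsp.ge
  have hcard : Fintype.card κ = r := by
    have := Module.finrank_eq_card_basis B
    rw [Module.finrank_fin_fun] at this
    exact this.symm
  let e : Fin r ≃ κ := (Fintype.equivFinOfCardEq hcard).symm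
  refine ⟨fun j => a (e j), ?_⟩
  have h4 : LinearIndependent k (Matrix.of fun i j => Z i (a (e j))).col := by
    exact hli.comp e e.injective
  have h5 := Matrix.linearIndependent_cols_iff_isUnit.1 h4
  exact (Matrix.isUnit_iff_isUnit_det _).1 h5 |>.ne_zero

/-- the determinant with some constant columns -/
theorem det_cols {k : Type} [Field k] {r : ℕ} (Z W : Fin r → Fin r → k) (t : Fin r → Prop)
    [DecidablePred t] (hdet : (Matrix.of Z).det ≠ 0) :
    ∃ j₀ ≤ r,
      (Matrix.of fun i j : Fin r => if t j then C (W i j) + X * C (Z i j) else (C (Z i j) : k[X])).det.coeff j₀ ≠ 0 ∧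
      ∀ j, j₀ < j →
      (Matrix.of fun i j : Fin r => if t j then C (W i j) + X * C (Z i j) else (C (Z i j) : k[X])).det.coeff j
        = 0 := by
  classical
  set D := (Matrix.of fun i j : Fin r => if t j then C (W i j) + X * C (Z i j) else (C (Z i j) : k[X])).det with hD
  set s := (Finset.univ.filter fun j => ¬ t j).card with hs
  have hsr : s ≤ r := by
    calc s ≤ (Finset.univ : Finset (Fin r)).card := Finset.card_le_card (Finset.filter_subset _ _)
      _ = r := by simp
  have h1 : X ^ s * D = Matrix.det ((X : k[X]) • (Matrix.of Z).map C +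
      (Matrix.of fun i j : Fin r => if t j then W i j else 0).map C) := by
    have h2 := Matrix.det_mul_row (fun j => if t j then (1 : k[X]) else X)
      (Matrix.of fun i j : Fin r => if t j then C (W i j) + X * C (Z i j) else (C (Z i j) : k[X]))
    have h3 : ∏ j, (if t j then (1 : k[X]) else X) = X ^ s := by
      rw [Finset.prod_ite, Finset.prod_const_one, one_mul, Finset.prod_const]
    rw [h3] at h2
    rw [hD, ← h2]
    congr 1
    ext1 i j
    simp only [Matrix.of_apply, Matrix.add_apply, Matrix.smul_apply, Matrix.map_apply, smul_eq_mul]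
    split_ifs
    · rw [one_mul]; ring
    · simp
  have hcoef := coeff_det_X_add_C_card (Matrix.of Z)
    (Matrix.of fun i j : Fin r => if t j then W i j else 0)
  have hdeg := natDegree_det_X_add_C_le (Matrix.of Z)
    (Matrix.of fun i j : Fin r => if t j then W i j else 0)
  rw [← h1, Fintype.card_fin] at hcoef hdeg
  refine ⟨r - s, Nat.sub_le _ _, ?_, ?_⟩
  · have h4 : (X ^ s * D).coeff r = D.coeff (r - s) := by
      rw [coeff_X_pow_mul', if_pos hsr]
    rw [← h4, hcoef]
    exact hdet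
  · intro j hj
    have h4 : (X ^ s * D).coeff (j + s) = D.coeff j := coeff_X_pow_mul _ _ _
    rw [← h4]
    exact coeff_eq_zero_of_natDegree_lt (by omega)

end

end Pool.Agent.Helper82.LP
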