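import Mathlib
import Pool.Agent.Helper82.LP.Tame2

set_option autoImplicit false

/-! # The determinants at exceptional points (tame case) -/

namespace Pool.Agent.Helper82.LP

open Polynomial
open Pool.Agent.H33R4 (IsLog PGood)

noncomputable section

variable {p : ℕ} [hp : Fact p.Prime]

/-- division by a monic polynomial and divisibility of the coefficients -/
theorem dvd_div_mod {R : Type} [CommRing R] [Nontrivial R] {ρ S S' Q : R[X]} (hρ : ρ.Monic)
    (hS' : S'.degree < ρ.degree) (a : R) (h : ρ * S + S' = C a * Q) :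
    (∀ l, a ∣ S.coeff l) ∧ ∀ l, a ∣ S'.coeff l := by
  have h1 : (ρ * S + S') /ₘ ρ = S ∧ (ρ * S + S') %ₘ ρ = S' :=
    div_modByMonic_unique _ _ hρ ⟨add_comm _ _, hS'⟩
  have h2 : (C a * Q) /ₘ ρ = C a * (Q /ₘ ρ) ∧ (C a * Q) %ₘ ρ = C a * (Q %ₘ ρ) := by
    refine div_modByMonic_unique _ _ hρ ⟨?_, ?_⟩
    · conv_rhs => rw [← modByMonic_add_div Q ρ]
      ring
    · exact (degree_C_mul_le' _ _).trans_lt (degree_modByMonic_lt _ hρ)
  rw [h] at h1
  constructor
  · intro l
    rw [← h1.1, h2.1, coeff_C_mul]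
    exact dvd_mul_right _ _
  · intro l
    rw [← h1.2, h2.2, coeff_C_mul]
    exact dvd_mul_right _ _

/-- **the determinant at an exceptional point is divisible by a high power of `p`** -/
theorem det_dvd' {r n : ℕ} {F H ρ : ℤ[X]} (hF : F.Monic) (hH : H.degree < F.degree) (hρ : ρ.Monic)
    (P : Fin r → ℤ[X]) (M k : ℕ) (E c : Fin r → ℤ[X][X])
    (hE : ∀ i, ((P i).map C) ^ (M * p ^ (k + 2)) = 1 + (p : ℤ[X][X]) ^ (k + 2 + 1) * E i + FF p F H * c i)
    (S S' : Fin r → ℤ[X][X]) (hS : ∀ i, E i %ₘ FF p F H = ρ.map C * S i + (p : ℤ[X][X]) * S' i)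
    (hS' : ∀ i, (S' i).degree < (ρ.map (C : ℤ →+* ℤ[X])).degree)
    (σ : Fin r → Fin n ⊕ Fin n) (m : ℤ) (w : Fin r → ℤ_[p]) (G : ℤ_[p][X])
    (hG : G = (F + C ((p : ℤ) * m) * H).map (Int.castRingHom ℤ_[p]))
    (tf : ∀ b : AdjoinRoot G, (p : AdjoinRoot G) * b = 0 → b = 0)
    (l : Fin r → AdjoinRoot G)
    (hl : ∀ i, IsLog p ((AdjoinRoot.mk G ((P i).map (Int.castRingHom ℤ_[p]))) ^ M) (l i))
    (hrel : ∑ i, AdjoinRoot.of G (w i) * l i = 0) (i : Fin r) :
    (p : ℤ_[p]) ^ k ∣ w i * (((Matrix.det (Matrix.of fun i j : Fin r =>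
      Sum.elim (fun l : Fin n => (S i).coeff l) (fun l : Fin n => (S' i).coeff l) (σ j))).eval m : ℤ) :
        ℤ_[p]) := by
  classical
  set K := k + 2 with hK
  set Fm : ℤ[X] := F + C ((p : ℤ) * m) * H with hFm
  have hFmm : Fm.Monic := by
    apply Monic.add_of_left hF
    exact lt_of_le_of_lt (degree_C_mul_le' _ _) hH
  have hGm : G.Monic := by rw [hG]; exact hFmm.map _
  set φ : ℤ[X] →+* AdjoinRoot G := (AdjoinRoot.mk G).comp (mapRingHom (Int.castRingHom ℤ_[p])) with hφ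
  have hφa : ∀ Q : ℤ[X], φ Q = AdjoinRoot.mk G (Q.map (Int.castRingHom ℤ_[p])) := fun Q => rfl
  have hφF : φ Fm = 0 := by
    rw [hφa, ← hG, AdjoinRoot.mk_self]
  have hφp : φ (p : ℤ[X]) = (p : AdjoinRoot G) := map_natCast φ p
  -- the powers
  have hEm : ∀ i, (φ (P i)) ^ (M * p ^ K) = 1 + (p : AdjoinRoot G) ^ (K + 1) *
      φ ((E i).map (evalRingHom m)) := by
    intro i
    have h1 := congrArg (Polynomial.map (evalRingHom m)) (hE i)
    simp only [Polynomial.map_pow, Polynomial.map_add, Polynomial.map_mul, Polynomial.map_one,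
      Polynomial.map_natCast, map_C_eval, FF_eval] at h1
    have h2 := congrArg φ h1
    rw [← hFm, map_pow, map_add, map_add, map_mul, map_mul, map_pow, map_one, hφF, zero_mul, add_zero,
      hφp] at h2
    exact h2
  have h2 : ∀ i, (p : AdjoinRoot G) ^ K ∣ (p : AdjoinRoot G) * φ ((E i).map (evalRingHom m)) - l i := by
    intro i
    have h3 := hl i K
    rw [← hφa, ← pow_mul, hEm] at h3
    apply tf_cancel tf K K
    have e1 : (p : AdjoinRoot G) ^ K * ((p : AdjoinRoot G) * φ ((E i).map (evalRingHom m)) - l i) =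
        1 + (p : AdjoinRoot G) ^ (K + 1) * φ ((E i).map (evalRingHom m)) - 1 -
          (p : AdjoinRoot G) ^ K * l i := by ring
    rw [e1, ← two_mul]
    exact h3
  have h4 : (p : AdjoinRoot G) ^ (k + 1) ∣ ∑ i, AdjoinRoot.of G (w i) * φ ((E i).map (evalRingHom m)) := by
    apply tf_cancel tf 1 (k + 1)
    rw [show 1 + (k + 1) = K by omega, pow_one]
    have e1 : (p : AdjoinRoot G) * ∑ i, AdjoinRoot.of G (w i) * φ ((E i).map (evalRingHom m)) =
        ∑ i, AdjoinRoot.of G (w i) * ((p : AdjoinRoot G) * φ ((E i).map (evalRingHom m)) - l i) +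
          ∑ i, AdjoinRoot.of G (w i) * l i := by
      rw [Finset.mul_sum, ← Finset.sum_add_distrib]
      exact Finset.sum_congr rfl fun i _ => by ring
    rw [e1, hrel, add_zero]
    exact Finset.dvd_sum fun i _ => Dvd.dvd.mul_left (h2 i) _
  -- the remainders
  set R : Fin r → ℤ[X] := fun i => (E i).map (evalRingHom m) %ₘ Fm with hR
  have hφR : ∀ i, φ ((E i).map (evalRingHom m)) = φ (R i) := by
    intro i
    have := modByMonic_add_div ((E i).map (evalRingHom m)) Fm
    conv_lhs => rw [← this]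
    rw [map_add, map_mul, hφF, zero_mul, add_zero]
  have hR2 : ∀ i, R i = ρ * (S i).map (evalRingHom m) + C (p : ℤ) * (S' i).map (evalRingHom m) := by
    intro i
    have e1 : R i = (E i %ₘ FF p F H).map (evalRingHom m) := by
      rw [hR]
      simp only
      rw [hFm, ← FF_eval, ← map_modByMonic _ (FF_monic hF hH)]
    rw [e1, hS, Polynomial.map_add, Polynomial.map_mul, Polynomial.map_mul, map_C_eval,
      Polynomial.map_natCast]
    simp
  have h5 : (p : AdjoinRoot G) ^ (k + 1) ∣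
      AdjoinRoot.mk G (∑ i, C (w i) * (R i).map (Int.castRingHom ℤ_[p])) := by
    rw [map_sum]
    simp only [map_mul, AdjoinRoot.mk_C]
    have e1 : ∀ i, AdjoinRoot.mk G ((R i).map (Int.castRingHom ℤ_[p])) = φ ((E i).map (evalRingHom m)) :=
      fun i => by rw [hφR]; rfl
    simp only [e1]
    exact h4
  have hdeg : (∑ i, C (w i) * (R i).map (Int.castRingHom ℤ_[p])).degree < G.degree := by
    refine (degree_sum_le _ _).trans_lt ?_
    rw [Finset.sup_lt_iff (by rw [bot_lt_iff_ne_bot, Ne, degree_eq_bot]; exact hGm.ne_zero)]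
    intro i _
    refine lt_of_le_of_lt (degree_C_mul_le' _ _) ?_
    rw [hG, hFmm.degree_map]
    exact (degree_map_le).trans_lt (degree_modByMonic_lt _ hFmm)
  have e2 : AdjoinRoot.of G ((p : ℤ_[p]) ^ (k + 1)) = (p : AdjoinRoot G) ^ (k + 1) := by
    rw [map_pow, map_natCast]
  have h6 : C ((p : ℤ_[p]) ^ (k + 1)) ∣ ∑ i, C (w i) * (R i).map (Int.castRingHom ℤ_[p]) := by
    rw [C_dvd_iff_dvd_coeff]
    intro l
    exact dvd_coeff hGm hdeg ((p : ℤ_[p]) ^ (k + 1)) (by rw [e2]; exact h5) l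
  obtain ⟨Q, hQ⟩ := h6
  set θ : ℤ →+* ℤ_[p] := Int.castRingHom ℤ_[p] with hθ
  set 𝒮 : ℤ_[p][X] := ∑ i, C (w i) * ((S i).map (evalRingHom m)).map θ with h𝒮
  set 𝒮' : ℤ_[p][X] := ∑ i, C (w i) * ((S' i).map (evalRingHom m)).map θ with h𝒮'
  have h7 : ρ.map θ * 𝒮 + C (p : ℤ_[p]) * 𝒮' = C ((p : ℤ_[p]) ^ (k + 1)) * Q := by
    rw [← hQ, h𝒮, h𝒮', Finset.mul_sum, Finset.mul_sum, ← Finset.sum_add_distrib]
    refine Finset.sum_congr rfl fun i _ => ?_
    rw [hR2, Polynomial.map_add, Polynomial.map_mul, Polynomial.map_mul, Polynomial.map_C]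
    have : θ (p : ℤ) = (p : ℤ_[p]) := by rw [hθ]; simp
    rw [this]
    ring
  have hρm : (ρ.map θ).Monic := hρ.map _
  have h8 : (C (p : ℤ_[p]) * 𝒮').degree < (ρ.map θ).degree := by
    refine (degree_C_mul_le' _ _).trans_lt ?_
    rw [h𝒮']
    refine (degree_sum_le _ _).trans_lt ?_
    rw [Finset.sup_lt_iff (by rw [bot_lt_iff_ne_bot, Ne, degree_eq_bot]; exact hρm.ne_zero)]
    intro i _
    refine (degree_C_mul_le' _ _).trans_lt ?_
    refine (degree_map_le).trans_lt ?_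
    refine (degree_map_le).trans_lt ?_
    rw [hρ.degree_map]
    have := hS' i
    rwa [degree_map_eq_of_injective C_injective] at this
  obtain ⟨h9, h10⟩ := dvd_div_mod hρm h8 _ h7
  have hp0 : (p : ℤ_[p]) ≠ 0 := by exact_mod_cast hp.out.ne_zero
  have h11 : ∀ l, (p : ℤ_[p]) ^ k ∣ 𝒮.coeff l := fun l => (pow_dvd_pow _ (Nat.le_succ k)).trans (h9 l)
  have h12 : ∀ l, (p : ℤ_[p]) ^ k ∣ 𝒮'.coeff l := by
    intro l
    have := h10 l
    rw [coeff_C_mul, pow_succ', mul_dvd_mul_iff_left hp0] at this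
    exact this
  -- the matrix
  set 𝒜 : Matrix (Fin r) (Fin r) ℤ_[p] := Matrix.of fun i j =>
    Sum.elim (fun l : Fin n => θ (((S i).coeff l).eval m)) (fun l : Fin n => θ (((S' i).coeff l).eval m)) (σ j)
    with h𝒜
  have hdet : (((Matrix.det (Matrix.of fun i j : Fin r =>
      Sum.elim (fun l : Fin n => (S i).coeff l) (fun l : Fin n => (S' i).coeff l) (σ j))).eval m : ℤ) :
        ℤ_[p]) = 𝒜.det := by
    rw [← eq_intCast θ, ← coe_evalRingHom, RingHom.map_det, RingHom.map_det, h𝒜]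
    congr 1
    ext1 i j
    simp only [RingHom.mapMatrix_apply, Matrix.map_apply, Matrix.of_apply, coe_evalRingHom]
    rcases σ j with l | l <;> rfl
  have h13 : ∀ j, (p : ℤ_[p]) ^ k ∣ (Matrix.vecMul w 𝒜) j := by
    intro j
    simp only [Matrix.vecMul, dotProduct, h𝒜, Matrix.of_apply]
    rcases σ j with l | l
    · have := h11 l
      rw [h𝒮, finsetSum_coeff] at this
      simp only [coeff_C_mul, coeff_map, coe_evalRingHom] at this
      exact this
    · have := h12 l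
      rw [h𝒮', finsetSum_coeff] at this
      simp only [coeff_C_mul, coeff_map, coe_evalRingHom] at this
      exact this
  have h14 : Matrix.vecMul (Matrix.vecMul w 𝒜) 𝒜.adjugate = 𝒜.det • w := by
    rw [Matrix.vecMul_vecMul, Matrix.mul_adjugate, Matrix.vecMul_smul, Matrix.vecMul_one]
  have h15 := congrFun h14 i
  rw [hdet, mul_comm, ← smul_eq_mul, ← Pi.smul_apply, ← h15]
  simp only [Matrix.vecMul, dotProduct]
  exact Finset.dvd_sum fun j _ => Dvd.dvd.mul_right (h13 j) _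

end

end Pool.Agent.Helper82.LP
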