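import Mathlib
import Pool.Agent.Helper82.LP.Tame3

set_option autoImplicit false

/-! # At most `r` exceptional members in each class modulo `p` -/

namespace Pool.Agent.Helper82.LP

open Polynomial
open Pool.Agent.H33R4 (IsLog PGood)

noncomputable section

variable {p : ℕ} [hp : Fact p.Prime]

theorem map_C_inj' {Q : (ZMod p)[X]} {l : ℕ} : (Q.map (C : ZMod p →+* (ZMod p)[X])).coeff l = C (Q.coeff l) :=
  coeff_map _ _

/-- **the determinants of a class** -/
theorem class_det {r : ℕ} {F H : ℤ[X]} (hF : F.Monic) (hH : H.degree < F.degree)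
    (hp5 : 5 ≤ p) (hn : 3 * F.natDegree ≤ p) (P : Fin r → ℤ[X]) (hPm : ∀ i, (P i).Monic)
    (hPd : ∀ i, 0 < (P i).natDegree)
    (hQ : ((∏ i, P i).map (Int.castRingHom (ZMod p))).Separable)
    (hd : (∏ i, P i).natDegree < F.natDegree)
    (hHc : IsCoprime (H.map (Int.castRingHom (ZMod p))) (F.map (Int.castRingHom (ZMod p))))
    (hPc : ∀ i, IsCoprime ((P i).map (Int.castRingHom (ZMod p))) (F.map (Int.castRingHom (ZMod p)))) :
    ∃ M : ℕ, 0 < M ∧ (∀ i, F.map (Int.castRingHom (ZMod p)) ∣ ((P i).map (Int.castRingHom (ZMod p))) ^ M - 1) ∧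
      ∀ k : ℕ, ∃ (D : ℤ[X]) (j₀ : ℕ), j₀ ≤ r ∧ ¬ (p : ℤ) ∣ D.coeff j₀ ∧
      (∀ j, j₀ < j → (p : ℤ) ∣ D.coeff j) ∧
      ∀ (m : ℤ) (w : Fin r → ℤ_[p]) (G : ℤ_[p][X]),
        G = (F + C ((p : ℤ) * m) * H).map (Int.castRingHom ℤ_[p]) →
        (∀ b : AdjoinRoot G, (p : AdjoinRoot G) * b = 0 → b = 0) →
        ∀ l : Fin r → AdjoinRoot G,
        (∀ i, IsLog p ((AdjoinRoot.mk G ((P i).map (Int.castRingHom ℤ_[p]))) ^ M) (l i)) →
        ∑ i, AdjoinRoot.of G (w i) * l i = 0 → ∀ i, (p : ℤ_[p]) ^ k ∣ w i * ((D.eval m : ℤ) : ℤ_[p]) := by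
  classical
  set φ := Int.castRingHom (ZMod p) with hφ
  obtain ⟨ρ, hρ, hρF, hρF', M, hM, hpM, hform⟩ := exists_form (p := p) hF hn
  choose V A A' hV hρV using fun i => hform (P i) (hPc i)
  refine ⟨p * M, Nat.mul_pos hp.out.pos hM, ?_, ?_⟩
  · intro i
    have := congrArg (Polynomial.map φ) (hV i)
    rw [Polynomial.map_pow] at this
    rw [this, Polynomial.map_add, Polynomial.map_add, Polynomial.map_add, map_p, Polynomial.map_mul,
      mul_assoc, map_p, Polynomial.map_pow, Polynomial.map_one]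
    refine ⟨F.map φ ^ 2 * (A i).map φ, ?_⟩
    ring
  intro k
  choose T b c hT hpow using fun i => pow_fam (p := p) (H := H) hp5 M (k + 2) (hV i)
  choose z hz hzd using fun i => E_mod (p := p) hF hH (T i) (b i)
  have hρFm : (ρ.map φ).Monic := hρ.map _
  have hFm : (F.map φ).Monic := hF.map _
  -- the part of the remainders divisible by `p`
  have hW : ∀ i, ∃ W : ℤ[X], (T i %ₘ F) %ₘ ρ = (p : ℤ[X]) * W := by
    intro i
    apply map_eq_zero_dvd
    rw [map_modByMonic _ hρ, map_modByMonic _ hF, hT, modByMonic_eq_zero_iff_dvd hρFm]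
    have h1 := modByMonic_add_div ((V i).map φ) (F.map φ)
    have h2 : (V i).map φ %ₘ F.map φ = (V i).map φ - F.map φ * ((V i).map φ /ₘ F.map φ) := by
      rw [eq_sub_iff_add_eq]; exact h1
    rw [h2]
    exact dvd_sub (hρV i) (Dvd.dvd.mul_right hρF _)
  choose W hW using hW
  have hp0 : (p : ℤ[X]) ≠ 0 := by exact_mod_cast hp.out.ne_zero
  have hpC : (p : ℤ[X]) = C (p : ℤ) := by simp
  have hpi : (p : ℤ) ≠ 0 := by exact_mod_cast hp.out.ne_zero
  have hWd : ∀ i, (W i).degree < ρ.degree := by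
    intro i
    have h1 : ((T i %ₘ F) %ₘ ρ).degree < ρ.degree := degree_modByMonic_lt _ hρ
    rw [hW, hpC, degree_C_mul hpi] at h1
    exact h1
  set ρC := ρ.map (C : ℤ →+* ℤ[X]) with hρC
  have hρCm : ρC.Monic := hρ.map _
  set S : Fin r → ℤ[X][X] := fun i => ((T i).map C + (p : ℤ[X][X]) ^ 2 * b i) %ₘ FF p F H /ₘ ρC with hS
  set S' : Fin r → ℤ[X][X] := fun i => (W i).map C - C X * (((H * (T i /ₘ F)) %ₘ F) %ₘ ρ).map C +
    (p : ℤ[X][X]) * (z i %ₘ ρC) with hS'
  have hρCd : ρC.degree = ρ.degree := by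
    rw [hρC, degree_map_eq_of_injective C_injective]
  have hS'd : ∀ i, (S' i).degree < ρC.degree := by
    intro i
    rw [hS']
    simp only
    refine (degree_add_le _ _).trans_lt (max_lt ((degree_sub_le _ _).trans_lt (max_lt ?_ ?_)) ?_)
    · rw [degree_map_eq_of_injective C_injective, hρCd]
      exact hWd i
    · refine (degree_C_mul_le' _ _).trans_lt ?_
      rw [degree_map_eq_of_injective C_injective, hρCd]
      exact degree_modByMonic_lt _ hρ
    · have : (p : ℤ[X][X]) = C (p : ℤ[X]) := by simp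
      rw [this]
      exact (degree_C_mul_le' _ _).trans_lt (degree_modByMonic_lt _ hρCm)
  have hSS' : ∀ i, ((T i).map C + (p : ℤ[X][X]) ^ 2 * b i) %ₘ FF p F H = ρC * S i + (p : ℤ[X][X]) * S' i := by
    intro i
    have h1 : (((T i).map C + (p : ℤ[X][X]) ^ 2 * b i) %ₘ FF p F H) %ₘ ρC = (p : ℤ[X][X]) * S' i := by
      rw [hz]
      have e1 : (T i %ₘ F).map (C : ℤ →+* ℤ[X]) - (p : ℤ[X][X]) * (C X * ((H * (T i /ₘ F)) %ₘ F).map C) +
          (p : ℤ[X][X]) ^ 2 * z i = (T i %ₘ F).map C - ((p : ℤ[X]) * X) • ((H * (T i /ₘ F)) %ₘ F).map C +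
          ((p : ℤ[X]) ^ 2) • z i := by
        rw [smul_eq_C_mul, smul_eq_C_mul, C_mul, C_pow]
        simp only [map_natCast]
        ring
      rw [e1, add_modByMonic, sub_modByMonic, smul_modByMonic, smul_modByMonic, hρC,
        ← map_modByMonic _ hρ, ← map_modByMonic _ hρ, hW, hS']
      simp only
      rw [smul_eq_C_mul, smul_eq_C_mul, C_mul, C_pow]
      simp only [map_natCast, Polynomial.map_mul, Polynomial.map_natCast]
      ring
    rw [← h1, hS]
    simp only
    conv_lhs => rw [← modByMonic_add_div (((T i).map C + (p : ℤ[X][X]) ^ 2 * b i) %ₘ FF p F H) ρC]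
    ring
  -- the reductions
  have hmapC : ∀ Q : ℤ[X], (Q.map (C : ℤ →+* ℤ[X])).map (mapRingHom φ) = (Q.map φ).map C := by
    intro Q
    rw [Polynomial.map_map, Polynomial.map_map]
    congr 1
    ext a; simp
  have hpz : ∀ Q : ℤ[X][X], ((p : ℤ[X][X]) * Q).map (mapRingHom φ) = 0 := by
    intro Q
    rw [Polynomial.map_mul, Polynomial.map_natCast]
    have : ((p : ℕ) : (ZMod p)[X][X]) = 0 := by
      rw [← map_natCast (C : (ZMod p)[X] →+* (ZMod p)[X][X]), ← map_natCast (C : ZMod p →+* (ZMod p)[X])]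
      simp
    rw [this, zero_mul]
  have hSr : ∀ i, (S i).map (mapRingHom φ) = (((V i).map φ %ₘ F.map φ) /ₘ ρ.map φ).map C := by
    intro i
    rw [hS]
    simp only
    rw [map_divByMonic _ hρCm, hz, Polynomial.map_add, Polynomial.map_sub, hpz, sub_zero, pow_two, mul_assoc,
      hpz, add_zero, hmapC, hρC, hmapC, ← map_divByMonic _ hρFm, map_modByMonic _ hF, hT]
  have hS'r : ∀ i, (S' i).map (mapRingHom φ) = ((W i).map φ).map C -
      C X * (((H.map φ * ((V i).map φ /ₘ F.map φ)) %ₘ F.map φ) %ₘ ρ.map φ).map C := by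
    intro i
    rw [hS']
    simp only
    rw [Polynomial.map_add, hpz, add_zero, Polynomial.map_sub, Polynomial.map_mul, hmapC, hmapC,
      map_modByMonic _ hρ, map_modByMonic _ hF, Polynomial.map_mul, map_divByMonic _ hF, hT,
      Polynomial.map_C]
    simp only [coe_mapRingHom, Polynomial.map_X]
    rfl
  -- the columns
  set n := F.natDegree with hnd
  set Z : Fin r → Fin n ⊕ Fin n → ZMod p := fun i => Sum.elim
    (fun l : Fin n => (((V i).map φ %ₘ F.map φ) /ₘ ρ.map φ).coeff l)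
    (fun l : Fin n => -((((H.map φ * ((V i).map φ /ₘ F.map φ)) %ₘ F.map φ) %ₘ ρ.map φ).coeff l)) with hZ
  have hρF0 : ρ.map φ ≠ 0 := hρFm.ne_zero
  have hρn : (ρ.map φ).natDegree ≤ n := by
    have h1 := natDegree_le_of_dvd hρF hFm.ne_zero
    rwa [hF.natDegree_map] at h1
  have hdF : (F.map φ).degree = n := by
    rw [degree_eq_natDegree hFm.ne_zero, hF.natDegree_map]
  obtain ⟨σ, hσ⟩ := exists_cols Z (by
    intro c hc
    refine form_indep hF hρF' hM hpM P V A A' hV hPm hPd hQ hd c ?_ ?_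
    · -- first condition
      have h1 : ∑ i, C (c i) * (((V i).map φ %ₘ F.map φ) /ₘ ρ.map φ) = 0 := by
        ext l
        rw [finsetSum_coeff, coeff_zero]
        simp only [coeff_C_mul]
        by_cases hl : l < n
        · exact hc (Sum.inl ⟨l, hl⟩)
        · refine Finset.sum_eq_zero fun i _ => ?_
          rw [coeff_eq_zero_of_degree_lt, mul_zero]
          refine (degree_divByMonic_le _ _).trans_lt ((degree_modByMonic_lt _ hFm).trans_le ?_)
          rw [hdF]
          exact_mod_cast not_lt.1 hl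
      have h2 : ∀ i, (V i).map φ %ₘ F.map φ = ρ.map φ * (((V i).map φ %ₘ F.map φ) /ₘ ρ.map φ) := by
        intro i
        have e1 := modByMonic_add_div ((V i).map φ) (F.map φ)
        have e2 : (V i).map φ %ₘ F.map φ = (V i).map φ - F.map φ * ((V i).map φ /ₘ F.map φ) := by
          rw [eq_sub_iff_add_eq]; exact e1
        have e3 : ρ.map φ ∣ (V i).map φ %ₘ F.map φ := by
          rw [e2]
          exact dvd_sub (hρV i) (Dvd.dvd.mul_right hρF _)
        have e4 := modByMonic_add_div ((V i).map φ %ₘ F.map φ) (ρ.map φ)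
        rw [(modByMonic_eq_zero_iff_dvd hρFm).2 e3, zero_add] at e4
        exact e4.symm
      calc ∑ i, C (c i) * ((V i).map φ %ₘ F.map φ)
          = ρ.map φ * ∑ i, C (c i) * (((V i).map φ %ₘ F.map φ) /ₘ ρ.map φ) := by
            rw [Finset.mul_sum]
            refine Finset.sum_congr rfl fun i _ => ?_
            conv_lhs => rw [h2 i]
            ring
        _ = 0 := by rw [h1, mul_zero]
    · -- second condition
      have h1 : ∑ i, C (c i) * (((H.map φ * ((V i).map φ /ₘ F.map φ)) %ₘ F.map φ) %ₘ ρ.map φ) = 0 := by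
        ext l
        rw [finsetSum_coeff, coeff_zero]
        simp only [coeff_C_mul]
        by_cases hl : l < n
        · have := hc (Sum.inr ⟨l, hl⟩)
          simp only [hZ, Sum.elim_inr, mul_neg, Finset.sum_neg_distrib, neg_eq_zero] at this
          exact this
        · refine Finset.sum_eq_zero fun i _ => ?_
          rw [coeff_eq_zero_of_degree_lt, mul_zero]
          refine (degree_modByMonic_lt _ hρFm).trans_le ?_
          rw [degree_eq_natDegree hρF0]
          exact_mod_cast hρn.trans (not_lt.1 hl)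
      have h2 : ρ.map φ ∣ H.map φ * ∑ i, C (c i) * ((V i).map φ /ₘ F.map φ) := by
        have e1 : ∀ i, ρ.map φ ∣ H.map φ * (C (c i) * ((V i).map φ /ₘ F.map φ)) -
            C (c i) * (((H.map φ * ((V i).map φ /ₘ F.map φ)) %ₘ F.map φ) %ₘ ρ.map φ) := by
          intro i
          set Y := H.map φ * ((V i).map φ /ₘ F.map φ) with hY
          have e2 := modByMonic_add_div Y (F.map φ)
          have e3 := modByMonic_add_div (Y %ₘ F.map φ) (ρ.map φ)
          obtain ⟨y, hy⟩ := hρF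
          refine ⟨C (c i) * (y * (Y /ₘ F.map φ) + (Y %ₘ F.map φ) /ₘ ρ.map φ), ?_⟩
          have e4 : H.map φ * (C (c i) * ((V i).map φ /ₘ F.map φ)) = C (c i) * Y := by rw [hY]; ring
          rw [e4]
          linear_combination (-(C (c i))) * e2 - C (c i) * e3 + C (c i) * (Y /ₘ F.map φ) * hy
        have e5 := Finset.dvd_sum fun i (_ : i ∈ Finset.univ) => e1 i
        rw [Finset.sum_sub_distrib, h1, sub_zero, ← Finset.mul_sum] at e5
        exact e5
      have h3 : IsCoprime (ρ.map φ) (H.map φ) := (hHc.of_isCoprime_of_dvd_right hρF).symm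
      exact h3.dvd_of_dvd_mul_left h2)
  -- the determinant
  set D : ℤ[X] := Matrix.det (Matrix.of fun i j : Fin r =>
      Sum.elim (fun l : Fin n => (S i).coeff l) (fun l : Fin n => (S' i).coeff l) (σ j)) with hD
  set Wm : Fin r → Fin r → ZMod p := fun i j => Sum.elim (fun _ : Fin n => 0)
    (fun l : Fin n => ((W i).map φ).coeff l) (σ j) with hWm
  have hDm : D.map φ = (Matrix.of fun i j : Fin r => if (σ j).isRight = true then
      C (Wm i j) + X * C (Z i (σ j)) else (C (Z i (σ j)) : (ZMod p)[X])).det := by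
    rw [hD, ← coe_mapRingHom, RingHom.map_det]
    congr 1
    ext1 i j
    simp only [RingHom.mapMatrix_apply, Matrix.map_apply, Matrix.of_apply, hWm, hZ]
    rcases σ j with l | l
    · simp only [Sum.elim_inl, Sum.isRight_inl]
      rw [← coeff_map, hSr, coeff_map]
      simp
    · simp only [Sum.elim_inr, Sum.isRight_inr]
      rw [← coeff_map, hS'r, coeff_sub, coeff_C_mul]
      simp only [coeff_map, if_true, map_neg]
      ring
  obtain ⟨j₀, hj₀, hc1, hc2⟩ := det_cols (fun i j => Z i (σ j)) Wm (fun j => (σ j).isRight = true) hσ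
  rw [← hDm] at hc1 hc2
  have hdv : ∀ a : ℤ, (p : ℤ) ∣ a ↔ φ a = 0 := fun a => (ZMod.intCast_zmod_eq_zero_iff_dvd a p).symm
  refine ⟨D, j₀, hj₀, ?_, ?_, ?_⟩
  · rw [hdv, ← coeff_map]
    exact hc1
  · intro j hj
    rw [hdv, ← coeff_map]
    exact hc2 j hj
  · intro m w G hG tf l hl hrel i
    exact det_dvd' hF hH hρ P (p * M) k (fun i => (T i).map C + (p : ℤ[X][X]) ^ 2 * b i) c
      hpow S S' hSS' hS'd σ m w G hG tf l hl hrel i

theorem val_cancel (y : ℤ_[p]) (hy : y ≠ 0) : ∃ ν : ℕ, ∀ (k : ℕ) (x : ℤ),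
    ((p : ℤ_[p]) ^ (k + ν) ∣ y * (x : ℤ_[p])) → (p : ℤ) ^ k ∣ x := by
  obtain ⟨u, ν, h1⟩ : ∃ (u : ℤ_[p]ˣ) (ν : ℕ), y = u * (p : ℤ_[p]) ^ ν :=
    ⟨_, _, PadicInt.unitCoeff_spec hy⟩
  refine ⟨ν, fun k x hx => ?_⟩
  have h2 : (p : ℤ_[p]) ^ (k + ν) ∣ (p : ℤ_[p]) ^ ν * (x : ℤ_[p]) := by
    have e1 : y * (x : ℤ_[p]) = (p : ℤ_[p]) ^ ν * (x : ℤ_[p]) * (u : ℤ_[p]) := by
      rw [h1]; ring
    rw [e1] at hx
    exact (Units.dvd_mul_right).1 hx
  rw [pow_add, mul_comm, mul_dvd_mul_iff_left (pow_ne_zero _ (by exact_mod_cast hp.out.ne_zero))] at h2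
  have h4 := (PadicInt.norm_int_le_pow_iff_dvd (p := p) (k := x) (n := k)).1 (by
    rw [PadicInt.norm_le_pow_iff_mem_span_pow, Ideal.mem_span_singleton]
    exact h2)
  exact_mod_cast h4

/-- **few exceptional points** -/
theorem few {r : ℕ} (D : ℕ → ℤ[X]) (j₀ : ℕ → ℕ) (hj : ∀ k, j₀ k ≤ r)
    (hD : ∀ k, ¬ (p : ℤ) ∣ (D k).coeff (j₀ k)) (hD' : ∀ k j, j₀ k < j → (p : ℤ) ∣ (D k).coeff j)
    (m : Fin (r + 1) → ℤ) (hm : Function.Injective m) (w : Fin (r + 1) → Fin r → ℤ_[p])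
    (hw : ∀ a, w a ≠ 0) (h : ∀ a k i, (p : ℤ_[p]) ^ k ∣ w a i * (((D k).eval (m a) : ℤ) : ℤ_[p])) :
    False := by
  classical
  have hpp := hp.out
  choose i hi using fun a => Function.ne_iff.1 (hw a)
  -- the valuations
  have hν : ∀ a, ∃ ν : ℕ, ∀ (k : ℕ) (x : ℤ), ((p : ℤ_[p]) ^ (k + ν) ∣ w a (i a) * (x : ℤ_[p])) → (p : ℤ) ^ k ∣ x :=
    fun a => val_cancel _ (hi a)
  choose ν hν using hν
  -- the distances
  obtain ⟨d, hd⟩ : ∃ d : ℕ, ∀ a b, a ≠ b → ¬ (p : ℤ) ^ d ∣ m a - m b := by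
    refine ⟨∑ a, ∑ b, (m a - m b).natAbs, fun a b hab hdv => ?_⟩
    have h1 : m a - m b ≠ 0 := sub_ne_zero.2 fun h => hab (hm h)
    have h2 := Int.le_of_dvd (abs_pos.2 h1) ((dvd_abs _ _).2 hdv)
    have h3 : (m a - m b).natAbs ≤ ∑ a, ∑ b, (m a - m b).natAbs :=
      (Finset.single_le_sum (f := fun b => (m a - m b).natAbs) (fun _ _ => Nat.zero_le _)
        (Finset.mem_univ b)).trans (Finset.single_le_sum (f := fun a => ∑ b, (m a - m b).natAbs)
          (fun _ _ => Nat.zero_le _) (Finset.mem_univ a))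
    have h4 := Nat.lt_pow_self hpp.one_lt (n := ∑ a, ∑ b, (m a - m b).natAbs)
    have h5 : ((m a - m b).natAbs : ℤ) < (p : ℤ) ^ (∑ a, ∑ b, (m a - m b).natAbs) := by
      exact_mod_cast lt_of_le_of_lt h3 h4
    rw [Int.natCast_natAbs] at h5
    omega
  -- the choice of `k`
  set N := ∑ a, ν a with hN
  set k := r * d + 1 + N with hk
  have hνN : ∀ a, ν a ≤ N := fun a => Finset.single_le_sum (f := ν) (fun _ _ => Nat.zero_le _) (Finset.mem_univ a)
  have hj₀ : j₀ k + 1 ≤ r + 1 := by have := hj k; omega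
  have h1 := strass hpp d (j₀ k) (D k) (hD k) (hD' k) (fun a => m (Fin.castLE hj₀ a)) (r * d + 1)
    (fun a b hab => hd _ _ fun h => hab (Fin.castLE_injective _ h)) (fun a => by
      apply hν (Fin.castLE hj₀ a)
      refine (pow_dvd_pow _ ?_).trans (h (Fin.castLE hj₀ a) k (i _))
      have := hνN (Fin.castLE hj₀ a)
      omega)
  have h2 : j₀ k * d ≤ r * d := Nat.mul_le_mul_right _ (hj k)
  omega

end

end Pool.Agent.Helper82.LP
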