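import Mathlib
import Pool.Agent.Helper82.LP.Tame4
import Pool.Agent.Helper82.LP.Count
import Pool.Agent.H33R4.Fin2
import Pool.Agent.H33R4.LOGEX
import Pool.Agent.H33R4.GOOD1
import Pool.Agent.H33R4.GOOD2

set_option autoImplicit false

/-! # Fields with a failure of Leopoldt's conjecture in a one parameter family -/

namespace Pool.Agent.Helper82.LP

open Polynomial NumberField
open Pool.Agent.H33R4 (IsLog PGood partB' logB_proof logEx_proof good1_proof good2_proof)
open Pool.Agent.H637R2.Leo (Leopoldt)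

noncomputable section

/-- some field generated by a root of `g`, of degree `deg g` and of unit rank `r`, violates Leopoldt's conjecture
at `p` -/
def Fails (p : ℕ) [Fact p.Prime] (r : ℕ) (g : ℤ[X]) : Prop :=
  ∃ (K : Type) (_ : Field K) (_ : NumberField K) (θ : K), aeval θ g = 0 ∧
    Module.finrank ℚ K = g.natDegree ∧ IntermediateField.adjoin ℚ {θ} = ⊤ ∧ Units.rank K = r ∧
    ¬ Leopoldt K p

/-- the polynomial `(B + t) ∏ P_i - 1` -/
def fam {r : ℕ} (B : ℤ[X]) (P : Fin r → ℤ[X]) (t : ℤ) : ℤ[X] := (B + C t) * ∏ i, P i - 1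

section

variable {r : ℕ} {B : ℤ[X]} {P : Fin r → ℤ[X]}

theorem BC_monic (hB : B.Monic) (hB0 : 0 < B.natDegree) (t : ℤ) : (B + C t).Monic := by
  apply hB.add_of_left
  refine degree_C_le.trans_lt ?_
  rw [degree_eq_natDegree hB.ne_zero]
  exact_mod_cast hB0

theorem fam_monic (hB : B.Monic) (hB0 : 0 < B.natDegree) (hP : ∀ i, (P i).Monic) (t : ℤ) :
    (fam B P t).Monic ∧ (fam B P t).natDegree = B.natDegree + (∏ i, P i).natDegree := by
  have hH : (∏ i, P i).Monic := monic_prod_of_monic _ _ fun i _ => hP i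
  have h1 := BC_monic hB hB0 t
  have h2 : ((B + C t) * ∏ i, P i).Monic := h1.mul hH
  have h3 : ((B + C t) * ∏ i, P i).natDegree = B.natDegree + (∏ i, P i).natDegree := by
    rw [h1.natDegree_mul hH, natDegree_add_C]
  have h4 : (1 : ℤ[X]).degree < ((B + C t) * ∏ i, P i).degree := by
    rw [degree_one, degree_eq_natDegree h2.ne_zero, h3]
    exact_mod_cast (by omega : 0 < B.natDegree + (∏ i, P i).natDegree)
  constructor
  · exact h2.sub_of_left h4
  · unfold fam
    rw [natDegree_sub_eq_left_of_natDegree_lt]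
    · exact h3
    · rw [natDegree_one, h3]
      omega

theorem fam_line (t₁ m : ℤ) (p : ℕ) : fam B P (t₁ + p * m) = fam B P t₁ + C ((p : ℤ) * m) * ∏ i, P i := by
  unfold fam
  rw [C_add]
  ring

variable {p : ℕ} [hp : Fact p.Prime]

/-- **at most `r` members of each class modulo `p` violate Leopoldt's conjecture at `p`** -/
theorem class_few (hB : B.Monic) (hB0 : 0 < B.natDegree) (hP : ∀ i, (P i).Monic)
    (hP0 : ∀ i, 0 < (P i).natDegree) (hp5 : 5 ≤ p) (hn : 3 * (B.natDegree + (∏ i, P i).natDegree) ≤ p)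
    (hQ : ((∏ i, P i).map (Int.castRingHom (ZMod p))).Separable) (t₁ : ℤ) (m : Fin (r + 1) → ℤ)
    (hm : Function.Injective m) (hbad : ∀ a, Fails p r (fam B P (t₁ + p * m a))) : False := by
  classical
  have hpp := hp.out
  set φ := Int.castRingHom (ZMod p) with hφ
  set H := ∏ i, P i with hH
  set F := fam B P t₁ with hFd
  obtain ⟨hF, hFn⟩ := fam_monic hB hB0 hP t₁
  rw [← hFd, ← hH] at hFn
  rw [← hFd] at hF
  have hHm : H.Monic := monic_prod_of_monic _ _ fun i _ => hP i
  have hHF : H.degree < F.degree := by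
    rw [degree_eq_natDegree hHm.ne_zero, degree_eq_natDegree hF.ne_zero, hFn]
    exact_mod_cast (by omega : H.natDegree < B.natDegree + H.natDegree)
  have hcop : IsCoprime (H.map φ) (F.map φ) := by
    refine ⟨(B + C t₁).map φ, -1, ?_⟩
    rw [hFd]
    unfold fam
    rw [← hH, Polynomial.map_sub, Polynomial.map_mul, Polynomial.map_one]
    ring
  have hPcop : ∀ i, IsCoprime ((P i).map φ) (F.map φ) := by
    intro i
    have h1 : (P i).map φ ∣ H.map φ := Polynomial.map_dvd _ (Finset.dvd_prod_of_mem _ (Finset.mem_univ i))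
    exact hcop.of_isCoprime_of_dvd_left h1
  obtain ⟨M, hM, hMF, hD⟩ := class_det hF hHF hp5 (by rw [hFn]; exact hn) P hP hP0 hQ
    (by rw [← hH, hFn]; omega) hcop hPcop
  choose D j₀ hj₀ hD1 hD2 hD3 using hD
  -- the relations
  have hrel : ∀ a, ∃ w : Fin r → ℤ_[p], w ≠ 0 ∧ ∀ k i, (p : ℤ_[p]) ^ k ∣ w i * (((D k).eval (m a) : ℤ) : ℤ_[p]) := by
    intro a
    obtain ⟨K, _, _, θ, hθ, hKn, hgen, hKr, hL⟩ := hbad a
    set g := fam B P (t₁ + p * m a) with hg
    obtain ⟨hgm, hgn⟩ := fam_monic hB hB0 hP (t₁ + p * m a)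
    rw [← hg] at hgm hgn
    have hgF : g = F + C ((p : ℤ) * m a) * H := fam_line t₁ (m a) p
    set G : ℤ_[p][X] := (F + C ((p : ℤ) * m a) * H).map (Int.castRingHom ℤ_[p]) with hG
    have hGm : G.Monic := by
      rw [hG, ← hgF]
      exact hgm.map _
    have hgood : PGood p (AdjoinRoot G) := good2_proof p ℤ_[p] G hGm (good1_proof.1 p)
    have hdv : ∀ i, (p : AdjoinRoot G) ∣ (AdjoinRoot.mk G ((P i).map (Int.castRingHom ℤ_[p]))) ^ M - 1 := by
      intro i
      obtain ⟨y, y', hy⟩ := dvd_lift (p := p) (A := F) (B := P i ^ M - 1) (by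
        rw [Polynomial.map_sub, Polynomial.map_pow, Polynomial.map_one]; exact hMF i)
      have h1 : P i ^ M - 1 = (F + C ((p : ℤ) * m a) * H) * y + (p : ℤ[X]) * (y' - C (m a) * H * y) := by
        rw [hy, C_mul]
        have : (C (p : ℤ) : ℤ[X]) = (p : ℤ[X]) := by simp
        rw [this]
        ring
      have h2 := congrArg (fun Q => AdjoinRoot.mk G (Q.map (Int.castRingHom ℤ_[p]))) h1
      simp only [Polynomial.map_sub, Polynomial.map_pow, Polynomial.map_one, map_sub, map_pow, map_one] at h2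
      rw [h2, Polynomial.map_add, Polynomial.map_mul, ← hG, map_add, map_mul, AdjoinRoot.mk_self, zero_mul,
        zero_add, Polynomial.map_mul, Polynomial.map_natCast, map_mul, map_natCast]
      exact dvd_mul_right _ _
    choose l hl using fun i => logEx_proof p hpp _ hgood _ (hdv i)
    obtain ⟨w, hw0, hw⟩ := partB' (Pool.Agent.H33R4.partB_of logB_proof good1_proof good2_proof) p g hgm r P
      (fun i => (B + C (t₁ + p * m a)) * ∏ l ∈ Finset.univ.erase i, P l) (fun i => by
        refine ⟨1, ?_⟩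
        rw [hg]
        unfold fam
        rw [← Finset.mul_prod_erase _ _ (Finset.mem_univ i)]
        ring) K θ hθ hKn hgen hKr hL M hM G (by rw [hG, hgF]) l hl
    exact ⟨w, hw0, fun k i => hD3 k (m a) w G hG hgood.tf l hl hw i⟩
  choose w hw hwD using hrel
  exact few D j₀ hj₀ hD1 hD2 m hm w hw hwD

/-- **at most `r p` integers `t`** -/
theorem fails_encard (hB : B.Monic) (hB0 : 0 < B.natDegree) (hP : ∀ i, (P i).Monic)
    (hP0 : ∀ i, 0 < (P i).natDegree) (hp5 : 5 ≤ p) (hn : 3 * (B.natDegree + (∏ i, P i).natDegree) ≤ p)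
    (hQ : ((∏ i, P i).map (Int.castRingHom (ZMod p))).Separable) :
    {t : ℤ | Fails p r (fam B P t)}.encard ≤ r * p :=
  encard_le_of_classes p r hp.out.pos _ fun t₁ m hm h => class_few hB hB0 hP hP0 hp5 hn hQ t₁ m hm h

end

end

end Pool.Agent.Helper82.LP
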