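import Mathlib
import Pool.Agent.Helper82.LP.Fields

set_option autoImplicit false

/-! # Reduction of separable polynomials, sums of primes -/

namespace Pool.Agent.Helper82.LP

open Polynomial

theorem exists_clear (u : ℚ[X]) : ∃ (d : ℕ) (U : ℤ[X]), 0 < d ∧ U.map (Int.castRingHom ℚ) = C (d : ℚ) * u := by
  obtain ⟨b, hb⟩ := IsLocalization.integerNormalization_map_to_map (nonZeroDivisors ℤ) u
  have hb0 : (b : ℤ) ≠ 0 := nonZeroDivisors.ne_zero b.2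
  refine ⟨(b : ℤ).natAbs, C ((b : ℤ).sign) * IsLocalization.integerNormalization (nonZeroDivisors ℤ) u,
    Int.natAbs_pos.2 hb0, ?_⟩
  have h1 : (IsLocalization.integerNormalization (nonZeroDivisors ℤ) u).map (Int.castRingHom ℚ) =
      C ((b : ℤ) : ℚ) * u := by
    have : (Int.castRingHom ℚ) = algebraMap ℤ ℚ := rfl
    rw [this, hb]
    rw [← smul_eq_C_mul]
    show ((b : ℤ) • u) = _
    rw [Int.cast_smul_eq_zsmul]
  rw [Polynomial.map_mul, h1, Polynomial.map_C, ← mul_assoc, ← C_mul]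
  congr 2
  have h2 := Int.sign_mul_self_eq_natAbs (b : ℤ)
  have h3 : ((((b : ℤ).sign * (b : ℤ) : ℤ)) : ℚ) = (((b : ℤ).natAbs : ℤ) : ℚ) := by rw [h2]
  push_cast at h3 ⊢
  simpa using h3

/-- a separable polynomial stays separable modulo almost all primes -/
theorem sep_mod (Q : ℤ[X]) (h : (Q.map (Int.castRingHom ℚ)).Separable) :
    ∃ d : ℕ, 0 < d ∧ ∀ p : ℕ, p.Prime → ¬ p ∣ d → (Q.map (Int.castRingHom (ZMod p))).Separable := by
  obtain ⟨a, b, hab⟩ := h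
  obtain ⟨d₁, A, hd₁, hA⟩ := exists_clear a
  obtain ⟨d₂, B, hd₂, hB⟩ := exists_clear b
  have h1 : C (d₂ : ℤ) * A * Q + C (d₁ : ℤ) * B * derivative Q = C ((d₁ * d₂ : ℕ) : ℤ) := by
    apply Polynomial.map_injective (Int.castRingHom ℚ) Int.cast_injective
    simp only [Polynomial.map_add, Polynomial.map_mul, hA, hB, Polynomial.map_C, ← derivative_map]
    have h2 : (Int.castRingHom ℚ) ((d₁ * d₂ : ℕ) : ℤ) = (d₁ : ℚ) * d₂ := by simp
    have h3 : (Int.castRingHom ℚ) (d₁ : ℤ) = (d₁ : ℚ) := by simp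
    have h4 : (Int.castRingHom ℚ) (d₂ : ℤ) = (d₂ : ℚ) := by simp
    rw [h2, h3, h4, C_mul]
    linear_combination (C (d₁ : ℚ) * C (d₂ : ℚ)) * hab
  refine ⟨d₁ * d₂, Nat.mul_pos hd₁ hd₂, fun p hp hpd => ?_⟩
  have : Fact p.Prime := ⟨hp⟩
  have h2 := congrArg (Polynomial.map (Int.castRingHom (ZMod p))) h1
  have hu : ((d₁ * d₂ : ℕ) : ZMod p) ≠ 0 := by
    rw [Ne, ZMod.natCast_eq_zero_iff]
    exact hpd
  simp only [Polynomial.map_add, Polynomial.map_mul, Polynomial.map_C, ← derivative_map] at h2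
  refine ⟨C (((d₁ * d₂ : ℕ) : ZMod p)⁻¹) * (C ((Int.castRingHom (ZMod p)) (d₂ : ℤ)) *
    A.map (Int.castRingHom (ZMod p))), C (((d₁ * d₂ : ℕ) : ZMod p)⁻¹) * (C ((Int.castRingHom (ZMod p)) (d₁ : ℤ)) *
    B.map (Int.castRingHom (ZMod p))), ?_⟩
  have h3 : (Int.castRingHom (ZMod p)) (((d₁ * d₂ : ℕ)) : ℤ) = ((d₁ * d₂ : ℕ) : ZMod p) := by simp
  rw [h3] at h2
  have h4 : C (((d₁ * d₂ : ℕ) : ZMod p)⁻¹) * C ((d₁ * d₂ : ℕ) : ZMod p) = 1 := by
    rw [← C_mul, inv_mul_cancel₀ hu, C_1]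
  linear_combination C (((d₁ * d₂ : ℕ) : ZMod p)⁻¹) * h2 + h4

open Filter in
/-- the sum of the primes up to `√N` is `o(N)` -/
theorem sum_primes_le (ε : ℝ) (hε : 0 < ε) : ∃ N₀ : ℕ, ∀ N : ℕ, N₀ ≤ N → ∀ Y : ℕ, Y ^ 2 ≤ N →
    ((∑ p ∈ (Finset.range (Y + 1)).filter Nat.Prime, p : ℕ) : ℝ) ≤ ε * N := by
  have h1 := Chebyshev.eventually_primeCounting_le (ε := 1) one_pos
  have h2 : ∀ᶠ x : ℝ in atTop, (Real.log 4 + 1) / ε ≤ Real.log x := Real.tendsto_log_atTop.eventually_ge_atTop _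
  obtain ⟨x₀, hx₀⟩ := eventually_atTop.1 (h1.and (h2.and (eventually_gt_atTop 1)))
  set X₀ := ⌈x₀⌉₊ with hX₀
  have hlog4 : 0 < Real.log 4 := Real.log_pos (by norm_num)
  -- small `Y`: the sum is bounded
  refine ⟨⌈((X₀ : ℝ) + 1) ^ 2 / ε⌉₊, fun N hN Y hY => ?_⟩
  have hs : (∑ p ∈ (Finset.range (Y + 1)).filter Nat.Prime, p) ≤ Y * Nat.primeCounting Y := by
    calc (∑ p ∈ (Finset.range (Y + 1)).filter Nat.Prime, p)
        ≤ ∑ _p ∈ (Finset.range (Y + 1)).filter Nat.Prime, Y := by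
          refine Finset.sum_le_sum fun p hp => ?_
          have := Finset.mem_range.1 (Finset.mem_filter.1 hp).1
          omega
      _ = Y * Nat.primeCounting Y := by
          rw [Finset.sum_const, smul_eq_mul, mul_comm, Nat.primeCounting, Nat.primeCounting', Nat.count_eq_card_filter_range]
  have hsR : ((∑ p ∈ (Finset.range (Y + 1)).filter Nat.Prime, p : ℕ) : ℝ) ≤ (Y : ℝ) * Nat.primeCounting Y := by
    exact_mod_cast hs
  refine hsR.trans ?_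
  by_cases hYX : Y ≤ X₀
  · have h3 : (Nat.primeCounting Y : ℝ) ≤ Y + 1 := by
      have h4 : Nat.primeCounting Y ≤ Y + 1 := by
        rw [Nat.primeCounting, Nat.primeCounting', Nat.count_eq_card_filter_range]
        exact (Finset.card_filter_le _ _).trans (by simp)
      exact_mod_cast h4
    have hYR : (Y : ℝ) ≤ X₀ := by exact_mod_cast hYX
    have h5 : (Y : ℝ) * Nat.primeCounting Y ≤ ((X₀ : ℝ) + 1) ^ 2 := by
      have hY0 : (0 : ℝ) ≤ Y := Nat.cast_nonneg _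
      calc (Y : ℝ) * Nat.primeCounting Y ≤ (Y : ℝ) * (Y + 1) := mul_le_mul_of_nonneg_left h3 hY0
        _ ≤ ((X₀ : ℝ) + 1) ^ 2 := by nlinarith
    have h6 : ((X₀ : ℝ) + 1) ^ 2 / ε ≤ N := (Nat.le_ceil _).trans (by exact_mod_cast hN)
    rw [div_le_iff₀ hε] at h6
    linarith
  · rw [not_le] at hYX
    have hYx : x₀ ≤ (Y : ℝ) := (Nat.le_ceil x₀).trans (by exact_mod_cast hYX.le)
    obtain ⟨h3, h4, h5⟩ := hx₀ Y hYx
    rw [Nat.floor_natCast] at h3
    have hY0 : (0 : ℝ) < Y := by linarith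
    have hlogY : 0 < Real.log Y := Real.log_pos h5
    have h6 : (Real.log 4 + 1) * Y / Real.log Y ≤ ε * Y := by
      rw [div_le_iff₀ hlogY]
      rw [div_le_iff₀ hε] at h4
      nlinarith
    have hYN : (Y : ℝ) ^ 2 ≤ N := by exact_mod_cast hY
    calc (Y : ℝ) * Nat.primeCounting Y ≤ Y * (ε * Y) := mul_le_mul_of_nonneg_left (h3.trans h6) hY0.le
      _ = ε * (Y : ℝ) ^ 2 := by ring
      _ ≤ ε * N := mul_le_mul_of_nonneg_left hYN hε.le

end Pool.Agent.Helper82.LP
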