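import Mathlib
import Pool.Agent.Helper82.LP.Sep
import Pool.Agent.W254.LF.Zed

set_option autoImplicit false

/-! # The explicit families, all primes `p ≤ Y` at once -/

namespace Pool.Agent.Helper82.LP

open Polynomial NumberField IntermediateField
open Pool.Agent.W254.LF (LeopoldtAt finalZ zed_sep)
open Pool.Agent.H637R2.Leo (Leopoldt)

noncomputable section

/-- degree of a field generated by a root of an irreducible polynomial -/
theorem finrank_of_irr {K : Type} [Field K] [NumberField K] {θ : K} {g : ℤ[X]} (hg : g.Monic)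
    (hirr : Irreducible (g.map (Int.castRingHom ℚ))) (hθ : aeval θ g = 0)
    (ht : IntermediateField.adjoin ℚ {θ} = ⊤) : Module.finrank ℚ K = g.natDegree := by
  have h1 : aeval θ (g.map (Int.castRingHom ℚ)) = 0 := by
    have : (Int.castRingHom ℚ) = algebraMap ℤ ℚ := rfl
    rw [this, aeval_map_algebraMap]
    exact hθ
  have h2 := minpoly.eq_of_irreducible_of_monic hirr h1 (hg.map _)
  have h3 : IsIntegral ℚ θ := ⟨_, hg.map _, by rw [← aeval_def]; exact h1⟩
  have h4 := IntermediateField.adjoin.finrank h3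
  rw [ht, IntermediateField.finrank_top', ← h2, hg.natDegree_map] at h4
  exact h4

theorem unit_rank {K : Type} [Field K] [NumberField K] {r₁ r₂ r : ℕ} (h1 : InfinitePlace.nrRealPlaces K = r₁)
    (h2 : InfinitePlace.nrComplexPlaces K = r₂) (h : r₁ + r₂ = r + 1) : Units.rank K = r := by
  rw [Units.rank, InfinitePlace.card_eq_nrRealPlaces_add_nrComplexPlaces, h1, h2, h]
  omega

/-- the member of the family of the starting library with the parameter `t`, irreducible, of the right signature and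
satisfying Leopoldt's conjecture at all the primes in `S` -/
def GoodAt (r : ℕ) (P : Fin r → ℤ[X]) (S : ℕ → Prop) (t : ℤ) : Prop :=
  Irreducible (((X - C t) * ∏ i, P i - 1 : ℤ[X]).map (Int.castRingHom ℚ)) ∧
    ∀ (K : Type) [Field K] [NumberField K] (θ : K),
      aeval θ ((X - C t) * ∏ i, P i - 1 : ℤ[X]) = 0 → ℚ⟮θ⟯ = ⊤ →
      InfinitePlace.nrRealPlaces K = 1 + (Finset.univ.filter fun i => (P i).natDegree = 1).card ∧
      InfinitePlace.nrComplexPlaces K = (Finset.univ.filter fun i => (P i).natDegree = 2).card ∧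
      ∀ (p : ℕ) [Fact p.Prime], S p → LeopoldtAt K p

theorem encard_biUnion_le_sum {α ι : Type} (s : Finset ι) (A : ι → Set α) (c : ι → ℕ)
    (h : ∀ i ∈ s, (A i).encard ≤ c i) : (⋃ i ∈ s, A i).encard ≤ ((∑ i ∈ s, c i : ℕ) : ℕ∞) := by
  classical
  induction s using Finset.induction_on with
  | empty => simp
  | insert a s ha ih =>
    rw [Finset.set_biUnion_insert, Finset.sum_insert ha]
    refine (Set.encard_union_le _ _).trans ?_
    have h1 := h a (Finset.mem_insert_self _ _)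
    have h2 := ih fun i hi => h i (Finset.mem_insert_of_mem hi)
    push_cast
    push_cast at h2
    exact add_le_add h1 h2

theorem card_lin_quad {r : ℕ} (P : Fin r → ℤ[X]) (h : ∀ i, (P i).natDegree = 1 ∨ (P i).natDegree = 2) :
    (Finset.univ.filter fun i => (P i).natDegree = 1).card +
      (Finset.univ.filter fun i => (P i).natDegree = 2).card = r := by
  classical
  have h1 : (Finset.univ.filter fun i => (P i).natDegree = 2) =
      (Finset.univ.filter fun i => ¬ (P i).natDegree = 1) := by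
    ext i
    simp only [Finset.mem_filter, Finset.mem_univ, true_and]
    rcases h i with h | h <;> rw [h] <;> norm_num
  rw [h1, Finset.card_filter_add_card_filter_not]
  simp

/-- **explicit families** -/
theorem explicit_all (r : ℕ) (P : Fin r → ℤ[X]) (hmon : ∀ i, (P i).Monic)
    (hinj : Function.Injective P)
    (hdeg : ∀ i, (P i).natDegree = 1 ∨
      ((P i).natDegree = 2 ∧ ∀ x : ℝ, ((P i).map (Int.castRingHom ℝ)).eval x ≠ 0)) :
    ∃ C₀ : ℕ, ∀ Y : ℕ, {t : ℤ | ¬ GoodAt r P (fun p => p ≤ Y) t}.encard ≤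
      ((C₀ + r * ∑ p ∈ (Finset.range (Y + 1)).filter Nat.Prime, p : ℕ) : ℕ∞) := by
  classical
  have hsep := zed_sep P hmon hinj hdeg
  rw [← Polynomial.map_prod] at hsep
  obtain ⟨d, hd, hdp⟩ := sep_mod _ hsep
  have hP0 : ∀ i, 0 < (P i).natDegree := fun i => by
    rcases hdeg i with h | ⟨h, -⟩ <;> rw [h] <;> norm_num
  set P₀ := d + 5 + 3 * (1 + (∏ i, P i).natDegree) with hP₀
  -- the finitely many exceptions for the small primes
  set T : ℕ → Set ℤ := fun p => {t : ℤ | ∃ h : p.Prime, ¬ (Irreducible (((X - C t) * ∏ i, P i - 1 : ℤ[X]).map (Int.castRingHom ℚ)) ∧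
      ∀ (K : Type) [Field K] [NumberField K] (θ : K),
        aeval θ ((X - C t) * ∏ i, P i - 1 : ℤ[X]) = 0 → ℚ⟮θ⟯ = ⊤ →
        InfinitePlace.nrRealPlaces K = 1 + (Finset.univ.filter fun i => (P i).natDegree = 1).card ∧
        InfinitePlace.nrComplexPlaces K =
          (Finset.univ.filter fun i => (P i).natDegree = 2).card ∧
        @LeopoldtAt K _ _ p ⟨h⟩)} with hT
  have hTfin : ∀ p, (T p).Finite := by
    intro p
    by_cases hp : p.Prime
    · have : Fact p.Prime := ⟨hp⟩
      refine (finalZ p r P hmon hinj hdeg).subset ?_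
      rintro t ⟨h, ht⟩
      exact ht
    · refine Set.finite_empty.subset ?_
      rintro t ⟨h, -⟩
      exact hp h
  set U : Set ℤ := ⋃ p ∈ Finset.range (P₀ + 1), T p with hU
  have hUfin : U.Finite := Set.Finite.biUnion (Finset.finite_toSet _) fun p _ => hTfin p
  -- the exceptions for the large primes
  set S : ℕ → Set ℤ := fun p => {t : ℤ | ∃ (h : p.Prime), P₀ < p ∧ @Fails p ⟨h⟩ r (fam X P (-t))} with hS
  have hSc : ∀ p, (S p).encard ≤ ((r * p : ℕ) : ℕ∞) := by
    intro p
    by_cases hp : p.Prime ∧ P₀ < p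
    · have hfact : Fact p.Prime := ⟨hp.1⟩
      have h1 := fails_encard (p := p) (r := r) (B := X) (P := P) monic_X (by simp) hmon hP0
        (by omega) (by rw [natDegree_X]; omega) (hdp p hp.1 fun h => by
          have := Nat.le_of_dvd hd h
          omega)
      have h2 : S p ⊆ Neg.neg '' {t : ℤ | Fails p r (fam X P t)} := by
        rintro t ⟨h, -, ht⟩
        exact ⟨-t, ht, by simp⟩
      refine (Set.encard_le_encard h2).trans ((Set.encard_image_le _ _).trans ?_)
      push_cast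
      exact h1
    · have : S p = ∅ := by
        rw [Set.eq_empty_iff_forall_notMem]
        rintro t ⟨h, h', -⟩
        exact hp ⟨h, h'⟩
      rw [this, Set.encard_empty]
      exact zero_le
  refine ⟨hUfin.toFinset.card, fun Y => ?_⟩
  have hsub : {t : ℤ | ¬ GoodAt r P (fun p => p ≤ Y) t} ⊆
      U ∪ ⋃ p ∈ (Finset.range (Y + 1)).filter Nat.Prime, S p := by
    intro t ht
    by_contra hcon
    rw [Set.mem_union, not_or] at hcon
    obtain ⟨hU', hS'⟩ := hcon
    have hT' : ∀ p, p ≤ P₀ → t ∉ T p := by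
      intro p hp h
      apply hU'
      rw [hU, Set.mem_iUnion₂]
      exact ⟨p, Finset.mem_range.2 (by omega), h⟩
    have h2 : ∀ (p : ℕ) (h : p.Prime), p ≤ P₀ → (Irreducible (((X - C t) * ∏ i, P i - 1 : ℤ[X]).map (Int.castRingHom ℚ)) ∧
      ∀ (K : Type) [Field K] [NumberField K] (θ : K),
        aeval θ ((X - C t) * ∏ i, P i - 1 : ℤ[X]) = 0 → ℚ⟮θ⟯ = ⊤ →
        InfinitePlace.nrRealPlaces K = 1 + (Finset.univ.filter fun i => (P i).natDegree = 1).card ∧
        InfinitePlace.nrComplexPlaces K =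
          (Finset.univ.filter fun i => (P i).natDegree = 2).card ∧
        @LeopoldtAt K _ _ p ⟨h⟩) := by
      intro p h hp
      by_contra hcon
      exact hT' p hp ⟨h, hcon⟩
    obtain ⟨hirr, hsig⟩ := h2 2 Nat.prime_two (by omega)
    apply ht
    refine ⟨hirr, fun K _ _ θ hθ hgen => ?_⟩
    obtain ⟨hr1, hr2, -⟩ := hsig K θ hθ hgen
    refine ⟨hr1, hr2, fun p hp hpY => ?_⟩
    by_cases hpP : p ≤ P₀
    · exact ((h2 p hp.out hpP).2 K θ hθ hgen).2.2
    · rw [not_le] at hpP
      by_contra hL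
      apply hS'
      rw [Set.mem_iUnion₂]
      refine ⟨p, Finset.mem_filter.2 ⟨Finset.mem_range.2 (by omega), hp.out⟩, hp.out, hpP, ?_⟩
      have hfam : fam X P (-t) = (X - C t) * ∏ i, P i - 1 := by
        unfold fam
        rw [C_neg]; ring
      rw [hfam]
      have hgm : ((X - C t) * ∏ i, P i - 1 : ℤ[X]).Monic := by
        rw [← hfam]
        exact (fam_monic monic_X (by simp) hmon (-t)).1
      refine ⟨K, _, _, θ, hθ, finrank_of_irr hgm hirr hθ hgen, hgen, unit_rank hr1 hr2 ?_, hL⟩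
      have := card_lin_quad P fun i => (hdeg i).imp id fun h => h.1
      omega
  refine (Set.encard_le_encard hsub).trans ((Set.encard_union_le _ _).trans ?_)
  have h3 : U.encard = (hUfin.toFinset.card : ℕ∞) := hUfin.encard_eq_coe_toFinset_card
  have h4 := encard_biUnion_le_sum ((Finset.range (Y + 1)).filter Nat.Prime) S (fun p => r * p) fun p _ => hSc p
  rw [h3, Finset.mul_sum]
  push_cast
  push_cast at h4
  exact add_le_add le_rfl h4

/-- **density one** -/
theorem explicit_density (r : ℕ) (P : Fin r → ℤ[X]) (hmon : ∀ i, (P i).Monic)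
    (hinj : Function.Injective P)
    (hdeg : ∀ i, (P i).natDegree = 1 ∨
      ((P i).natDegree = 2 ∧ ∀ x : ℝ, ((P i).map (Int.castRingHom ℝ)).eval x ≠ 0)) (ε : ℝ) (hε : 0 < ε) :
    ∃ N₀ : ℕ, ∀ N : ℕ, N₀ ≤ N →
      (({t : ℤ | ¬ GoodAt r P (fun p => p ^ 2 ≤ N) t}.ncard : ℕ) : ℝ) ≤ ε * N ∧
      {t : ℤ | ¬ GoodAt r P (fun p => p ^ 2 ≤ N) t}.Finite := by
  obtain ⟨C₀, hC₀⟩ := explicit_all r P hmon hinj hdeg
  obtain ⟨N₀, hN₀⟩ := sum_primes_le (ε / (2 * (r + 1))) (by positivity)
  refine ⟨N₀ + ⌈2 * C₀ / ε⌉₊, fun N hN => ?_⟩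
  have h1 := hC₀ (Nat.sqrt N)
  have hiff : (fun p => p ≤ Nat.sqrt N) = fun p => p ^ 2 ≤ N := by
    funext p
    rw [Nat.le_sqrt']
  rw [hiff] at h1
  have hfin : {t : ℤ | ¬ GoodAt r P (fun p => p ^ 2 ≤ N) t}.Finite := by
    apply Set.finite_of_encard_le_coe h1
  refine ⟨?_, hfin⟩
  rw [← hfin.cast_ncard_eq] at h1
  have h2 : {t : ℤ | ¬ GoodAt r P (fun p => p ^ 2 ≤ N) t}.ncard ≤
      C₀ + r * ∑ p ∈ (Finset.range (Nat.sqrt N + 1)).filter Nat.Prime, p := by exact_mod_cast h1
  have h3 := hN₀ N (by omega) (Nat.sqrt N) (Nat.sqrt_le' N)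
  have h4 : (C₀ : ℝ) ≤ ε / 2 * N := by
    have h5 : 2 * (C₀ : ℝ) / ε ≤ N := by
      refine (Nat.le_ceil _).trans ?_
      exact_mod_cast (by omega : ⌈2 * (C₀ : ℝ) / ε⌉₊ ≤ N)
    rw [div_le_iff₀ hε] at h5
    linarith
  have h6 : (r : ℝ) * ((∑ p ∈ (Finset.range (Nat.sqrt N + 1)).filter Nat.Prime, p : ℕ) : ℝ) ≤ ε / 2 * N := by
    have h7 : (r : ℝ) * (ε / (2 * (r + 1)) * N) ≤ ε / 2 * N := by
      have h8 : (r : ℝ) * (ε / (2 * (r + 1)) * N) = (r / (r + 1)) * (ε / 2 * N) := by
        field_simp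
      rw [h8]
      have h9 : (r : ℝ) / (r + 1) ≤ 1 := by
        rw [div_le_one (by positivity)]; linarith
      exact mul_le_of_le_one_left (by positivity) h9
    exact (mul_le_mul_of_nonneg_left h3 (Nat.cast_nonneg _)).trans h7
  have h10 : (({t : ℤ | ¬ GoodAt r P (fun p => p ^ 2 ≤ N) t}.ncard : ℕ) : ℝ) ≤
      C₀ + r * ((∑ p ∈ (Finset.range (Nat.sqrt N + 1)).filter Nat.Prime, p : ℕ) : ℝ) := by
    exact_mod_cast h2
  linarith

end

end Pool.Agent.Helper82.LP
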