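import Mathlib
import Pool.Agent.Helper82.LP.Box1
import Pool.Agent.Helper82.LP.Explicit
import Pool.Agent.N924.LP.Main

set_option autoImplicit false

/-! # The families with `r₁ + 2 r₂` parameters: lines and residue classes -/

namespace Pool.Agent.Helper82.LP

open Polynomial NumberField
open Pool.Agent.N924.LP (Idx fB pol fB_monic fB_natDegree_inl fB_natDegree_inr fB_map)

noncomputable section

/-- the values of a parameter for which two polynomials have a common root -/
theorem ncop_encard {k : Type} [Field k] (A g : k[X]) (hg : g ≠ 0) :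
    {c : k | ¬ IsCoprime (A + C c) g}.encard ≤ g.natDegree := by
  classical
  set K := AlgebraicClosure k
  have h1 : (algebraMap k K) '' {c : k | ¬ IsCoprime (A + C c) g} ⊆
      ((g.map (algebraMap k K)).roots.toFinset.image fun y => - (A.map (algebraMap k K)).eval y : Finset K) := by
    rintro _ ⟨c, hc, rfl⟩
    have h2 : ¬ IsCoprime (A + C c) g := hc
    rw [isCoprime_iff_aeval_ne_zero_of_isAlgClosed k K] at h2
    push Not at h2
    obtain ⟨y, hy1, hy2⟩ := h2
    rw [Finset.mem_coe, Finset.mem_image]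
    refine ⟨y, ?_, ?_⟩
    · rw [Multiset.mem_toFinset, mem_roots (by rwa [Ne, Polynomial.map_eq_zero]), IsRoot.def, eval_map_algebraMap]
      exact hy2
    · rw [map_add, aeval_C] at hy1
      rw [eval_map_algebraMap]
      linear_combination -hy1
  have h3 := Set.encard_le_encard h1
  rw [(FaithfulSMul.algebraMap_injective k K).encard_image, Set.encard_coe_eq_coe_finsetCard] at h3
  refine h3.trans ?_
  have h4 : ((g.map (algebraMap k K)).roots.toFinset.image fun y => - (A.map (algebraMap k K)).eval y).card ≤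
      g.natDegree := by
    refine Finset.card_image_le.trans ((Multiset.toFinset_card_le _).trans ((card_roots' _).trans ?_))
    rw [natDegree_map]
  exact_mod_cast h4

variable {r₁ r₂ : ℕ}

/-- the index set of the factors -/
abbrev Fac (r₁ r₂ : ℕ) : Type := Fin r₁ ⊕ Fin r₂

/-- the factors -/
def fac (x : Idx r₁ r₂ → ℤ) (j : Fac r₁ r₂) : ℤ[X] :=
  fB (fun i => x (Sum.inl i)) (fun k => x (Sum.inr (Sum.inl k))) (fun k => x (Sum.inr (Sum.inr k))) j

/-- the main parameter of a factor -/
def mu : Fac r₁ r₂ → Idx r₁ r₂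
  | Sum.inl i => Sum.inl i
  | Sum.inr k => Sum.inr (Sum.inr k)

theorem mu_inj : Function.Injective (mu : Fac r₁ r₂ → Idx r₁ r₂) := by
  rintro (i | k) (i' | k') h
  · simp only [mu, Sum.inl.injEq] at h; rw [h]
  · simp [mu] at h
  · simp [mu] at h
  · simp only [mu, Sum.inr.injEq] at h; rw [h]

/-- the part of a factor which does not depend on the main parameter -/
def AA (x : Idx r₁ r₂ → ℤ) : Fac r₁ r₂ → ℤ[X]
  | Sum.inl _ => X
  | Sum.inr k => (X - C (x (Sum.inr (Sum.inl k)))) ^ 2

/-- the sign of the main parameter -/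
def sg : Fac r₁ r₂ → ℤ → ℤ
  | Sum.inl _ => fun z => -z
  | Sum.inr _ => fun z => z

theorem fac_eq (x : Idx r₁ r₂ → ℤ) (j : Fac r₁ r₂) : fac x j = AA x j + C (sg j (x (mu j))) := by
  rcases j with i | k
  · simp only [fac, fB, AA, sg, mu, C_neg]
    ring
  · rfl

theorem AA_update (x : Idx r₁ r₂ → ℤ) (j l : Fac r₁ r₂) (z : ℤ) : AA (Function.update x (mu j) z) l = AA x l := by
  rcases l with i | k
  · rfl
  · simp only [AA]
    rw [Function.update_of_ne]
    rcases j with i' | k' <;> simp [mu]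

theorem fac_update_self (x : Idx r₁ r₂ → ℤ) (j : Fac r₁ r₂) (z : ℤ) :
    fac (Function.update x (mu j) z) j = AA x j + C (sg j z) := by
  rw [fac_eq, AA_update, Function.update_self]

theorem fac_update_ne (x : Idx r₁ r₂ → ℤ) (j l : Fac r₁ r₂) (h : l ≠ j) (z : ℤ) :
    fac (Function.update x (mu j) z) l = fac x l := by
  rw [fac_eq, fac_eq, AA_update, Function.update_of_ne fun h' => h (mu_inj h')]

theorem pol_eq (x : Idx r₁ r₂ → ℤ) : pol x = ∏ j, fac x j - 1 := rfl

theorem fac_monic (x : Idx r₁ r₂ → ℤ) (j : Fac r₁ r₂) : (fac x j).Monic := fB_monic _ _ _ _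

theorem fac_natDegree (x : Idx r₁ r₂ → ℤ) (j : Fac r₁ r₂) :
    (fac x j).natDegree = 1 ∨ (fac x j).natDegree = 2 := by
  rcases j with i | k
  · left; exact fB_natDegree_inl _ _ _ _
  · right; exact fB_natDegree_inr _ _ _ _

theorem AA_monic (x : Idx r₁ r₂ → ℤ) (j : Fac r₁ r₂) : (AA x j).Monic := by
  rcases j with i | k
  · exact monic_X
  · exact (monic_X_sub_C _).pow 2

theorem AA_natDegree (x : Idx r₁ r₂ → ℤ) (j : Fac r₁ r₂) : (AA x j).natDegree = (fac x j).natDegree := by
  rcases j with i | k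
  · rw [AA, natDegree_X]; exact (fB_natDegree_inl _ _ _ _).symm
  · rw [AA, (monic_X_sub_C _).natDegree_pow, natDegree_X_sub_C]; exact (fB_natDegree_inr _ _ _ _).symm

theorem prod_natDegree (x : Idx r₁ r₂ → ℤ) : (∏ j, fac x j).natDegree = r₁ + 2 * r₂ := by
  rw [natDegree_prod_of_monic _ _ fun j _ => fac_monic x j, Fintype.sum_sum_type]
  have h1 : ∀ i : Fin r₁, (fac x (Sum.inl i)).natDegree = 1 := fun i => fB_natDegree_inl _ _ _ _
  have h2 : ∀ k : Fin r₂, (fac x (Sum.inr k)).natDegree = 2 := fun i => fB_natDegree_inr _ _ _ _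
  simp only [h1, h2, Finset.sum_const, Finset.card_univ, Fintype.card_fin, smul_eq_mul]
  ring

section

variable {p : ℕ} [hp : Fact p.Prime]

/-- **lines** -/
theorem line_fails (x : Idx r₁ r₂ → ℤ) (j : Fac r₁ r₂) (hp5 : 5 ≤ p) (hn : 3 * (r₁ + 2 * r₂) ≤ p)
    (hsep : ((∏ l ∈ Finset.univ.erase j, fac x l).map (Int.castRingHom (ZMod p))).Separable) :
    {z : ℤ | Fails p (r₁ + r₂ - 1) (pol (Function.update x (mu j) z))}.encard ≤
      ((r₁ + r₂ - 1 : ℕ) : ℕ∞) * p := by
  classical
  have hcard : Fintype.card {l : Fac r₁ r₂ // l ≠ j} = r₁ + r₂ - 1 := by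
    rw [Fintype.card_subtype_compl, Fintype.card_sum, Fintype.card_fin, Fintype.card_fin]
    simp
  let e : Fin (r₁ + r₂ - 1) ≃ {l : Fac r₁ r₂ // l ≠ j} := (Fintype.equivFinOfCardEq hcard).symm
  have hprod : ∀ y : Idx r₁ r₂ → ℤ, ∏ i, fac y (e i) = ∏ l ∈ Finset.univ.erase j, fac y l := by
    intro y
    rw [Fintype.prod_equiv e (fun i => fac y (e i)) (fun l => fac y l) fun i => rfl]
    rw [← Finset.prod_subtype (s := Finset.univ.erase j) (p := fun l => l ≠ j) (by simp) (fun l => fac y l)]
  have hdeg : (AA x j).natDegree + (∏ i, fac x (e i)).natDegree = r₁ + 2 * r₂ := by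
    rw [hprod, AA_natDegree, ← prod_natDegree x, ← Finset.mul_prod_erase Finset.univ _ (Finset.mem_univ j),
      (fac_monic x j).natDegree_mul (monic_prod_of_monic _ _ fun l _ => fac_monic x l)]
  have h1 := fails_encard (p := p) (r := r₁ + r₂ - 1) (B := AA x j) (P := fun i => fac x (e i)) (AA_monic x j)
    (by
      rw [AA_natDegree]
      rcases fac_natDegree x j with h | h <;> rw [h] <;> norm_num) (fun i => fac_monic x _)
    (fun i => by
      rcases fac_natDegree x (e i) with h | h <;> rw [h] <;> norm_num) hp5 (by rw [hdeg]; exact hn)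
    (by rw [hprod]; exact hsep)
  have h2 : {z : ℤ | Fails p (r₁ + r₂ - 1) (pol (Function.update x (mu j) z))} ⊆
      (sg j) '' {t : ℤ | Fails p (r₁ + r₂ - 1) (fam (AA x j) (fun i => fac x (e i)) t)} := by
    intro z hz
    refine ⟨sg j z, ?_, ?_⟩
    · have h3 : fam (AA x j) (fun i => fac x (e i)) (sg j z) = pol (Function.update x (mu j) z) := by
        unfold fam
        rw [pol_eq, ← Finset.mul_prod_erase Finset.univ _ (Finset.mem_univ j), fac_update_self, hprod]
        congr 2
        exact Finset.prod_congr rfl fun l hl => (fac_update_ne x j l (Finset.ne_of_mem_erase hl) z).symm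
      show Fails p (r₁ + r₂ - 1) (fam (AA x j) (fun i => fac x (e i)) (sg j z))
      rw [h3]
      exact hz
    · rcases j with i | k <;> simp [sg]
  exact (Set.encard_le_encard h2).trans ((Set.encard_image_le _ _).trans h1)

/-- the factor `j` is not separable modulo `p` or has a common root with a factor of index in `T` -/
def Ev (p : ℕ) (T : Set (Fac r₁ r₂)) (j : Fac r₁ r₂) (x : Idx r₁ r₂ → ℤ) : Prop :=
  ¬ ((fac x j).map (Int.castRingHom (ZMod p))).Separable ∨
    ∃ l ∈ T, l ≠ j ∧ ¬ IsCoprime ((fac x j).map (Int.castRingHom (ZMod p)))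
      ((fac x l).map (Int.castRingHom (ZMod p)))

theorem Ev.mono {T T' : Set (Fac r₁ r₂)} (h : T ⊆ T') {j : Fac r₁ r₂} {x : Idx r₁ r₂ → ℤ} (hx : Ev p T j x) :
    Ev p T' j x := by
  rcases hx with h1 | ⟨l, h1, h2⟩
  · exact Or.inl h1
  · exact Or.inr ⟨l, h h1, h2⟩

/-- the event does not depend on the parameters of the other factors -/
theorem Ev.update {T : Set (Fac r₁ r₂)} {j i : Fac r₁ r₂} (hj : j ≠ i) (hT : i ∉ T) {x : Idx r₁ r₂ → ℤ} (z : ℤ)
    (hx : Ev p T j x) : Ev p T j (Function.update x (mu i) z) := by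
  rcases hx with h1 | ⟨l, h1, h2, h3⟩
  · left
    rw [fac_update_ne x i j hj]
    exact h1
  · right
    refine ⟨l, h1, h2, ?_⟩
    rw [fac_update_ne x i j hj, fac_update_ne x i l (fun h => hT (h ▸ h1))]
    exact h3

/-- a product which is not separable -/
theorem exists_ev (x : Idx r₁ r₂ → ℤ) (j : Fac r₁ r₂)
    (h : ¬ ((∏ l ∈ Finset.univ.erase j, fac x l).map (Int.castRingHom (ZMod p))).Separable) :
    ∃ m, m ≠ j ∧ Ev p {l | l ≠ j} m x := by
  by_contra hcon
  push Not at hcon
  apply h
  rw [Polynomial.map_prod]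
  apply separable_prod'
  · intro a ha b hb hab
    by_contra hc
    exact hcon a (Finset.ne_of_mem_erase ha) (Or.inr ⟨b, Finset.ne_of_mem_erase hb, hab.symm, hc⟩)
  · intro a ha
    by_contra hc
    exact hcon a (Finset.ne_of_mem_erase ha) (Or.inl hc)

/-- **the two cases** -/
theorem two_cases (hr : 1 ≤ r₁ + r₂) (x : Idx r₁ r₂ → ℤ) :
    (∃ j, ((∏ l ∈ Finset.univ.erase j, fac x l).map (Int.castRingHom (ZMod p))).Separable) ∨
    ∃ j m, m ≠ j ∧ Ev p Set.univ j x ∧ Ev p {l | l ≠ j} m x := by
  by_cases h : ∃ j, ((∏ l ∈ Finset.univ.erase j, fac x l).map (Int.castRingHom (ZMod p))).Separable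
  · exact Or.inl h
  · right
    push Not at h
    obtain ⟨j₀⟩ : Nonempty (Fac r₁ r₂) := by
      rw [← Fintype.card_pos_iff, Fintype.card_sum, Fintype.card_fin, Fintype.card_fin]
      omega
    obtain ⟨j, -, hj⟩ := exists_ev x j₀ (h j₀)
    obtain ⟨m, hm, hm'⟩ := exists_ev x j (h j)
    exact ⟨j, m, hm, hj.mono (Set.subset_univ _), hm'⟩

/-- **classes**: the event restricts the main parameter to few classes modulo `p` -/
theorem ev_classes (hp2 : p ≠ 2) (x : Idx r₁ r₂ → ℤ) (j : Fac r₁ r₂) (T : Set (Fac r₁ r₂)) :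
    ∃ S : Set (ZMod p), S.encard ≤ ((2 * (r₁ + r₂ + 1) : ℕ) : ℕ∞) ∧
      ∀ z : ℤ, Ev p T j (Function.update x (mu j) z) → ((sg j z : ℤ) : ZMod p) ∈ S := by
  classical
  set φ := Int.castRingHom (ZMod p) with hφ
  set A := (AA x j).map φ with hA
  have hA' : derivative A ≠ 0 := by
    rw [hA]
    rcases j with i | k
    · simp [AA]
    · simp only [AA, Polynomial.map_pow, Polynomial.map_sub, Polynomial.map_X, Polynomial.map_C]
      rw [derivative_pow]
      simp only [derivative_sub, derivative_X, derivative_C, sub_zero, mul_one, Nat.cast_ofNat,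
        Nat.add_one_sub_one, pow_one]
      have h2 : (2 : ZMod p) ≠ 0 := by
        intro h
        have : ((2 : ℕ) : ZMod p) = 0 := by exact_mod_cast h
        rw [ZMod.natCast_eq_zero_iff] at this
        have := (Nat.prime_dvd_prime_iff_eq hp.out Nat.prime_two).1 this
        exact hp2 this
      apply mul_ne_zero
      · intro h
        exact h2 (C_eq_zero.1 h)
      · exact X_sub_C_ne_zero _
  have hdA : (derivative A).natDegree ≤ 2 := by
    refine (natDegree_derivative_le _).trans ?_
    have : A.natDegree ≤ 2 := by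
      rw [hA, (AA_monic x j).natDegree_map, AA_natDegree]
      rcases fac_natDegree x j with h | h <;> rw [h]
      norm_num
    omega
  refine ⟨{c | ¬ IsCoprime (A + C c) (derivative A)} ∪
    ⋃ l ∈ (Finset.univ : Finset (Fac r₁ r₂)), {c | ¬ IsCoprime (A + C c) ((fac x l).map φ)}, ?_, ?_⟩
  · refine (Set.encard_union_le _ _).trans ?_
    have h1 := ncop_encard A (derivative A) hA'
    have h2 := encard_biUnion_le' (Finset.univ : Finset (Fac r₁ r₂))
      (fun l => {c | ¬ IsCoprime (A + C c) ((fac x l).map φ)}) 2 (fun l _ => by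
        refine (ncop_encard A _ ((fac_monic x l).map φ).ne_zero).trans ?_
        rw [(fac_monic x l).natDegree_map]
        rcases fac_natDegree x l with h | h <;> rw [h]
        norm_num)
    have h3 : ((derivative A).natDegree : ℕ∞) ≤ 2 := by exact_mod_cast hdA
    have h4 : (Finset.univ : Finset (Fac r₁ r₂)).card = r₁ + r₂ := by
      rw [Finset.card_univ, Fintype.card_sum, Fintype.card_fin, Fintype.card_fin]
    rw [h4] at h2
    calc _ ≤ (2 : ℕ∞) + ((r₁ + r₂ : ℕ) : ℕ∞) * 2 := add_le_add (h1.trans h3) h2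
      _ = ((2 * (r₁ + r₂ + 1) : ℕ) : ℕ∞) := by push_cast; ring
  · intro z hz
    have h1 : (fac (Function.update x (mu j) z) j).map φ = A + C ((sg j z : ℤ) : ZMod p) := by
      rw [fac_update_self, Polynomial.map_add, Polynomial.map_C, hA]
      rfl
    rcases hz with h | ⟨l, -, hlj, h⟩
    · left
      rw [h1] at h
      show ¬ IsCoprime (A + C ((sg j z : ℤ) : ZMod p)) (derivative A)
      intro h'
      apply h
      unfold Separable
      rw [derivative_add, derivative_C, add_zero]
      exact h'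
    · right
      rw [Set.mem_iUnion₂]
      refine ⟨l, Finset.mem_univ _, ?_⟩
      rw [h1, fac_update_ne x j l hlj] at h
      exact h

end

end

end Pool.Agent.Helper82.LP
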