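import Mathlib
import Pool.Agent.Helper82.LP.Box2

set_option autoImplicit false

/-! # The families with `r₁ + 2 r₂` parameters: the bound for one prime -/

namespace Pool.Agent.Helper82.LP

open Polynomial NumberField
open Pool.Agent.N924.LP (Idx fB pol)

noncomputable section

variable {r₁ r₂ : ℕ}

/-- lower ends -/
def lo (i : Idx r₁ r₂) (N : ℕ) : ℤ :=
  Sum.elim (fun _ => -(N : ℤ) - 1) (Sum.elim (fun _ => -(N : ℤ) - 1) (fun _ => 0)) i

/-- sides of the box -/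
def JJ (N : ℕ) (i : Idx r₁ r₂) : Finset ℤ := Finset.Ioc (lo i N) N

/-- the box -/
def BoxF (r₁ r₂ N : ℕ) : Finset (Idx r₁ r₂ → ℤ) := Fintype.piFinset (JJ N)

theorem lo_le (i : Idx r₁ r₂) (N : ℕ) : lo i N ≤ 0 ∧ -(N : ℤ) - 1 ≤ lo i N := by
  rcases i with i | k | k <;> simp only [lo, Sum.elim_inl, Sum.elim_inr] <;> constructor <;> omega

theorem JJ_card (N : ℕ) (i : Idx r₁ r₂) : N ≤ (JJ N i).card ∧ (JJ N i).card ≤ 2 * N + 1 := by
  unfold JJ
  rw [Int.card_Ioc]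
  have := lo_le i N
  constructor <;> omega

variable {p : ℕ} [hp : Fact p.Prime]

open Classical in
/-- **the bound for one prime** -/
theorem prime_bound (hr : 1 ≤ r₁ + r₂) (hp5 : 5 ≤ p) (hn : 3 * (r₁ + 2 * r₂) ≤ p) (N : ℕ) (hpN : p ≤ N) :
    ((((BoxF r₁ r₂ N).filter fun x => Fails p (r₁ + r₂ - 1) (pol x)).card : ℕ) : ℝ) ≤
      ((r₁ + r₂ : ℝ) ^ 2 * ((p : ℝ) / N) + (r₁ + r₂ : ℝ) ^ 2 * (64 * (r₁ + r₂ + 1) ^ 2 / (p : ℝ) ^ 2)) *
        ((BoxF r₁ r₂ N).card : ℝ) := by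
  have hpp := hp.out
  have hp0 : (0 : ℝ) < p := by exact_mod_cast hpp.pos
  have hN0 : (0 : ℝ) < N := by
    have : 0 < N := lt_of_lt_of_le hpp.pos hpN
    exact_mod_cast this
  set Bc : ℝ := ((BoxF r₁ r₂ N).card : ℝ) with hBc
  have hBc0 : 0 ≤ Bc := Nat.cast_nonneg _
  -- lines
  set SL : Fac r₁ r₂ → Set (Idx r₁ r₂ → ℤ) := fun j =>
    {x | ((∏ l ∈ Finset.univ.erase j, fac x l).map (Int.castRingHom (ZMod p))).Separable ∧
      Fails p (r₁ + r₂ - 1) (pol x)} with hSL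
  have hL : ∀ j, ((((BoxF r₁ r₂ N).filter (· ∈ SL j)).card : ℕ) : ℝ) ≤ ((r₁ + r₂ : ℝ) * ((p : ℝ) / N)) * Bc := by
    intro j
    have h1 := card_line (JJ N) (mu j) (SL j) ((r₁ + r₂ - 1) * p) (fun y => by
      by_cases hs : ((∏ l ∈ Finset.univ.erase j, fac y l).map (Int.castRingHom (ZMod p))).Separable
      · have h2 := line_fails y j hp5 hn hs
        have h3 : (((JJ N (mu j)).filter fun z => Function.update y (mu j) z ∈ SL j : Finset ℤ) : Set ℤ) ⊆
            {z : ℤ | Fails p (r₁ + r₂ - 1) (pol (Function.update y (mu j) z))} := by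
          intro z hz
          rw [Finset.mem_coe, Finset.mem_filter] at hz
          exact hz.2.2
        have h4 := (Set.encard_le_encard h3).trans h2
        rw [Set.encard_coe_eq_coe_finsetCard] at h4
        exact_mod_cast h4
      · have h3 : ((JJ N (mu j)).filter fun z => Function.update y (mu j) z ∈ SL j) = ∅ := by
          rw [Finset.filter_eq_empty_iff]
          rintro z - ⟨hz, -⟩
          apply hs
          have : ∏ l ∈ Finset.univ.erase j, fac (Function.update y (mu j) z) l =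
              ∏ l ∈ Finset.univ.erase j, fac y l :=
            Finset.prod_congr rfl fun l hl => fac_update_ne y j l (Finset.ne_of_mem_erase hl) z
          rw [this] at hz
          exact hz
        rw [h3, Finset.card_empty]
        exact Nat.zero_le _)
    have h5 : ((((BoxF r₁ r₂ N).filter (· ∈ SL j)).card : ℕ) : ℝ) * N ≤ (((r₁ + r₂ - 1) * p : ℕ) : ℝ) * Bc := by
      have h6 : ((BoxF r₁ r₂ N).filter (· ∈ SL j)).card * N ≤ (r₁ + r₂ - 1) * p * (BoxF r₁ r₂ N).card :=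
        (Nat.mul_le_mul_left _ (JJ_card N (mu j)).1).trans h1
      rw [hBc]
      exact_mod_cast h6
    have h7 : (((r₁ + r₂ - 1) * p : ℕ) : ℝ) ≤ (r₁ + r₂ : ℝ) * p := by
      have : (r₁ + r₂ - 1) * p ≤ (r₁ + r₂) * p := Nat.mul_le_mul_right _ (Nat.sub_le _ _)
      exact_mod_cast this
    rw [mul_div_assoc', div_mul_eq_mul_div, le_div_iff₀ hN0]
    exact h5.trans (mul_le_mul_of_nonneg_right h7 hBc0)
  -- planes
  set κ : ℕ := 2 * (r₁ + r₂ + 1) with hκ
  set SP : Fac r₁ r₂ → Fac r₁ r₂ → Set (Idx r₁ r₂ → ℤ) := fun j m =>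
    {x | m ≠ j ∧ Ev p Set.univ j x ∧ Ev p {l | l ≠ j} m x} with hSP
  set c : ℕ := ⌊(κ : ℝ) * (4 * N / p)⌋₊ with hc
  have hcount : ∀ (j : Fac r₁ r₂) (T : Set (Fac r₁ r₂)) (y : Idx r₁ r₂ → ℤ),
      ((JJ N (mu j)).filter fun z => Function.update y (mu j) z ∈ {x | Ev p T j x}).card ≤ c := by
    intro j T y
    apply Nat.le_floor
    obtain ⟨S, hS1, hS2⟩ := ev_classes (p := p) (by omega) y j T
    have h1 := card_classes (lo (mu j) N) N ((lo_le (mu j) N).1.trans (by positivity)) p hpp.pos κ S hS1 (sg j)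
      (by rcases j with i | k
          · right; intro z; rfl
          · left; intro z; rfl)
    have h2 : ((JJ N (mu j)).filter fun z => Function.update y (mu j) z ∈ {x | Ev p T j x}).card ≤
        ((Finset.Ioc (lo (mu j) N) (N : ℤ)).filter fun z => ((sg j z : ℤ) : ZMod p) ∈ S).card := by
      apply Finset.card_le_card
      intro z hz
      rw [Finset.mem_filter] at hz ⊢
      exact ⟨hz.1, hS2 z hz.2⟩
    have h3 : (((N : ℤ) : ℝ) - (lo (mu j) N : ℝ)) / p + 1 ≤ 4 * N / p := by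
      have h4 : (-(N : ℝ) - 1) ≤ (lo (mu j) N : ℝ) := by exact_mod_cast (lo_le (mu j) N).2
      rw [div_add_one hp0.ne', div_le_div_iff_of_pos_right hp0]
      have h5 : (p : ℝ) ≤ N := by exact_mod_cast hpN
      have h6 : (1 : ℝ) ≤ p := by exact_mod_cast hpp.one_lt.le
      push_cast
      linarith
    calc ((((JJ N (mu j)).filter fun z => Function.update y (mu j) z ∈ {x | Ev p T j x}).card : ℕ) : ℝ)
        ≤ ((((Finset.Ioc (lo (mu j) N) (N : ℤ)).filter fun z => ((sg j z : ℤ) : ZMod p) ∈ S).card : ℕ) : ℝ) := by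
          exact_mod_cast h2
      _ ≤ κ * ((((N : ℤ) : ℝ) - (lo (mu j) N : ℝ)) / p + 1) := h1
      _ ≤ κ * (4 * N / p) := mul_le_mul_of_nonneg_left h3 (Nat.cast_nonneg _)
  have hP : ∀ j m, ((((BoxF r₁ r₂ N).filter (· ∈ SP j m)).card : ℕ) : ℝ) ≤
      (64 * (r₁ + r₂ + 1 : ℝ) ^ 2 / (p : ℝ) ^ 2) * Bc := by
    intro j m
    by_cases hmj : m = j
    · have : (BoxF r₁ r₂ N).filter (· ∈ SP j m) = ∅ := by
        rw [Finset.filter_eq_empty_iff]
        rintro x - ⟨h, -⟩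
        exact h hmj
      rw [this, Finset.card_empty]
      push_cast
      positivity
    · have h1 := card_plane (JJ N) (mu j) (mu m) (fun h => hmj (mu_inj h)) {x | Ev p Set.univ j x}
        {x | Ev p {l | l ≠ j} m x} c c (hcount j Set.univ) (hcount m _) (fun y z hy => by
          exact Ev.update (T := {l | l ≠ j}) hmj (by simp) z hy)
      have h2 : (BoxF r₁ r₂ N).filter (· ∈ SP j m) ⊆
          (Fintype.piFinset (JJ N)).filter (fun x => x ∈ {x | Ev p Set.univ j x} ∧ x ∈ {x | Ev p {l | l ≠ j} m x}) := by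
        intro x hx
        rw [Finset.mem_filter] at hx ⊢
        exact ⟨hx.1, hx.2.2.1, hx.2.2.2⟩
      have h3 : ((BoxF r₁ r₂ N).filter (· ∈ SP j m)).card * (N * N) ≤ c * c * (BoxF r₁ r₂ N).card :=
        ((Nat.mul_le_mul (Finset.card_le_card h2)
          (Nat.mul_le_mul (JJ_card N (mu j)).1 (JJ_card N (mu m)).1))).trans h1
      have h4 : ((((BoxF r₁ r₂ N).filter (· ∈ SP j m)).card : ℕ) : ℝ) * ((N : ℝ) * N) ≤ c * c * Bc := by
        rw [hBc]
        exact_mod_cast h3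
      have h5 : (c : ℝ) ≤ κ * (4 * N / p) := Nat.floor_le (by positivity)
      have h6 : (c : ℝ) * c ≤ (κ * (4 * N / p)) * (κ * (4 * N / p)) :=
        mul_le_mul h5 h5 (Nat.cast_nonneg _) (by positivity)
      have h7 : (κ * (4 * N / p)) * (κ * (4 * N / p)) = (64 * (r₁ + r₂ + 1 : ℝ) ^ 2 / (p : ℝ) ^ 2) * ((N : ℝ) * N) := by
        rw [hκ]
        push_cast
        field_simp
        ring
      have h8 : ((((BoxF r₁ r₂ N).filter (· ∈ SP j m)).card : ℕ) : ℝ) * ((N : ℝ) * N) ≤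
          (64 * (r₁ + r₂ + 1 : ℝ) ^ 2 / (p : ℝ) ^ 2) * Bc * ((N : ℝ) * N) := by
        calc ((((BoxF r₁ r₂ N).filter (· ∈ SP j m)).card : ℕ) : ℝ) * ((N : ℝ) * N) ≤ c * c * Bc := h4
          _ ≤ ((κ * (4 * N / p)) * (κ * (4 * N / p))) * Bc := mul_le_mul_of_nonneg_right h6 hBc0
          _ = (64 * (r₁ + r₂ + 1 : ℝ) ^ 2 / (p : ℝ) ^ 2) * Bc * ((N : ℝ) * N) := by rw [h7]; ring
      exact le_of_mul_le_mul_right h8 (by positivity)
  -- the union
  have hcov : (BoxF r₁ r₂ N).filter (fun x => Fails p (r₁ + r₂ - 1) (pol x)) ⊆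
      ((Finset.univ : Finset (Fac r₁ r₂)).biUnion fun j => (BoxF r₁ r₂ N).filter (· ∈ SL j)) ∪
      ((Finset.univ : Finset (Fac r₁ r₂ × Fac r₁ r₂)).biUnion fun q => (BoxF r₁ r₂ N).filter (· ∈ SP q.1 q.2)) := by
    intro x hx
    rw [Finset.mem_filter] at hx
    rw [Finset.mem_union, Finset.mem_biUnion, Finset.mem_biUnion]
    rcases two_cases (p := p) hr x with ⟨j, hj⟩ | ⟨j, m, h1, h2, h3⟩
    · left
      exact ⟨j, Finset.mem_univ _, Finset.mem_filter.2 ⟨hx.1, hj, hx.2⟩⟩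
    · right
      exact ⟨(j, m), Finset.mem_univ _, Finset.mem_filter.2 ⟨hx.1, h1, h2, h3⟩⟩
  have hF : (Fintype.card (Fac r₁ r₂) : ℝ) = r₁ + r₂ := by
    rw [Fintype.card_sum, Fintype.card_fin, Fintype.card_fin]
    push_cast
    ring
  calc ((((BoxF r₁ r₂ N).filter fun x => Fails p (r₁ + r₂ - 1) (pol x)).card : ℕ) : ℝ)
      ≤ ((((Finset.univ : Finset (Fac r₁ r₂)).biUnion fun j => (BoxF r₁ r₂ N).filter (· ∈ SL j)).card : ℕ) : ℝ) +
        ((((Finset.univ : Finset (Fac r₁ r₂ × Fac r₁ r₂)).biUnion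
          fun q => (BoxF r₁ r₂ N).filter (· ∈ SP q.1 q.2)).card : ℕ) : ℝ) := by
        exact_mod_cast (Finset.card_le_card hcov).trans (Finset.card_union_le _ _)
    _ ≤ ∑ j : Fac r₁ r₂, ((r₁ + r₂ : ℝ) * ((p : ℝ) / N)) * Bc +
        ∑ _q : Fac r₁ r₂ × Fac r₁ r₂, (64 * (r₁ + r₂ + 1 : ℝ) ^ 2 / (p : ℝ) ^ 2) * Bc := by
        apply add_le_add
        · refine le_trans (Nat.cast_le.2 Finset.card_biUnion_le) ?_
          push_cast
          exact Finset.sum_le_sum fun j _ => hL j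
        · refine le_trans (Nat.cast_le.2 Finset.card_biUnion_le) ?_
          push_cast
          exact Finset.sum_le_sum fun q _ => hP q.1 q.2
    _ = ((r₁ + r₂ : ℝ) ^ 2 * ((p : ℝ) / N) + (r₁ + r₂ : ℝ) ^ 2 * (64 * (r₁ + r₂ + 1) ^ 2 / (p : ℝ) ^ 2)) * Bc := by
        rw [Finset.sum_const, Finset.sum_const, Finset.card_univ, Finset.card_univ, Fintype.card_prod,
          nsmul_eq_mul, nsmul_eq_mul]
        push_cast
        rw [hF]
        ring

end

end Pool.Agent.Helper82.LP
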