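import Mathlib
import Pool.Agent.Helper82.LP.Box3
import Pool.Agent.Results.MP_5f2860_nt.AlmostAllMembers

set_option autoImplicit false

/-! # The families with `r₁ + 2 r₂` parameters: all primes `p ≤ √N` at once -/

namespace Pool.Agent.Helper82.LP

open Polynomial NumberField
open Pool.Agent.N924.LP (Idx fB pol)
open Pool.Agent.Results.MP_5f2860_nt.AlmostAllMembers (poly Good Box good_iff)
open Pool.Agent.H637R2.Leo (Leopoldt)

noncomputable section

variable {r₁ r₂ : ℕ}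

/-- irreducible, of the right signature, Leopoldt's conjecture at all the primes with the property `S` -/
def GoodS (S : ℕ → Prop) (x : Idx r₁ r₂ → ℤ) : Prop :=
  Irreducible (poly x) ∧ ∀ (K : Type) [Field K] [NumberField K] (θ : K), aeval θ (poly x) = 0 →
    IntermediateField.adjoin ℚ {θ} = ⊤ →
    InfinitePlace.nrRealPlaces K = r₁ ∧ InfinitePlace.nrComplexPlaces K = r₂ ∧
      ∀ (p : ℕ) [Fact p.Prime], S p → Leopoldt K p

theorem poly_eq_pol (x : Idx r₁ r₂ → ℤ) : poly x = pol x := by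
  unfold poly Pool.Agent.N924.LP.pol
  rw [Fintype.prod_sum_type]
  rfl

theorem pol_monic (hr : 1 ≤ r₁ + r₂) (x : Idx r₁ r₂ → ℤ) : (pol x).Monic := by
  have h1 : (∏ j, fac x j).Monic := monic_prod_of_monic _ _ fun j _ => fac_monic x j
  rw [pol_eq]
  apply h1.sub_of_left
  rw [degree_one, degree_eq_natDegree h1.ne_zero, prod_natDegree]
  exact_mod_cast (by omega : 0 < r₁ + 2 * r₂)

theorem box_eq (N : ℕ) : Box r₁ r₂ N = ↑(BoxF r₁ r₂ N) := by
  ext x
  rw [BoxF, Finset.mem_coe, Fintype.mem_piFinset]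
  simp only [Box, Set.mem_ofPred_eq, JJ, Finset.mem_Ioc, lo]
  constructor
  · rintro ⟨h1, h2, h3⟩ (i | k | k)
    · have := abs_le.1 (h1 i)
      simp only [Sum.elim_inl]
      constructor <;> linarith
    · have := abs_le.1 (h2 k)
      simp only [Sum.elim_inl, Sum.elim_inr]
      constructor <;> linarith
    · have := h3 k
      simp only [Sum.elim_inr]
      constructor <;> linarith
  · intro h
    refine ⟨fun i => ?_, fun k => ?_, fun k => ?_⟩
    · have := h (Sum.inl i)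
      simp only [Sum.elim_inl] at this
      rw [abs_le]
      constructor <;> linarith
    · have := h (Sum.inr (Sum.inl k))
      simp only [Sum.elim_inl, Sum.elim_inr] at this
      rw [abs_le]
      constructor <;> linarith
    · have := h (Sum.inr (Sum.inr k))
      simp only [Sum.elim_inr] at this
      constructor <;> linarith

/-- failures for a member which is irreducible and has the right signature -/
theorem fails_of_not (hr : 1 ≤ r₁ + r₂) {p : ℕ} [Fact p.Prime] (x : Idx r₁ r₂ → ℤ) (hirr : Irreducible (poly x))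
    (K : Type) [Field K] [NumberField K] (θ : K) (hθ : aeval θ (poly x) = 0)
    (hgen : IntermediateField.adjoin ℚ {θ} = ⊤) (h1 : InfinitePlace.nrRealPlaces K = r₁)
    (h2 : InfinitePlace.nrComplexPlaces K = r₂) (hL : ¬ Leopoldt K p) : Fails p (r₁ + r₂ - 1) (pol x) := by
  rw [poly_eq_pol] at hθ hirr
  obtain ⟨hd, -⟩ := Pool.Agent.H33R4.places_proof _ (pol_monic hr x) hirr K θ hθ hgen
  exact ⟨K, _, _, θ, hθ, hd, hgen, unit_rank h1 h2 (by omega), hL⟩

open Classical in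
/-- **100 % of the members satisfy Leopoldt's conjecture at all primes `p ≤ √N`** -/
theorem box_all (hr : 1 ≤ r₁ + r₂) (ε : ℝ) (hε : 0 < ε) : ∃ N₀ : ℕ, ∀ N : ℕ, N₀ ≤ N →
    ({x | x ∈ Box r₁ r₂ N ∧ ¬ GoodS (fun p => p ^ 2 ≤ N) x}.ncard : ℝ) ≤ ε * (Box r₁ r₂ N).ncard := by
  have hF : (1 : ℝ) ≤ r₁ + r₂ := by exact_mod_cast hr
  set F : ℝ := r₁ + r₂ with hFd
  set c₁ : ℝ := F ^ 2 * (64 * (F + 1) ^ 2) with hc₁
  have hc₁0 : 0 < c₁ := by positivity
  -- the bound for the small primes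
  obtain ⟨P₀, hP₀1, hP₀2⟩ : ∃ P₀ : ℕ, 5 + 3 * (r₁ + 2 * r₂) ≤ P₀ ∧ c₁ * (2 / ((P₀ : ℝ) + 1)) ≤ ε / 4 := by
    refine ⟨5 + 3 * (r₁ + 2 * r₂) + ⌈8 * c₁ / ε⌉₊, by omega, ?_⟩
    have h1 : 8 * c₁ / ε ≤ ((5 + 3 * (r₁ + 2 * r₂) + ⌈8 * c₁ / ε⌉₊ : ℕ) : ℝ) + 1 := by
      have := Nat.le_ceil (8 * c₁ / ε)
      push_cast
      have h3 : (0 : ℝ) ≤ 5 + 3 * (r₁ + 2 * r₂) := by positivity
      linarith
    rw [mul_div_assoc', div_le_div_iff₀ (by positivity) (by norm_num)]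
    rw [div_le_iff₀ hε] at h1
    linarith
  have hsmall := fun p : {p : ℕ // p.Prime} =>
    @Pool.Agent.Results.MP_5f2860_nt.AlmostAllMembers.result.1 p.1 ⟨p.2⟩ r₁ r₂ hr
      (ε / (2 * ((P₀ : ℝ) + 1))) (by positivity)
  choose N₁ hN₁ using hsmall
  obtain ⟨N₂, hN₂⟩ := sum_primes_le (ε / (4 * F ^ 2)) (by positivity)
  set N₃ : ℕ := ∑ p ∈ (Finset.range (P₀ + 1)), (if h : p.Prime then N₁ ⟨p, h⟩ else 0) with hN₃
  refine ⟨N₂ + N₃ + 1, fun N hN => ?_⟩
  have hN0 : (0 : ℝ) < N := by exact_mod_cast (by omega : 0 < N)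
  set Bc : ℝ := ((Box r₁ r₂ N).ncard : ℝ) with hBc
  have hBc0 : 0 ≤ Bc := Nat.cast_nonneg _
  have hBF : Bc = ((BoxF r₁ r₂ N).card : ℝ) := by rw [hBc, box_eq, Set.ncard_coe_finset]
  -- the sets
  set A : ℕ → Finset (Idx r₁ r₂ → ℤ) := fun p => if h : p.Prime then
    (BoxF r₁ r₂ N).filter fun x => ¬ @Good p ⟨h⟩ r₁ r₂ x else ∅ with hA
  set A' : ℕ → Finset (Idx r₁ r₂ → ℤ) := fun p => if h : p.Prime then
    (BoxF r₁ r₂ N).filter fun x => @Fails p ⟨h⟩ (r₁ + r₂ - 1) (pol x) else ∅ with hA'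
  set PR := (Finset.range (Nat.sqrt N + 1)).filter Nat.Prime with hPR
  have hcov : {x | x ∈ Box r₁ r₂ N ∧ ¬ GoodS (fun p => p ^ 2 ≤ N) x} ⊆
      ↑(((Finset.range (P₀ + 1)).biUnion A) ∪ ((PR.filter (P₀ < ·)).biUnion A')) := by
    rintro x ⟨hx, hbad⟩
    rw [box_eq, Finset.mem_coe] at hx
    by_contra hcon
    rw [Finset.mem_coe, Finset.mem_union, not_or] at hcon
    obtain ⟨hc1, hc2⟩ := hcon
    have hg : ∀ (p : ℕ) (h : p.Prime), p ≤ P₀ → @Good p ⟨h⟩ r₁ r₂ x := by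
      intro p h hp
      by_contra hng
      apply hc1
      rw [Finset.mem_biUnion]
      refine ⟨p, Finset.mem_range.2 (by omega), ?_⟩
      simp only [hA, dif_pos h, Finset.mem_filter]
      exact ⟨hx, hng⟩
    obtain ⟨hirr, hsig⟩ := hg 2 Nat.prime_two (by omega)
    apply hbad
    refine ⟨hirr, fun K _ _ θ hθ hgen => ?_⟩
    obtain ⟨hr1, hr2, -⟩ := hsig K θ hθ hgen
    refine ⟨hr1, hr2, fun p hp hpN => ?_⟩
    by_cases hpP : p ≤ P₀
    · exact ((hg p hp.out hpP).2 K θ hθ hgen).2.2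
    · rw [not_le] at hpP
      by_contra hL
      apply hc2
      rw [Finset.mem_biUnion]
      refine ⟨p, ?_, ?_⟩
      · rw [Finset.mem_filter, hPR, Finset.mem_filter, Finset.mem_range]
        have : p ≤ Nat.sqrt N := Nat.le_sqrt'.2 hpN
        exact ⟨⟨by omega, hp.out⟩, hpP⟩
      · simp only [hA', dif_pos hp.out, Finset.mem_filter]
        exact ⟨hx, fails_of_not hr x hirr K θ hθ hgen hr1 hr2 hL⟩
  have hcard : ({x | x ∈ Box r₁ r₂ N ∧ ¬ GoodS (fun p => p ^ 2 ≤ N) x}.ncard : ℝ) ≤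
      ∑ p ∈ Finset.range (P₀ + 1), ((A p).card : ℝ) + ∑ p ∈ PR.filter (P₀ < ·), ((A' p).card : ℝ) := by
    have h1 := Set.ncard_le_ncard hcov (Finset.finite_toSet _)
    rw [Set.ncard_coe_finset] at h1
    have h2 := h1.trans ((Finset.card_union_le _ _).trans (add_le_add Finset.card_biUnion_le Finset.card_biUnion_le))
    exact_mod_cast h2
  -- small primes
  have hs1 : ∀ p ∈ Finset.range (P₀ + 1), ((A p).card : ℝ) ≤ ε / (2 * ((P₀ : ℝ) + 1)) * Bc := by
    intro p hp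
    by_cases h : p.Prime
    · have hNp : N₁ ⟨p, h⟩ ≤ N := by
        have h1 : (if h : p.Prime then N₁ ⟨p, h⟩ else 0) ≤ N₃ :=
          Finset.single_le_sum (f := fun p => if h : p.Prime then N₁ ⟨p, h⟩ else 0)
            (fun _ _ => Nat.zero_le _) hp
        rw [dif_pos h] at h1
        omega
      have h2 := hN₁ ⟨p, h⟩ N hNp
      refine le_trans (le_of_eq ?_) h2
      have h3 : {x | x ∈ Box r₁ r₂ N ∧ ¬ @Good p ⟨h⟩ r₁ r₂ x} = ↑(A p) := by
        ext x
        simp only [hA, dif_pos h, Finset.coe_filter, Set.mem_ofPred_eq]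
        rw [box_eq, Finset.mem_coe]
      rw [← Set.ncard_coe_finset, ← h3]
    · simp only [hA, dif_neg h, Finset.card_empty, Nat.cast_zero]
      positivity
  have hs2 : ∑ p ∈ Finset.range (P₀ + 1), ((A p).card : ℝ) ≤ ε / 2 * Bc := by
    refine (Finset.sum_le_sum hs1).trans (le_of_eq ?_)
    rw [Finset.sum_const, Finset.card_range, nsmul_eq_mul]
    push_cast
    field_simp
  -- large primes
  have hl1 : ∀ p ∈ PR.filter (P₀ < ·), ((A' p).card : ℝ) ≤
      (F ^ 2 / N * p + c₁ * (((p : ℝ) ^ 2)⁻¹)) * Bc := by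
    intro p hp
    rw [Finset.mem_filter, hPR, Finset.mem_filter, Finset.mem_range] at hp
    obtain ⟨⟨h1, h2⟩, h3⟩ := hp
    have : Fact p.Prime := ⟨h2⟩
    have hpN : p ≤ N := by
      have : Nat.sqrt N ≤ N := Nat.sqrt_le_self N
      omega
    have h4 := prime_bound (p := p) hr (by omega) (by omega) N hpN
    rw [← hBF] at h4
    simp only [hA', dif_pos h2]
    refine h4.trans (le_of_eq ?_)
    rw [hc₁]
    ring
  have hl2 : ∑ p ∈ PR.filter (P₀ < ·), ((A' p).card : ℝ) ≤ ε / 2 * Bc := by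
    have h1 : ∑ p ∈ PR.filter (P₀ < ·), (p : ℝ) ≤ ε / (4 * F ^ 2) * N := by
      refine le_trans ?_ (hN₂ N (by omega) (Nat.sqrt N) (Nat.sqrt_le' N))
      push_cast
      exact Finset.sum_le_sum_of_subset_of_nonneg (Finset.filter_subset _ _) fun _ _ _ => Nat.cast_nonneg _
    have h2 : ∑ p ∈ PR.filter (P₀ < ·), (((p : ℝ) ^ 2)⁻¹) ≤ 2 / ((P₀ : ℝ) + 1) := by
      refine le_trans ?_ (sum_Ioo_inv_sq_le (α := ℝ) P₀ (Nat.sqrt N + 1))
      apply Finset.sum_le_sum_of_subset_of_nonneg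
      · intro p hp
        rw [Finset.mem_filter, hPR, Finset.mem_filter, Finset.mem_range] at hp
        rw [Finset.mem_Ioo]
        exact ⟨hp.2, hp.1.1⟩
      · intro _ _ _
        positivity
    calc ∑ p ∈ PR.filter (P₀ < ·), ((A' p).card : ℝ)
        ≤ ∑ p ∈ PR.filter (P₀ < ·), (F ^ 2 / N * p + c₁ * (((p : ℝ) ^ 2)⁻¹)) * Bc := Finset.sum_le_sum hl1
      _ = (F ^ 2 / N * (∑ p ∈ PR.filter (P₀ < ·), (p : ℝ)) +
          c₁ * ∑ p ∈ PR.filter (P₀ < ·), (((p : ℝ) ^ 2)⁻¹)) * Bc := by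
          rw [← Finset.sum_mul, Finset.sum_add_distrib, ← Finset.mul_sum, ← Finset.mul_sum]
      _ ≤ (F ^ 2 / N * (ε / (4 * F ^ 2) * N) + c₁ * (2 / ((P₀ : ℝ) + 1))) * Bc := by
          apply mul_le_mul_of_nonneg_right _ hBc0
          exact add_le_add (mul_le_mul_of_nonneg_left h1 (by positivity))
            (mul_le_mul_of_nonneg_left h2 hc₁0.le)
      _ ≤ (ε / 4 + ε / 4) * Bc := by
          apply mul_le_mul_of_nonneg_right _ hBc0
          have h3 : F ^ 2 / N * (ε / (4 * F ^ 2) * N) = ε / 4 := by field_simp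
          rw [h3]
          linarith
      _ = ε / 2 * Bc := by ring
  calc ({x | x ∈ Box r₁ r₂ N ∧ ¬ GoodS (fun p => p ^ 2 ≤ N) x}.ncard : ℝ)
      ≤ ε / 2 * Bc + ε / 2 * Bc := hcard.trans (add_le_add hs2 hl2)
    _ = ε * Bc := by ring

end

end Pool.Agent.Helper82.LP
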