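import Mathlib
import Pool.Agent.Helper82.LP.Box4

set_option autoImplicit false

/-! # The families with `r₁ + 2 r₂` parameters: almost all primes `p ≤ c N` -/

namespace Pool.Agent.Helper82.LP

open Polynomial NumberField
open Pool.Agent.N924.LP (Idx fB pol)
open Pool.Agent.Results.MP_5f2860_nt.AlmostAllMembers (poly Good Box good_iff)
open Pool.Agent.H637R2.Leo (Leopoldt)

noncomputable section

variable {r₁ r₂ : ℕ}

/-- irreducible, of the right signature, Leopoldt's conjecture fails at most at the proportion `δ` of the primes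
up to `X` -/
def GoodM (δ : ℝ) (X : ℕ) (x : Idx r₁ r₂ → ℤ) : Prop :=
  Irreducible (poly x) ∧ ∀ (K : Type) [Field K] [NumberField K] (θ : K), aeval θ (poly x) = 0 →
    IntermediateField.adjoin ℚ {θ} = ⊤ →
    InfinitePlace.nrRealPlaces K = r₁ ∧ InfinitePlace.nrComplexPlaces K = r₂ ∧
      ({p : ℕ | p ≤ X ∧ ∃ h : p.Prime, ¬ @Leopoldt K _ _ p ⟨h⟩}.ncard : ℝ) ≤ δ * Nat.primeCounting X

open Classical in
theorem box_most (hr : 1 ≤ r₁ + r₂) (ε δ : ℝ) (hε : 0 < ε) (hδ : 0 < δ) : ∃ c : ℝ, 0 < c ∧ ∃ N₀ : ℕ,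
    ∀ N : ℕ, N₀ ≤ N →
    ({x | x ∈ Box r₁ r₂ N ∧ ¬ GoodM δ ⌊c * N⌋₊ x}.ncard : ℝ) ≤ ε * (Box r₁ r₂ N).ncard := by
  have hF : (1 : ℝ) ≤ r₁ + r₂ := by exact_mod_cast hr
  set F : ℝ := r₁ + r₂ with hFd
  set c₁ : ℝ := F ^ 2 * (64 * (F + 1) ^ 2) with hc₁
  have hc₁0 : 0 < c₁ := by positivity
  set c : ℝ := min 1 (ε * δ / (4 * F ^ 2)) with hc
  have hc0 : 0 < c := by
    rw [hc]
    exact lt_min one_pos (by positivity)
  have hc1 : c ≤ 1 := min_le_left _ _
  have hc2 : c ≤ ε * δ / (4 * F ^ 2) := min_le_right _ _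
  refine ⟨c, hc0, ?_⟩
  set P₀ : ℕ := 5 + 3 * (r₁ + 2 * r₂) with hP₀
  have hsmall := fun p : {p : ℕ // p.Prime} =>
    @Pool.Agent.Results.MP_5f2860_nt.AlmostAllMembers.result.1 p.1 ⟨p.2⟩ r₁ r₂ hr
      (ε / (2 * ((P₀ : ℝ) + 1))) (by positivity)
  choose N₁ hN₁ using hsmall
  set N₃ : ℕ := ∑ p ∈ (Finset.range (P₀ + 1)), (if h : p.Prime then N₁ ⟨p, h⟩ else 0) with hN₃
  -- the number of primes tends to infinity
  obtain ⟨X₀, hX₀⟩ := Filter.eventually_atTop.1
    (Nat.tendsto_primeCounting.eventually_ge_atTop ⌈8 * c₁ / (ε * δ)⌉₊)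
  refine ⟨N₃ + 1 + ⌈((X₀ : ℝ) + 1) / c⌉₊, fun N hN => ?_⟩
  have hN0 : (0 : ℝ) < N := by exact_mod_cast (by omega : 0 < N)
  set Y : ℕ := ⌊c * N⌋₊ with hY
  have hYX : X₀ ≤ Y := by
    apply Nat.le_floor
    have h1 : ((X₀ : ℝ) + 1) / c ≤ N := (Nat.le_ceil _).trans (by exact_mod_cast (by omega : ⌈((X₀ : ℝ) + 1) / c⌉₊ ≤ N))
    rw [div_le_iff₀ hc0] at h1
    linarith
  have hYc : (Y : ℝ) ≤ c * N := Nat.floor_le (by positivity)
  have hYN : Y ≤ N := by
    have : (Y : ℝ) ≤ N := hYc.trans (by nlinarith)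
    exact_mod_cast this
  have hπ : 8 * c₁ / (ε * δ) ≤ Nat.primeCounting Y := (Nat.le_ceil _).trans (by exact_mod_cast hX₀ Y hYX)
  have hπ0 : (0 : ℝ) < Nat.primeCounting Y := lt_of_lt_of_le (by positivity) hπ
  set Bc : ℝ := ((Box r₁ r₂ N).ncard : ℝ) with hBc
  have hBc0 : 0 ≤ Bc := Nat.cast_nonneg _
  have hBF : Bc = ((BoxF r₁ r₂ N).card : ℝ) := by rw [hBc, box_eq, Set.ncard_coe_finset]
  -- the sets
  set A : ℕ → Finset (Idx r₁ r₂ → ℤ) := fun p => if h : p.Prime then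
    (BoxF r₁ r₂ N).filter fun x => ¬ @Good p ⟨h⟩ r₁ r₂ x else ∅ with hA
  set A' : ℕ → Finset (Idx r₁ r₂ → ℤ) := fun p => if h : p.Prime then
    (BoxF r₁ r₂ N).filter fun x => @Fails p ⟨h⟩ (r₁ + r₂ - 1) (pol x) else ∅ with hA'
  set PR := ((Finset.range (Y + 1)).filter Nat.Prime).filter (P₀ < ·) with hPR
  set Q : Finset (Idx r₁ r₂ → ℤ) := (BoxF r₁ r₂ N).filter fun x =>
    δ * Nat.primeCounting Y < ((PR.filter fun p => x ∈ A' p).card : ℝ) with hQ
  have hcov : {x | x ∈ Box r₁ r₂ N ∧ ¬ GoodM δ Y x} ⊆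
      ↑(((Finset.range (P₀ + 1)).biUnion A) ∪ Q) := by
    rintro x ⟨hx, hbad⟩
    rw [box_eq, Finset.mem_coe] at hx
    by_contra hcon
    rw [Finset.mem_coe, Finset.mem_union, not_or] at hcon
    obtain ⟨hc1, hc2⟩ := hcon
    have hg : ∀ (p : ℕ) (h : p.Prime), p ≤ P₀ → @Good p ⟨h⟩ r₁ r₂ x := by
      intro p h hp
      by_contra hng
      apply hc1
      rw [Finset.mem_biUnion]
      refine ⟨p, Finset.mem_range.2 (by omega), ?_⟩
      simp only [hA, dif_pos h, Finset.mem_filter]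
      exact ⟨hx, hng⟩
    obtain ⟨hirr, hsig⟩ := hg 2 Nat.prime_two (by omega)
    apply hbad
    refine ⟨hirr, fun K _ _ θ hθ hgen => ?_⟩
    obtain ⟨hr1, hr2, -⟩ := hsig K θ hθ hgen
    refine ⟨hr1, hr2, ?_⟩
    have h1 : {p : ℕ | p ≤ Y ∧ ∃ h : p.Prime, ¬ @Leopoldt K _ _ p ⟨h⟩} ⊆ ↑(PR.filter fun p => x ∈ A' p) := by
      rintro p ⟨hpY, h, hL⟩
      have hpP : P₀ < p := by
        by_contra hle
        rw [not_lt] at hle
        exact hL ((hg p h hle).2 K θ hθ hgen).2.2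
      rw [Finset.mem_coe, Finset.mem_filter, hPR, Finset.mem_filter, Finset.mem_filter, Finset.mem_range]
      refine ⟨⟨⟨by omega, h⟩, hpP⟩, ?_⟩
      simp only [hA', dif_pos h, Finset.mem_filter]
      exact ⟨hx, @fails_of_not _ _ hr p ⟨h⟩ x hirr K _ _ θ hθ hgen hr1 hr2 hL⟩
    have h2 := Set.ncard_le_ncard h1 (Finset.finite_toSet _)
    rw [Set.ncard_coe_finset] at h2
    have h3 : ¬ (δ * Nat.primeCounting Y < ((PR.filter fun p => x ∈ A' p).card : ℝ)) := by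
      intro h
      exact hc2 (Finset.mem_filter.2 ⟨hx, h⟩)
    rw [not_lt] at h3
    exact le_trans (by exact_mod_cast h2) h3
  have hcard : ({x | x ∈ Box r₁ r₂ N ∧ ¬ GoodM δ Y x}.ncard : ℝ) ≤
      ∑ p ∈ Finset.range (P₀ + 1), ((A p).card : ℝ) + (Q.card : ℝ) := by
    have h1 := Set.ncard_le_ncard hcov (Finset.finite_toSet _)
    rw [Set.ncard_coe_finset] at h1
    have h2 := h1.trans ((Finset.card_union_le _ _).trans (add_le_add Finset.card_biUnion_le le_rfl))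
    exact_mod_cast h2
  -- small primes
  have hs1 : ∀ p ∈ Finset.range (P₀ + 1), ((A p).card : ℝ) ≤ ε / (2 * ((P₀ : ℝ) + 1)) * Bc := by
    intro p hp
    by_cases h : p.Prime
    · have hNp : N₁ ⟨p, h⟩ ≤ N := by
        have h1 : (if h : p.Prime then N₁ ⟨p, h⟩ else 0) ≤ N₃ :=
          Finset.single_le_sum (f := fun p => if h : p.Prime then N₁ ⟨p, h⟩ else 0)
            (fun _ _ => Nat.zero_le _) hp
        rw [dif_pos h] at h1
        omega
      have h2 := hN₁ ⟨p, h⟩ N hNp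
      refine le_trans (le_of_eq ?_) h2
      have h3 : {x | x ∈ Box r₁ r₂ N ∧ ¬ @Good p ⟨h⟩ r₁ r₂ x} = ↑(A p) := by
        ext x
        simp only [hA, dif_pos h, Finset.coe_filter, Set.mem_ofPred_eq]
        rw [box_eq, Finset.mem_coe]
      rw [← Set.ncard_coe_finset, ← h3]
    · simp only [hA, dif_neg h, Finset.card_empty, Nat.cast_zero]
      positivity
  have hs2 : ∑ p ∈ Finset.range (P₀ + 1), ((A p).card : ℝ) ≤ ε / 2 * Bc := by
    refine (Finset.sum_le_sum hs1).trans (le_of_eq ?_)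
    rw [Finset.sum_const, Finset.card_range, nsmul_eq_mul]
    push_cast
    field_simp
  -- large primes
  have hl1 : ∀ p ∈ PR, ((A' p).card : ℝ) ≤ (F ^ 2 * c + c₁ * (((p : ℝ) ^ 2)⁻¹)) * Bc := by
    intro p hp
    rw [hPR, Finset.mem_filter, Finset.mem_filter, Finset.mem_range] at hp
    obtain ⟨⟨h1, h2⟩, h3⟩ := hp
    have : Fact p.Prime := ⟨h2⟩
    have h4 := prime_bound (p := p) hr (by omega) (by omega) N (by omega)
    rw [← hBF] at h4
    simp only [hA', dif_pos h2]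
    refine h4.trans ?_
    apply mul_le_mul_of_nonneg_right _ hBc0
    have h5 : (p : ℝ) / N ≤ c := by
      rw [div_le_iff₀ hN0]
      have : (p : ℝ) ≤ Y := by exact_mod_cast (by omega : p ≤ Y)
      linarith
    have h6 : (r₁ + r₂ : ℝ) ^ 2 * ((p : ℝ) / N) ≤ F ^ 2 * c := mul_le_mul_of_nonneg_left h5 (by positivity)
    have h7 : (r₁ + r₂ : ℝ) ^ 2 * (64 * (r₁ + r₂ + 1) ^ 2 / (p : ℝ) ^ 2) = c₁ * (((p : ℝ) ^ 2)⁻¹) := by
      rw [hc₁]; ring
    linarith
  have hPRc : (PR.card : ℝ) ≤ Nat.primeCounting Y := by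
    have h1 : PR.card ≤ Nat.primeCounting Y := by
      rw [Nat.primeCounting, Nat.primeCounting', Nat.count_eq_card_filter_range]
      exact Finset.card_le_card (Finset.filter_subset _ _)
    exact_mod_cast h1
  have hl2 : ∑ p ∈ PR, ((A' p).card : ℝ) ≤ (F ^ 2 * c * Nat.primeCounting Y + 2 * c₁) * Bc := by
    have h2 : ∑ p ∈ PR, (((p : ℝ) ^ 2)⁻¹) ≤ 2 := by
      refine le_trans ?_ ((sum_Ioo_inv_sq_le (α := ℝ) P₀ (Y + 1)).trans ?_)
      · apply Finset.sum_le_sum_of_subset_of_nonneg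
        · intro p hp
          rw [hPR, Finset.mem_filter, Finset.mem_filter, Finset.mem_range] at hp
          rw [Finset.mem_Ioo]
          exact ⟨hp.2, hp.1.1⟩
        · intro _ _ _
          positivity
      · rw [div_le_iff₀ (by positivity)]
        have : (0 : ℝ) ≤ P₀ := Nat.cast_nonneg _
        linarith
    calc ∑ p ∈ PR, ((A' p).card : ℝ)
        ≤ ∑ p ∈ PR, (F ^ 2 * c + c₁ * (((p : ℝ) ^ 2)⁻¹)) * Bc := Finset.sum_le_sum hl1
      _ = (F ^ 2 * c * PR.card + c₁ * ∑ p ∈ PR, (((p : ℝ) ^ 2)⁻¹)) * Bc := by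
          rw [← Finset.sum_mul, Finset.sum_add_distrib, Finset.sum_const, nsmul_eq_mul, Finset.mul_sum]
          ring
      _ ≤ (F ^ 2 * c * Nat.primeCounting Y + 2 * c₁) * Bc := by
          apply mul_le_mul_of_nonneg_right _ hBc0
          have h3 : F ^ 2 * c * PR.card ≤ F ^ 2 * c * Nat.primeCounting Y :=
            mul_le_mul_of_nonneg_left hPRc (by positivity)
          have h4 := mul_le_mul_of_nonneg_left h2 hc₁0.le
          linarith
  -- Markov's inequality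
  have hQ1 : (Q.card : ℝ) * (δ * Nat.primeCounting Y) ≤ ∑ p ∈ PR, ((A' p).card : ℝ) := by
    have h1 : ∑ p ∈ PR, ((A' p).card : ℝ) = ∑ x ∈ BoxF r₁ r₂ N, ((PR.filter fun p => x ∈ A' p).card : ℝ) := by
      have h2 : ∀ p, (A' p) = (BoxF r₁ r₂ N).filter fun x => x ∈ A' p := by
        intro p
        ext x
        rw [Finset.mem_filter]
        constructor
        · intro h
          refine ⟨?_, h⟩
          simp only [hA'] at h
          split_ifs at h with h3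
          · exact (Finset.mem_filter.1 h).1
          · exact absurd h (Finset.notMem_empty _)
        · exact fun h => h.2
      have h3 : ∀ p, ((A' p).card : ℝ) = ∑ x ∈ BoxF r₁ r₂ N, if x ∈ A' p then (1 : ℝ) else 0 := by
        intro p
        conv_lhs => rw [h2 p]
        rw [Finset.card_filter]
        push_cast
        rfl
      simp only [h3]
      rw [Finset.sum_comm]
      refine Finset.sum_congr rfl fun x _ => ?_
      rw [Finset.card_filter]
      push_cast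
      rfl
    rw [h1]
    calc (Q.card : ℝ) * (δ * Nat.primeCounting Y) = ∑ _x ∈ Q, (δ * Nat.primeCounting Y) := by
          rw [Finset.sum_const, nsmul_eq_mul]
      _ ≤ ∑ x ∈ Q, ((PR.filter fun p => x ∈ A' p).card : ℝ) :=
          Finset.sum_le_sum fun x hx => (Finset.mem_filter.1 hx).2.le
      _ ≤ ∑ x ∈ BoxF r₁ r₂ N, ((PR.filter fun p => x ∈ A' p).card : ℝ) :=
          Finset.sum_le_sum_of_subset_of_nonneg (Finset.filter_subset _ _) fun _ _ _ => Nat.cast_nonneg _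
  have hQ2 : (Q.card : ℝ) ≤ ε / 2 * Bc := by
    have h1 : (F ^ 2 * c * Nat.primeCounting Y + 2 * c₁) ≤ ε / 2 * (δ * Nat.primeCounting Y) := by
      have h2 : F ^ 2 * c ≤ ε * δ / 4 := by
        rw [le_div_iff₀ (by positivity)] at hc2
        linarith
      have h3 : 2 * c₁ ≤ ε * δ / 4 * Nat.primeCounting Y := by
        rw [div_le_iff₀ (by positivity)] at hπ
        linarith
      have h4 : F ^ 2 * c * Nat.primeCounting Y ≤ ε * δ / 4 * Nat.primeCounting Y :=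
        mul_le_mul_of_nonneg_right h2 hπ0.le
      linarith
    have h5 : (Q.card : ℝ) * (δ * Nat.primeCounting Y) ≤ (ε / 2 * Bc) * (δ * Nat.primeCounting Y) := by
      calc (Q.card : ℝ) * (δ * Nat.primeCounting Y) ≤ (F ^ 2 * c * Nat.primeCounting Y + 2 * c₁) * Bc := hQ1.trans hl2
        _ ≤ (ε / 2 * (δ * Nat.primeCounting Y)) * Bc := mul_le_mul_of_nonneg_right h1 hBc0
        _ = (ε / 2 * Bc) * (δ * Nat.primeCounting Y) := by ring
    exact le_of_mul_le_mul_right h5 (by positivity)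
  calc ({x | x ∈ Box r₁ r₂ N ∧ ¬ GoodM δ Y x}.ncard : ℝ)
      ≤ ε / 2 * Bc + ε / 2 * Bc := hcard.trans (add_le_add hs2 hQ2)
    _ = ε * Bc := by ring

end

end Pool.Agent.Helper82.LP
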