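import Mathlib
import Pool.Agent.Helper82.LP.Tame4
import Pool.Agent.H33R4.Form

set_option autoImplicit false

/-! # General families: expansion at a class modulo `p` -/

namespace Pool.Agent.Helper82.LP

open Polynomial
open Pool.Agent.H33R4 (spec)

noncomputable section

/-- the derivative with respect to `T` of a polynomial in `ℤ[T][Y]` -/
def dT : ℤ[X][X] →+ ℤ[X][X] where
  toFun P := P.sum fun n a => monomial n (derivative a)
  map_zero' := by simp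
  map_add' P Q := by
    rw [sum_add_index]
    · intro i; simp
    · intro n a b; simp

theorem dT_monomial (n : ℕ) (a : ℤ[X]) : dT (monomial n a) = monomial n (derivative a) := by
  show (monomial n a).sum (fun n a => monomial n (derivative a)) = _
  rw [sum_monomial_index]
  simp

/-- the substitution `T ↦ t₁ + p s` -/
def sub (p : ℕ) (t₁ : ℤ) : ℤ[X] →+* ℤ[X] := eval₂RingHom C (C t₁ + (p : ℤ[X]) * X)

theorem sub_taylor (p : ℕ) (t₁ : ℤ) (a : ℤ[X]) : ∃ b : ℤ[X], sub p t₁ a = C (a.eval t₁) +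
    (p : ℤ[X]) * X * C ((derivative a).eval t₁) + (p : ℤ[X]) ^ 2 * b := by
  obtain ⟨k, hk⟩ := (a.map (C : ℤ →+* ℤ[X])).binomExpansion (C t₁) ((p : ℤ[X]) * X)
  refine ⟨k * X ^ 2, ?_⟩
  have h1 : sub p t₁ a = (a.map (C : ℤ →+* ℤ[X])).eval (C t₁ + (p : ℤ[X]) * X) := by
    unfold sub
    rw [coe_eval₂RingHom, eval_map]
  have h2 : ∀ b : ℤ[X], (b.map (C : ℤ →+* ℤ[X])).eval (C t₁) = C (b.eval t₁) := by
    intro b
    rw [eval_map, eval₂_at_apply]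
  rw [h1, hk, h2, derivative_map, h2]
  ring

/-- Taylor expansion -/
theorem taylor (p : ℕ) (t₁ : ℤ) (P : ℤ[X][X]) : ∃ R : ℤ[X][X], P.map (sub p t₁) =
    (spec t₁ P).map C + (p : ℤ[X][X]) * (C X * (spec t₁ (dT P)).map C) + (p : ℤ[X][X]) ^ 2 * R := by
  induction P using Polynomial.induction_on' with
  | add P Q hP hQ =>
    obtain ⟨R, hR⟩ := hP
    obtain ⟨R', hR'⟩ := hQ
    refine ⟨R + R', ?_⟩
    rw [Polynomial.map_add, hR, hR', map_add]
    unfold spec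
    rw [Polynomial.map_add, Polynomial.map_add, Polynomial.map_add, Polynomial.map_add]
    ring
  | monomial n a =>
    obtain ⟨b, hb⟩ := sub_taylor p t₁ a
    refine ⟨monomial n b, ?_⟩
    rw [dT_monomial, map_monomial, hb]
    unfold spec
    rw [map_monomial, map_monomial, map_monomial, map_monomial]
    have e1 : ∀ c : ℤ[X], (eval₂RingHom (Int.castRingHom ℤ) t₁) c = c.eval t₁ := by
      intro c
      rw [coe_eval₂RingHom]
      rfl
    rw [e1, e1]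
    have e2 : ∀ c : ℤ[X], (monomial n c : ℤ[X][X]) = C c * X ^ n := fun c => (C_mul_X_pow_eq_monomial).symm
    rw [e2, e2, e2, e2, C_add, C_add, C_mul, C_mul, C_mul, C_pow]
    simp only [map_natCast]
    ring

theorem sub_eval (p : ℕ) (t₁ m : ℤ) (P : ℤ[X][X]) : (P.map (sub p t₁)).map (evalRingHom m) =
    spec (t₁ + p * m) P := by
  unfold spec
  rw [Polynomial.map_map]
  congr 1
  apply Polynomial.ringHom_ext
  · intro a; simp [sub]
  · simp [sub]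

/-- `(x + p y) ^ p` modulo `p ^ 3` -/
theorem add_pow_p {R : Type} [CommRing R] {p : ℕ} (hp : p.Prime) (hp2 : p ≠ 2) (x y : R) :
    ∃ b : R, (x + p * y) ^ p = x ^ p + p ^ 2 * (x ^ (p - 1) * y) + p ^ 3 * b := by
  have hp3 : 3 ≤ p := by
    have := hp.two_le
    omega
  obtain ⟨q, rfl⟩ : ∃ q, p = q + 3 := ⟨p - 3, by omega⟩
  rw [add_comm x, add_pow]
  rw [Finset.sum_range_succ, Finset.sum_range_succ', Finset.sum_range_succ']
  have hdv : ∀ k ∈ Finset.range (q + 1), ((q + 3 : ℕ) : ℕ) ∣ (q + 3).choose (k + 1 + 1) := by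
    intro k hk
    rw [Finset.mem_range] at hk
    exact hp.dvd_choose_self (by omega) (by omega)
  choose! g hg using hdv
  refine ⟨∑ k ∈ Finset.range (q + 1), ((q + 3 : ℕ) : R) ^ k * y ^ (k + 2) * x ^ (q + 3 - (k + 1 + 1)) * (g k : R) +
    ((q + 3 : ℕ) : R) ^ q * y ^ (q + 3), ?_⟩
  have h1 : ∑ k ∈ Finset.range (q + 1), (((q + 3 : ℕ) : R) * y) ^ (k + 1 + 1) * x ^ (q + 3 - (k + 1 + 1)) *
      (((q + 3).choose (k + 1 + 1) : ℕ) : R) = ((q + 3 : ℕ) : R) ^ 3 *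
      ∑ k ∈ Finset.range (q + 1), ((q + 3 : ℕ) : R) ^ k * y ^ (k + 2) * x ^ (q + 3 - (k + 1 + 1)) * (g k : R) := by
    rw [Finset.mul_sum]
    refine Finset.sum_congr rfl fun k hk => ?_
    rw [hg k hk, Nat.cast_mul, mul_pow]
    generalize ((q + 3 : ℕ) : R) = P
    ring
  rw [h1]
  simp only [Nat.choose_self, zero_add, pow_one, Nat.choose_one_right, pow_zero, Nat.choose_zero_right,
    Nat.sub_self, Nat.sub_zero, Nat.cast_one, mul_one, one_mul]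
  have h2 : (((q + 3 : ℕ) : R) * y) ^ (q + 3) = ((q + 3 : ℕ) : R) ^ 3 * (((q + 3 : ℕ) : R) ^ q * y ^ (q + 3)) := by
    rw [mul_pow, pow_add]; ring
  rw [h2]
  ring

/-- `(x + p y) ^ (p M)` modulo `p ^ 3` -/
theorem add_pow_pM {R : Type} [CommRing R] {p : ℕ} (hp : p.Prime) (hp2 : p ≠ 2) {M : ℕ} (hM : 0 < M) (x y : R) :
    ∃ b : R, (x + p * y) ^ (p * M) = x ^ (p * M) + p ^ 2 * (M * x ^ (p * M - 1) * y) + p ^ 3 * b := by
  obtain ⟨b, hb⟩ := add_pow_p hp hp2 x y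
  obtain ⟨k, hk⟩ := (X ^ M : R[X]).binomExpansion (x ^ p) ((p : R) ^ 2 * (x ^ (p - 1) * y + p * b))
  rw [eval_pow, eval_X, eval_pow, eval_X, derivative_X_pow] at hk
  simp only [eval_mul, eval_C, eval_pow, eval_X] at hk
  refine ⟨M * (x ^ p) ^ (M - 1) * b + k * p * (x ^ (p - 1) * y + p * b) ^ 2, ?_⟩
  have e1 : (x + p * y) ^ (p * M) = (x ^ p + (p : R) ^ 2 * (x ^ (p - 1) * y + p * b)) ^ M := by
    rw [pow_mul, hb]
    ring
  have e2 : (x ^ p) ^ (M - 1) * x ^ (p - 1) = x ^ (p * M - 1) := by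
    rw [← pow_mul, ← pow_add]
    congr 1
    obtain ⟨M', rfl⟩ : ∃ M', M = M' + 1 := ⟨M - 1, by omega⟩
    have := hp.pos
    rw [Nat.add_sub_cancel, Nat.mul_add, mul_one]
    omega
  rw [e1, hk, ← e2, pow_mul]
  ring

section

variable {p : ℕ} [hp : Fact p.Prime]

/-- the powers of a unit in the family -/
theorem gpow {F F₁ U₀ U₁ V A A' : ℤ[X]} {FS US R R' : ℤ[X][X]} (hp5 : 5 ≤ p) (M k : ℕ) (hM : 0 < M)
    (hFS : FS = F.map C + (p : ℤ[X][X]) * (C X * F₁.map C) + (p : ℤ[X][X]) ^ 2 * R)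
    (hUS : US = U₀.map C + (p : ℤ[X][X]) * (C X * U₁.map C) + (p : ℤ[X][X]) ^ 2 * R')
    (h : U₀ ^ (p * M) = 1 + (p : ℤ[X]) * V + F ^ 3 * A + (p : ℤ[X]) * F ^ 2 * A') :
    ∃ (T : ℤ[X]) (b c : ℤ[X][X]), T.map (Int.castRingHom (ZMod p)) = V.map (Int.castRingHom (ZMod p)) ∧
      US ^ (p * M * p ^ k) = 1 + (p : ℤ[X][X]) ^ (k + 1) * (T.map C +
        (p : ℤ[X][X]) * (C X * ((M : ℤ[X]) * U₀ ^ (p * M - 1) * U₁).map C) + (p : ℤ[X][X]) ^ 2 * b) + FS * c := by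
  obtain ⟨a, ha⟩ := pow_exp5 hp.out hp5 k
  set g : ℤ[X][X] := C X * F₁.map C + (p : ℤ[X][X]) * R with hg
  have hFF : F.map C = FS - (p : ℤ[X][X]) * g := by
    rw [hFS, hg]; ring
  set G : ℤ[X] := (M : ℤ[X]) * U₀ ^ (p * M - 1) * U₁ with hG
  obtain ⟨b₀, hb₀⟩ := add_pow_pM hp.out (by omega) hM (U₀.map (C : ℤ →+* ℤ[X]))
    (C X * U₁.map C + (p : ℤ[X][X]) * R')
  have hUS' : US = U₀.map C + (p : ℤ[X][X]) * (C X * U₁.map C + (p : ℤ[X][X]) * R') := by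
    rw [hUS]; ring
  set w := ((FS) ^ 2 - 3 * FS * (p * g) +
        3 * (p * g) ^ 2) * A.map C + (p : ℤ[X][X]) * (FS - 2 * (p * g)) * A'.map C with hw
  set y₀ : ℤ[X][X] := - (g ^ 3 * A.map C) + g ^ 2 * A'.map C +
    (M : ℤ[X][X]) * (U₀.map C) ^ (p * M - 1) * R' + b₀ with hy₀
  have h1 : US ^ (p * M) = 1 + (p : ℤ[X][X]) * (V.map C + (p : ℤ[X][X]) * (C X * G.map C) +
      (p : ℤ[X][X]) ^ 2 * y₀) + FS * w := by
    have h2 := congrArg (Polynomial.map (C : ℤ →+* ℤ[X])) h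
    simp only [Polynomial.map_pow, Polynomial.map_add, Polynomial.map_mul, Polynomial.map_one,
      Polynomial.map_natCast] at h2
    have h3 : G.map C = (M : ℤ[X][X]) * (U₀.map C) ^ (p * M - 1) * U₁.map C := by
      rw [hG]
      simp only [Polynomial.map_pow, Polynomial.map_mul, Polynomial.map_natCast]
    rw [hUS', hb₀, h2, hFF, h3]
    ring
  set v := V.map (C : ℤ →+* ℤ[X]) + (p : ℤ[X][X]) * (C X * G.map C) + (p : ℤ[X][X]) ^ 2 * y₀ with hv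
  obtain ⟨b, hb⟩ := ha v
  have h3 : FS ∣ (1 + (p : ℤ[X][X]) * v + FS * w) ^ (p ^ k) - (1 + (p : ℤ[X][X]) * v) ^ (p ^ k) := by
    have := sub_dvd_pow_sub_pow (1 + (p : ℤ[X][X]) * v + FS * w) (1 + (p : ℤ[X][X]) * v) (p ^ k)
    refine dvd_trans ⟨w, ?_⟩ this
    ring
  obtain ⟨c, hc⟩ := h3
  refine ⟨V + (p : ℤ[X]) * ((a : ℤ[X]) * V ^ 2), y₀ + (a : ℤ[X][X]) * (2 * V.map C * (C X * G.map C +
    (p : ℤ[X][X]) * y₀) + (p : ℤ[X][X]) * (C X * G.map C + (p : ℤ[X][X]) * y₀) ^ 2) + b, c, ?_, ?_⟩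
  · rw [Polynomial.map_add, map_p, add_zero]
  · rw [pow_mul, h1, sub_eq_iff_eq_add.1 hc, hb]
    simp only [Polynomial.map_add, Polynomial.map_mul, Polynomial.map_natCast, Polynomial.map_pow,
      Polynomial.map_intCast]
    rw [hv]
    ring

/-- the remainder of `T + p s G + p ^ 2 b` modulo the polynomial of the family -/
theorem gE_mod {F F₁ : ℤ[X]} {FS R : ℤ[X][X]} (hF : F.Monic) (hFSm : FS.Monic) (hFSd : FS.degree = F.degree)
    (hFS : FS = F.map C + (p : ℤ[X][X]) * (C X * F₁.map C) + (p : ℤ[X][X]) ^ 2 * R) (T G : ℤ[X]) (b : ℤ[X][X]) :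
    ∃ z : ℤ[X][X], (T.map C + (p : ℤ[X][X]) * (C X * G.map C) + (p : ℤ[X][X]) ^ 2 * b) %ₘ FS =
      (T %ₘ F).map C + (p : ℤ[X][X]) * (C X * ((G - F₁ * (T /ₘ F)) %ₘ F).map C) + (p : ℤ[X][X]) ^ 2 * z := by
  set Q := T /ₘ F with hQ
  set S := (G - F₁ * Q) /ₘ F with hS
  set g : ℤ[X][X] := C X * F₁.map C + (p : ℤ[X][X]) * R with hg
  have hFF : F.map (C : ℤ →+* ℤ[X]) = FS - (p : ℤ[X][X]) * g := by
    rw [hFS, hg]; ring
  have h1 : T.map (C : ℤ →+* ℤ[X]) = (T %ₘ F).map C + F.map C * Q.map C := by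
    conv_lhs => rw [← modByMonic_add_div T F]
    rw [Polynomial.map_add, Polynomial.map_mul]
  have h2 : (G - F₁ * Q).map (C : ℤ →+* ℤ[X]) = ((G - F₁ * Q) %ₘ F).map C + F.map C * S.map C := by
    conv_lhs => rw [← modByMonic_add_div (G - F₁ * Q) F]
    rw [Polynomial.map_add, Polynomial.map_mul]
  have h3 : T.map C + (p : ℤ[X][X]) * (C X * G.map C) + (p : ℤ[X][X]) ^ 2 * b =
      FS * (Q.map C + (p : ℤ[X][X]) * (C X * S.map C)) +
      (((T %ₘ F).map C + (p : ℤ[X][X]) * (C X * ((G - F₁ * Q) %ₘ F).map C)) +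
      (p : ℤ[X][X]) ^ 2 * (- (R * Q.map C) - C X * g * S.map C + b)) := by
    rw [Polynomial.map_sub, Polynomial.map_mul] at h2
    rw [hFF] at h1 h2
    linear_combination h1 + ((p : ℤ[X][X]) * C X) * h2
  have hpp : ∀ Y : ℤ[X][X], ((p : ℤ[X][X]) ^ 2 * Y) %ₘ FS = (p : ℤ[X][X]) ^ 2 * (Y %ₘ FS) := by
    intro Y
    have e1 : ∀ Y : ℤ[X][X], (p : ℤ[X][X]) ^ 2 * Y = ((p : ℤ[X]) ^ 2) • Y := by
      intro Y
      rw [smul_eq_C_mul, C_pow]; simp
    rw [e1, smul_modByMonic, e1]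
  have hdeg : ∀ Y : ℤ[X], ((Y %ₘ F).map (C : ℤ →+* ℤ[X])).degree < FS.degree := by
    intro Y
    rw [degree_map_eq_of_injective C_injective, hFSd]
    exact degree_modByMonic_lt _ hF
  refine ⟨(- (R * Q.map C) - C X * g * S.map C + b) %ₘ FS, ?_⟩
  rw [h3, add_modByMonic, (modByMonic_eq_zero_iff_dvd hFSm).2 (dvd_mul_right _ _), zero_add, add_modByMonic,
    hpp]
  congr 1
  rw [modByMonic_eq_self_iff hFSm]
  refine (degree_add_le _ _).trans_lt (max_lt (hdeg _) ?_)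
  have e2 : (p : ℤ[X][X]) * (C X * ((G - F₁ * Q) %ₘ F).map C) = C ((p : ℤ[X]) * X) * ((G - F₁ * Q) %ₘ F).map C := by
    rw [C_mul]; simp; ring
  rw [e2]
  exact (degree_C_mul_le' _ _).trans_lt (hdeg _)

end

end

end Pool.Agent.Helper82.LP
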