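import Mathlib
import Pool.Agent.Helper82.LP.G1

set_option autoImplicit false

/-! # General families: the determinants at exceptional points -/

namespace Pool.Agent.Helper82.LP

open Polynomial
open Pool.Agent.H33R4 (IsLog PGood spec)

noncomputable section

variable {p : ℕ} [hp : Fact p.Prime]

/-- **the determinant at an exceptional point is divisible by a high power of `p`** (general families) -/
theorem gdet_dvd {r n : ℕ} {ρ : ℤ[X]} {FS : ℤ[X][X]} (hFS : FS.Monic) (hρ : ρ.Monic)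
    (US : Fin r → ℤ[X][X]) (M k : ℕ) (E c : Fin r → ℤ[X][X])
    (hE : ∀ i, (US i) ^ (M * p ^ (k + 2)) = 1 + (p : ℤ[X][X]) ^ (k + 2 + 1) * E i + FS * c i)
    (S S' : Fin r → ℤ[X][X]) (hS : ∀ i, E i %ₘ FS = ρ.map C * S i + (p : ℤ[X][X]) * S' i)
    (hS' : ∀ i, (S' i).degree < (ρ.map (C : ℤ →+* ℤ[X])).degree)
    (σ : Fin r → Fin n ⊕ Fin n) (m : ℤ) (w : Fin r → ℤ_[p]) (G : ℤ_[p][X])
    (hG : G = (FS.map (evalRingHom m)).map (Int.castRingHom ℤ_[p]))
    (tf : ∀ b : AdjoinRoot G, (p : AdjoinRoot G) * b = 0 → b = 0)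
    (l : Fin r → AdjoinRoot G)
    (hl : ∀ i, IsLog p ((AdjoinRoot.mk G (((US i).map (evalRingHom m)).map (Int.castRingHom ℤ_[p]))) ^ M) (l i))
    (hrel : ∑ i, AdjoinRoot.of G (w i) * l i = 0) (i : Fin r) :
    (p : ℤ_[p]) ^ k ∣ w i * (((Matrix.det (Matrix.of fun i j : Fin r =>
      Sum.elim (fun l : Fin n => (S i).coeff l) (fun l : Fin n => (S' i).coeff l) (σ j))).eval m : ℤ) :
        ℤ_[p]) := by
  classical
  set K := k + 2 with hK
  set Fm : ℤ[X] := FS.map (evalRingHom m) with hFm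
  have hFmm : Fm.Monic := hFS.map _
  have hGm : G.Monic := by rw [hG]; exact hFmm.map _
  set φ : ℤ[X] →+* AdjoinRoot G := (AdjoinRoot.mk G).comp (mapRingHom (Int.castRingHom ℤ_[p])) with hφ
  have hφa : ∀ Q : ℤ[X], φ Q = AdjoinRoot.mk G (Q.map (Int.castRingHom ℤ_[p])) := fun Q => rfl
  have hφF : φ Fm = 0 := by
    rw [hφa, ← hG, AdjoinRoot.mk_self]
  have hφp : φ (p : ℤ[X]) = (p : AdjoinRoot G) := map_natCast φ p
  -- the powers
  have hEm : ∀ i, (φ ((US i).map (evalRingHom m))) ^ (M * p ^ K) = 1 + (p : AdjoinRoot G) ^ (K + 1) *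
      φ ((E i).map (evalRingHom m)) := by
    intro i
    have h1 := congrArg (Polynomial.map (evalRingHom m)) (hE i)
    simp only [Polynomial.map_pow, Polynomial.map_add, Polynomial.map_mul, Polynomial.map_one,
      Polynomial.map_natCast] at h1
    have h2 := congrArg φ h1
    rw [← hFm, map_pow, map_add, map_add, map_mul, map_mul, map_pow, map_one, hφF, zero_mul, add_zero,
      hφp] at h2
    exact h2
  have h2 : ∀ i, (p : AdjoinRoot G) ^ K ∣ (p : AdjoinRoot G) * φ ((E i).map (evalRingHom m)) - l i := by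
    intro i
    have h3 := hl i K
    rw [← hφa, ← pow_mul, hEm] at h3
    apply tf_cancel tf K K
    have e1 : (p : AdjoinRoot G) ^ K * ((p : AdjoinRoot G) * φ ((E i).map (evalRingHom m)) - l i) =
        1 + (p : AdjoinRoot G) ^ (K + 1) * φ ((E i).map (evalRingHom m)) - 1 -
          (p : AdjoinRoot G) ^ K * l i := by ring
    rw [e1, ← two_mul]
    exact h3
  have h4 : (p : AdjoinRoot G) ^ (k + 1) ∣ ∑ i, AdjoinRoot.of G (w i) * φ ((E i).map (evalRingHom m)) := by
    apply tf_cancel tf 1 (k + 1)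
    rw [show 1 + (k + 1) = K by omega, pow_one]
    have e1 : (p : AdjoinRoot G) * ∑ i, AdjoinRoot.of G (w i) * φ ((E i).map (evalRingHom m)) =
        ∑ i, AdjoinRoot.of G (w i) * ((p : AdjoinRoot G) * φ ((E i).map (evalRingHom m)) - l i) +
          ∑ i, AdjoinRoot.of G (w i) * l i := by
      rw [Finset.mul_sum, ← Finset.sum_add_distrib]
      exact Finset.sum_congr rfl fun i _ => by ring
    rw [e1, hrel, add_zero]
    exact Finset.dvd_sum fun i _ => Dvd.dvd.mul_left (h2 i) _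
  -- the remainders
  set R : Fin r → ℤ[X] := fun i => (E i).map (evalRingHom m) %ₘ Fm with hR
  have hφR : ∀ i, φ ((E i).map (evalRingHom m)) = φ (R i) := by
    intro i
    have := modByMonic_add_div ((E i).map (evalRingHom m)) Fm
    conv_lhs => rw [← this]
    rw [map_add, map_mul, hφF, zero_mul, add_zero]
  have hR2 : ∀ i, R i = ρ * (S i).map (evalRingHom m) + C (p : ℤ) * (S' i).map (evalRingHom m) := by
    intro i
    have e1 : R i = (E i %ₘ FS).map (evalRingHom m) := by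
      rw [hR]
      simp only
      rw [hFm, ← map_modByMonic _ hFS]
    rw [e1, hS, Polynomial.map_add, Polynomial.map_mul, Polynomial.map_mul, map_C_eval,
      Polynomial.map_natCast]
    simp
  have h5 : (p : AdjoinRoot G) ^ (k + 1) ∣
      AdjoinRoot.mk G (∑ i, C (w i) * (R i).map (Int.castRingHom ℤ_[p])) := by
    rw [map_sum]
    simp only [map_mul, AdjoinRoot.mk_C]
    have e1 : ∀ i, AdjoinRoot.mk G ((R i).map (Int.castRingHom ℤ_[p])) = φ ((E i).map (evalRingHom m)) :=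
      fun i => by rw [hφR]; rfl
    simp only [e1]
    exact h4
  have hdeg : (∑ i, C (w i) * (R i).map (Int.castRingHom ℤ_[p])).degree < G.degree := by
    refine (degree_sum_le _ _).trans_lt ?_
    rw [Finset.sup_lt_iff (by rw [bot_lt_iff_ne_bot, Ne, degree_eq_bot]; exact hGm.ne_zero)]
    intro i _
    refine lt_of_le_of_lt (degree_C_mul_le' _ _) ?_
    rw [hG, hFmm.degree_map]
    exact (degree_map_le).trans_lt (degree_modByMonic_lt _ hFmm)
  have e2 : AdjoinRoot.of G ((p : ℤ_[p]) ^ (k + 1)) = (p : AdjoinRoot G) ^ (k + 1) := by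
    rw [map_pow, map_natCast]
  have h6 : C ((p : ℤ_[p]) ^ (k + 1)) ∣ ∑ i, C (w i) * (R i).map (Int.castRingHom ℤ_[p]) := by
    rw [C_dvd_iff_dvd_coeff]
    intro l
    exact dvd_coeff hGm hdeg ((p : ℤ_[p]) ^ (k + 1)) (by rw [e2]; exact h5) l
  obtain ⟨Q, hQ⟩ := h6
  set θ : ℤ →+* ℤ_[p] := Int.castRingHom ℤ_[p] with hθ
  set 𝒮 : ℤ_[p][X] := ∑ i, C (w i) * ((S i).map (evalRingHom m)).map θ with h𝒮
  set 𝒮' : ℤ_[p][X] := ∑ i, C (w i) * ((S' i).map (evalRingHom m)).map θ with h𝒮'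
  have h7 : ρ.map θ * 𝒮 + C (p : ℤ_[p]) * 𝒮' = C ((p : ℤ_[p]) ^ (k + 1)) * Q := by
    rw [← hQ, h𝒮, h𝒮', Finset.mul_sum, Finset.mul_sum, ← Finset.sum_add_distrib]
    refine Finset.sum_congr rfl fun i _ => ?_
    rw [hR2, Polynomial.map_add, Polynomial.map_mul, Polynomial.map_mul, Polynomial.map_C]
    have : θ (p : ℤ) = (p : ℤ_[p]) := by rw [hθ]; simp
    rw [this]
    ring
  have hρm : (ρ.map θ).Monic := hρ.map _
  have h8 : (C (p : ℤ_[p]) * 𝒮').degree < (ρ.map θ).degree := by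
    refine (degree_C_mul_le' _ _).trans_lt ?_
    rw [h𝒮']
    refine (degree_sum_le _ _).trans_lt ?_
    rw [Finset.sup_lt_iff (by rw [bot_lt_iff_ne_bot, Ne, degree_eq_bot]; exact hρm.ne_zero)]
    intro i _
    refine (degree_C_mul_le' _ _).trans_lt ?_
    refine (degree_map_le).trans_lt ?_
    refine (degree_map_le).trans_lt ?_
    rw [hρ.degree_map]
    have := hS' i
    rwa [degree_map_eq_of_injective C_injective] at this
  obtain ⟨h9, h10⟩ := dvd_div_mod hρm h8 _ h7
  have hp0 : (p : ℤ_[p]) ≠ 0 := by exact_mod_cast hp.out.ne_zero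
  have h11 : ∀ l, (p : ℤ_[p]) ^ k ∣ 𝒮.coeff l := fun l => (pow_dvd_pow _ (Nat.le_succ k)).trans (h9 l)
  have h12 : ∀ l, (p : ℤ_[p]) ^ k ∣ 𝒮'.coeff l := by
    intro l
    have := h10 l
    rw [coeff_C_mul, pow_succ', mul_dvd_mul_iff_left hp0] at this
    exact this
  -- the matrix
  set 𝒜 : Matrix (Fin r) (Fin r) ℤ_[p] := Matrix.of fun i j =>
    Sum.elim (fun l : Fin n => θ (((S i).coeff l).eval m)) (fun l : Fin n => θ (((S' i).coeff l).eval m)) (σ j)
    with h𝒜
  have hdet : (((Matrix.det (Matrix.of fun i j : Fin r =>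
      Sum.elim (fun l : Fin n => (S i).coeff l) (fun l : Fin n => (S' i).coeff l) (σ j))).eval m : ℤ) :
        ℤ_[p]) = 𝒜.det := by
    rw [← eq_intCast θ, ← coe_evalRingHom, RingHom.map_det, RingHom.map_det, h𝒜]
    congr 1
    ext1 i j
    simp only [RingHom.mapMatrix_apply, Matrix.map_apply, Matrix.of_apply, coe_evalRingHom]
    rcases σ j with l | l <;> rfl
  have h13 : ∀ j, (p : ℤ_[p]) ^ k ∣ (Matrix.vecMul w 𝒜) j := by
    intro j
    simp only [Matrix.vecMul, dotProduct, h𝒜, Matrix.of_apply]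
    rcases σ j with l | l
    · have := h11 l
      rw [h𝒮, finsetSum_coeff] at this
      simp only [coeff_C_mul, coeff_map, coe_evalRingHom] at this
      exact this
    · have := h12 l
      rw [h𝒮', finsetSum_coeff] at this
      simp only [coeff_C_mul, coeff_map, coe_evalRingHom] at this
      exact this
  have h14 : Matrix.vecMul (Matrix.vecMul w 𝒜) 𝒜.adjugate = 𝒜.det • w := by
    rw [Matrix.vecMul_vecMul, Matrix.mul_adjugate, Matrix.vecMul_smul, Matrix.vecMul_one]
  have h15 := congrFun h14 i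
  rw [hdet, mul_comm, ← smul_eq_mul, ← Pi.smul_apply, ← h15]
  simp only [Matrix.vecMul, dotProduct]
  exact Finset.dvd_sum fun j _ => Dvd.dvd.mul_right (h13 j) _

/-- **independence** for general units -/
theorem gindep {r : ℕ} {F : ℤ[X]} (hF : F.Monic) {ρ F₁ : ℤ[X]}
    (hρ3 : F.map (Int.castRingHom (ZMod p)) ∣ ρ.map (Int.castRingHom (ZMod p)) *
        derivative (F.map (Int.castRingHom (ZMod p)))) {M : ℕ} (hM : 0 < M) (hpM : ¬ p ∣ M)
    (U₀ U₁ W₀ V A A' : Fin r → ℤ[X])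
    (h : ∀ i, U₀ i ^ (p * M) = 1 + (p : ℤ[X]) * V i + F ^ 3 * A i + (p : ℤ[X]) * F ^ 2 * A' i)
    (hUW : ∀ i, F ∣ U₀ i * W₀ i - 1)
    (hind : ∀ c : Fin r → ZMod p, F.map (Int.castRingHom (ZMod p)) ∣
      ∑ i, C (c i) * ((W₀ i).map (Int.castRingHom (ZMod p)) *
        (derivative (F.map (Int.castRingHom (ZMod p))) * (U₁ i).map (Int.castRingHom (ZMod p)) -
          F₁.map (Int.castRingHom (ZMod p)) * derivative ((U₀ i).map (Int.castRingHom (ZMod p))))) → c = 0)
    (c : Fin r → ZMod p)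
    (h1 : ∑ i, C (c i) * ((V i).map (Int.castRingHom (ZMod p)) %ₘ F.map (Int.castRingHom (ZMod p))) = 0)
    (h2 : ρ.map (Int.castRingHom (ZMod p)) ∣ ∑ i, C (c i) *
      (((M : ℤ[X]) * U₀ i ^ (p * M - 1) * U₁ i).map (Int.castRingHom (ZMod p)) -
      F₁.map (Int.castRingHom (ZMod p)) *
      ((V i).map (Int.castRingHom (ZMod p)) /ₘ F.map (Int.castRingHom (ZMod p))))) :
    c = 0 := by
  classical
  set φ := Int.castRingHom (ZMod p) with hφ
  have hFm : (F.map φ).Monic := hF.map _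
  have hpM1 : 1 ≤ p * M := Nat.mul_pos hp.out.pos hM
  set Q := ∑ i, C (c i) * ((V i).map φ /ₘ F.map φ) with hQ
  have h3 : ∑ i, C (c i) * (V i).map φ = F.map φ * Q := by
    have e1 : ∀ i, C (c i) * (V i).map φ = C (c i) * ((V i).map φ %ₘ F.map φ) +
        F.map φ * (C (c i) * ((V i).map φ /ₘ F.map φ)) := by
      intro i
      conv_lhs => rw [← modByMonic_add_div ((V i).map φ) (F.map φ)]
      ring
    rw [Finset.sum_congr rfl fun i _ => e1 i, Finset.sum_add_distrib, h1, zero_add, Finset.mul_sum]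
  set 𝒰 := ∑ i, C (c i) * ((M : (ZMod p)[X]) * ((U₀ i).map φ ^ (p * M - 1) * derivative ((U₀ i).map φ))) with h𝒰
  set 𝒰₁ := ∑ i, C (c i) * ((M : (ZMod p)[X]) * ((U₀ i).map φ ^ (p * M - 1) * (U₁ i).map φ)) with h𝒰₁
  -- (I)
  have hI : F.map φ ∣ 𝒰 - derivative (F.map φ) * Q := by
    have e1 : F.map φ ∣ ∑ i, C (c i) * ((M : (ZMod p)[X]) * ((U₀ i).map φ ^ (p * M - 1) *
        derivative ((U₀ i).map φ)) - derivative ((V i).map φ)) :=
      Finset.dvd_sum fun i _ => Dvd.dvd.mul_left (form_deriv hF (h i)) _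
    have e2 : ∑ i, C (c i) * ((M : (ZMod p)[X]) * ((U₀ i).map φ ^ (p * M - 1) *
        derivative ((U₀ i).map φ)) - derivative ((V i).map φ)) = 𝒰 - derivative (∑ i, C (c i) * (V i).map φ) := by
      rw [derivative_sum, h𝒰, ← Finset.sum_sub_distrib]
      refine Finset.sum_congr rfl fun i _ => ?_
      rw [derivative_mul, derivative_C, zero_mul, zero_add]
      ring
    rw [e2, h3, derivative_mul] at e1
    have e3 := dvd_add e1 (dvd_mul_right (F.map φ) (derivative Q))
    have e4 : 𝒰 - (derivative (F.map φ) * Q + F.map φ * derivative Q) + F.map φ * derivative Q =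
        𝒰 - derivative (F.map φ) * Q := by ring
    rwa [e4] at e3
  -- (II)
  have hII : F.map φ ∣ derivative (F.map φ) * (𝒰₁ - F₁.map φ * Q) := by
    have e1 : ∑ i, C (c i) * (((M : ℤ[X]) * U₀ i ^ (p * M - 1) * U₁ i).map φ -
      F₁.map φ * ((V i).map φ /ₘ F.map φ)) = 𝒰₁ - F₁.map φ * Q := by
      rw [h𝒰₁, hQ, Finset.mul_sum, ← Finset.sum_sub_distrib]
      refine Finset.sum_congr rfl fun i _ => ?_
      rw [Polynomial.map_mul, Polynomial.map_mul, Polynomial.map_pow, Polynomial.map_natCast]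
      ring
    rw [e1] at h2
    obtain ⟨y, hy⟩ := h2
    obtain ⟨y', hy'⟩ := hρ3
    refine ⟨y' * y, ?_⟩
    rw [hy]
    linear_combination y * hy'
  have hIII : F.map φ ∣ derivative (F.map φ) * 𝒰₁ - F₁.map φ * 𝒰 := by
    have e1 := dvd_sub hII (Dvd.dvd.mul_left hI (F₁.map φ))
    have e2 : derivative (F.map φ) * (𝒰₁ - F₁.map φ * Q) - F₁.map φ * (𝒰 - derivative (F.map φ) * Q) =
        derivative (F.map φ) * 𝒰₁ - F₁.map φ * 𝒰 := by ring
    rwa [e2] at e1
  have hM0 : ((M : ℕ) : ZMod p) ≠ 0 := by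
    rw [Ne, ZMod.natCast_eq_zero_iff]
    exact hpM
  apply hind
  -- replace the powers by the inverses
  have hIV : F.map φ ∣ C (M : ZMod p) * ∑ i, C (c i) * ((W₀ i).map φ *
        (derivative (F.map φ) * (U₁ i).map φ - F₁.map φ * derivative ((U₀ i).map φ))) := by
    have e1 : ∀ i, F.map φ ∣ (U₀ i).map φ ^ (p * M - 1) - (W₀ i).map φ := by
      intro i
      have e3 : F.map φ ∣ ((U₀ i).map φ) ^ (p * M) - 1 := by
        have := congrArg (Polynomial.map φ) (h i)
        rw [Polynomial.map_pow] at this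
        rw [this, Polynomial.map_add, Polynomial.map_add, Polynomial.map_add, map_p, Polynomial.map_mul,
          mul_assoc, map_p, Polynomial.map_pow, Polynomial.map_one]
        refine ⟨F.map φ ^ 2 * (A i).map φ, ?_⟩
        ring
      have e4 : F.map φ ∣ (U₀ i).map φ * (W₀ i).map φ - 1 := by
        have := Polynomial.map_dvd φ (hUW i)
        rwa [Polynomial.map_sub, Polynomial.map_mul, Polynomial.map_one] at this
      have e5 : ((U₀ i).map φ) ^ (p * M) = (U₀ i).map φ ^ (p * M - 1) * (U₀ i).map φ := by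
        rw [← pow_succ]
        congr 1
        omega
      rw [e5] at e3
      have e6 := dvd_sub (Dvd.dvd.mul_left e3 ((W₀ i).map φ)) (Dvd.dvd.mul_left e4 ((U₀ i).map φ ^ (p * M - 1)))
      have e7 : (W₀ i).map φ * ((U₀ i).map φ ^ (p * M - 1) * (U₀ i).map φ - 1) -
          (U₀ i).map φ ^ (p * M - 1) * ((U₀ i).map φ * (W₀ i).map φ - 1) =
          (U₀ i).map φ ^ (p * M - 1) - (W₀ i).map φ := by ring
      rwa [e7] at e6
    have e2 : C (M : ZMod p) * ∑ i, C (c i) * ((W₀ i).map φ *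
        (derivative (F.map φ) * (U₁ i).map φ - F₁.map φ * derivative ((U₀ i).map φ))) =
        (derivative (F.map φ) * 𝒰₁ - F₁.map φ * 𝒰) - ∑ i, (C (M : ZMod p) * C (c i) *
        (derivative (F.map φ) * (U₁ i).map φ - F₁.map φ * derivative ((U₀ i).map φ))) *
          ((U₀ i).map φ ^ (p * M - 1) - (W₀ i).map φ) := by
      have e5 : (C (M : ZMod p) : (ZMod p)[X]) = (M : (ZMod p)[X]) := by simp
      rw [h𝒰, h𝒰₁, Finset.mul_sum, Finset.mul_sum, Finset.mul_sum, ← Finset.sum_sub_distrib,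
        ← Finset.sum_sub_distrib]
      refine Finset.sum_congr rfl fun i _ => ?_
      rw [e5]
      ring
    rw [e2]
    exact dvd_sub hIII (Finset.dvd_sum fun i _ => Dvd.dvd.mul_left (e1 i) _)
  exact ((isUnit_C.2 (isUnit_iff_ne_zero.2 hM0)).dvd_mul_left).1 hIV

end

end Pool.Agent.Helper82.LP
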