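import Mathlib
import Pool.Agent.Helper82.LP.G2

set_option autoImplicit false

/-! # General families: the determinants of a class modulo `p` -/

namespace Pool.Agent.Helper82.LP

open Polynomial
open Pool.Agent.H33R4 (IsLog PGood spec spec_monic)

noncomputable section

variable {p : ℕ} [hp : Fact p.Prime]

/-- the numerator of the logarithmic derivative of a unit: `w (f_Y u_T - f_T u_Y)` -/
def dlog (f u w : ℤ[X][X]) : ℤ[X][X] := w * (derivative f * dT u - dT f * derivative u)

/-- **the determinants of a class** -/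
theorem gclass_det {r : ℕ} {f : ℤ[X][X]} (hf : f.Monic) (u w : Fin r → ℤ[X][X]) (huw : ∀ i, f ∣ u i * w i - 1)
    (hp5 : 5 ≤ p) (hn : 3 * f.natDegree ≤ p) (t₁ : ℤ)
    (hind : ∀ c : Fin r → ZMod p, (spec t₁ f).map (Int.castRingHom (ZMod p)) ∣
      ∑ i, C (c i) * (spec t₁ (dlog f (u i) (w i))).map (Int.castRingHom (ZMod p)) → c = 0) :
    ∃ M : ℕ, 0 < M ∧ (∀ i, (spec t₁ f).map (Int.castRingHom (ZMod p)) ∣
        ((spec t₁ (u i)).map (Int.castRingHom (ZMod p))) ^ M - 1) ∧
      ∀ k : ℕ, ∃ (D : ℤ[X]) (j₀ : ℕ), j₀ ≤ r ∧ ¬ (p : ℤ) ∣ D.coeff j₀ ∧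
      (∀ j, j₀ < j → (p : ℤ) ∣ D.coeff j) ∧
      ∀ (m : ℤ) (w : Fin r → ℤ_[p]) (G : ℤ_[p][X]),
        G = (spec (t₁ + p * m) f).map (Int.castRingHom ℤ_[p]) →
        (∀ b : AdjoinRoot G, (p : AdjoinRoot G) * b = 0 → b = 0) →
        ∀ l : Fin r → AdjoinRoot G,
        (∀ i, IsLog p ((AdjoinRoot.mk G ((spec (t₁ + p * m) (u i)).map (Int.castRingHom ℤ_[p]))) ^ M) (l i)) →
        ∑ i, AdjoinRoot.of G (w i) * l i = 0 → ∀ i, (p : ℤ_[p]) ^ k ∣ w i * ((D.eval m : ℤ) : ℤ_[p]) := by
  classical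
  set φ := Int.castRingHom (ZMod p) with hφ
  set F := spec t₁ f with hFd
  set F₁ := spec t₁ (dT f) with hF₁
  have hF : F.Monic := spec_monic t₁ hf
  have hFn : F.natDegree = f.natDegree := hf.natDegree_map _
  set FS := f.map (sub p t₁) with hFSd
  have hFSm : FS.Monic := hf.map _
  have hFSdeg : FS.degree = F.degree := by
    rw [degree_eq_natDegree hFSm.ne_zero, degree_eq_natDegree hF.ne_zero, hFn]
    congr 1
    exact hf.natDegree_map _
  obtain ⟨R, hFS⟩ := taylor p t₁ f
  rw [← hFSd, ← hFd, ← hF₁] at hFS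
  choose R' hUS using fun i => taylor p t₁ (u i)
  have hUW : ∀ i, F ∣ spec t₁ (u i) * spec t₁ (w i) - 1 := by
    intro i
    have := Polynomial.map_dvd (eval₂RingHom (Int.castRingHom ℤ) t₁) (huw i)
    rw [Polynomial.map_sub, Polynomial.map_mul, Polynomial.map_one] at this
    exact this
  have hPc : ∀ i, IsCoprime ((spec t₁ (u i)).map φ) (F.map φ) := by
    intro i
    obtain ⟨y, hy⟩ := hUW i
    refine ⟨(spec t₁ (w i)).map φ, - y.map φ, ?_⟩
    have := congrArg (Polynomial.map φ) hy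
    rw [Polynomial.map_sub, Polynomial.map_mul, Polynomial.map_mul, Polynomial.map_one] at this
    linear_combination this
  obtain ⟨ρ, hρ, hρF, hρF', M, hM, hpM, hform⟩ := exists_form (p := p) hF (by rw [hFn]; exact hn)
  choose V A A' hV hρV using fun i => hform (spec t₁ (u i)) (hPc i)
  refine ⟨p * M, Nat.mul_pos hp.out.pos hM, ?_, ?_⟩
  · intro i
    have := congrArg (Polynomial.map φ) (hV i)
    rw [Polynomial.map_pow] at this
    rw [this, Polynomial.map_add, Polynomial.map_add, Polynomial.map_add, map_p, Polynomial.map_mul,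
      mul_assoc, map_p, Polynomial.map_pow, Polynomial.map_one]
    refine ⟨F.map φ ^ 2 * (A i).map φ, ?_⟩
    ring
  intro k
  choose T b c hT hpow using fun i => gpow (p := p) hp5 M (k + 2) hM hFS (hUS i) (hV i)
  set G₁ : Fin r → ℤ[X] := fun i => (M : ℤ[X]) * spec t₁ (u i) ^ (p * M - 1) * spec t₁ (dT (u i)) with hG₁
  choose z hz using fun i => gE_mod (p := p) hF hFSm hFSdeg hFS (T i) (G₁ i) (b i)
  have hρFm : (ρ.map φ).Monic := hρ.map _
  have hFm : (F.map φ).Monic := hF.map _
  -- the part of the remainders divisible by `p`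
  have hW : ∀ i, ∃ W : ℤ[X], (T i %ₘ F) %ₘ ρ = (p : ℤ[X]) * W := by
    intro i
    apply map_eq_zero_dvd
    rw [map_modByMonic _ hρ, map_modByMonic _ hF, hT, modByMonic_eq_zero_iff_dvd hρFm]
    have h1 := modByMonic_add_div ((V i).map φ) (F.map φ)
    have h2 : (V i).map φ %ₘ F.map φ = (V i).map φ - F.map φ * ((V i).map φ /ₘ F.map φ) := by
      rw [eq_sub_iff_add_eq]; exact h1
    rw [h2]
    exact dvd_sub (hρV i) (Dvd.dvd.mul_right hρF _)
  choose W hW using hW
  have hpC : (p : ℤ[X]) = C (p : ℤ) := by simp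
  have hpi : (p : ℤ) ≠ 0 := by exact_mod_cast hp.out.ne_zero
  have hWd : ∀ i, (W i).degree < ρ.degree := by
    intro i
    have h1 : ((T i %ₘ F) %ₘ ρ).degree < ρ.degree := degree_modByMonic_lt _ hρ
    rw [hW, hpC, degree_C_mul hpi] at h1
    exact h1
  set ρC := ρ.map (C : ℤ →+* ℤ[X]) with hρC
  have hρCm : ρC.Monic := hρ.map _
  set E : Fin r → ℤ[X][X] := fun i => (T i).map C + (p : ℤ[X][X]) * (C X * (G₁ i).map C) +
    (p : ℤ[X][X]) ^ 2 * b i with hE
  set Sl : Fin r → ℤ[X] := fun i => ((G₁ i - F₁ * (T i /ₘ F)) %ₘ F) %ₘ ρ with hSl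
  set S : Fin r → ℤ[X][X] := fun i => E i %ₘ FS /ₘ ρC with hS
  set S' : Fin r → ℤ[X][X] := fun i => (W i).map C + C X * (Sl i).map C +
    (p : ℤ[X][X]) * (z i %ₘ ρC) with hS'
  have hρCd : ρC.degree = ρ.degree := by
    rw [hρC, degree_map_eq_of_injective C_injective]
  have hS'd : ∀ i, (S' i).degree < ρC.degree := by
    intro i
    rw [hS']
    simp only
    refine (degree_add_le _ _).trans_lt (max_lt ((degree_add_le _ _).trans_lt (max_lt ?_ ?_)) ?_)
    · rw [degree_map_eq_of_injective C_injective, hρCd]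
      exact hWd i
    · refine (degree_C_mul_le' _ _).trans_lt ?_
      rw [degree_map_eq_of_injective C_injective, hρCd]
      exact degree_modByMonic_lt _ hρ
    · have : (p : ℤ[X][X]) = C (p : ℤ[X]) := by simp
      rw [this]
      exact (degree_C_mul_le' _ _).trans_lt (degree_modByMonic_lt _ hρCm)
  have hSS' : ∀ i, E i %ₘ FS = ρC * S i + (p : ℤ[X][X]) * S' i := by
    intro i
    have h1 : (E i %ₘ FS) %ₘ ρC = (p : ℤ[X][X]) * S' i := by
      rw [hE]
      simp only
      rw [hz]
      have e1 : (T i %ₘ F).map (C : ℤ →+* ℤ[X]) + (p : ℤ[X][X]) * (C X * ((G₁ i - F₁ * (T i /ₘ F)) %ₘ F).map C) +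
          (p : ℤ[X][X]) ^ 2 * z i = (T i %ₘ F).map C + ((p : ℤ[X]) * X) • ((G₁ i - F₁ * (T i /ₘ F)) %ₘ F).map C +
          ((p : ℤ[X]) ^ 2) • z i := by
        rw [smul_eq_C_mul, smul_eq_C_mul, C_mul, C_pow]
        simp only [map_natCast]
        ring
      rw [e1, add_modByMonic, add_modByMonic, smul_modByMonic, smul_modByMonic, hρC,
        ← map_modByMonic _ hρ, ← map_modByMonic _ hρ, hW, hS']
      simp only
      rw [smul_eq_C_mul, smul_eq_C_mul, C_mul, C_pow]
      simp only [map_natCast, Polynomial.map_mul, Polynomial.map_natCast]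
      ring
    rw [← h1, hS]
    simp only
    conv_lhs => rw [← modByMonic_add_div (E i %ₘ FS) ρC]
    ring
  -- the reductions
  have hmapC : ∀ Q : ℤ[X], (Q.map (C : ℤ →+* ℤ[X])).map (mapRingHom φ) = (Q.map φ).map C := by
    intro Q
    rw [Polynomial.map_map, Polynomial.map_map]
    congr 1
    ext a; simp
  have hpz : ∀ Q : ℤ[X][X], ((p : ℤ[X][X]) * Q).map (mapRingHom φ) = 0 := by
    intro Q
    rw [Polynomial.map_mul, Polynomial.map_natCast]
    have : ((p : ℕ) : (ZMod p)[X][X]) = 0 := by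
      rw [← map_natCast (C : (ZMod p)[X] →+* (ZMod p)[X][X]), ← map_natCast (C : ZMod p →+* (ZMod p)[X])]
      simp
    rw [this, zero_mul]
  have hSr : ∀ i, (S i).map (mapRingHom φ) = (((V i).map φ %ₘ F.map φ) /ₘ ρ.map φ).map C := by
    intro i
    rw [hS, hE]
    simp only
    rw [map_divByMonic _ hρCm, hz, Polynomial.map_add, Polynomial.map_add, hpz, add_zero, pow_two, mul_assoc,
      hpz, add_zero, hmapC, hρC, hmapC, ← map_divByMonic _ hρFm, map_modByMonic _ hF, hT]
  set SL : Fin r → (ZMod p)[X] := fun i =>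
    (((G₁ i).map φ - F₁.map φ * ((V i).map φ /ₘ F.map φ)) %ₘ F.map φ) %ₘ ρ.map φ with hSL
  have hSlr : ∀ i, (Sl i).map φ = SL i := by
    intro i
    rw [hSl, hSL]
    simp only
    have e1 : (F₁ * (T i /ₘ F)).map φ = F₁.map φ * ((V i).map φ /ₘ F.map φ) := by
      rw [Polynomial.map_mul, map_divByMonic _ hF, hT]
    rw [map_modByMonic _ hρ, map_modByMonic _ hF, Polynomial.map_sub, e1]
  have hS'r : ∀ i, (S' i).map (mapRingHom φ) = ((W i).map φ).map C + C X * (SL i).map C := by
    intro i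
    rw [hS']
    simp only
    rw [Polynomial.map_add, hpz, add_zero, Polynomial.map_add, Polynomial.map_mul, hmapC, hmapC,
      hSlr, Polynomial.map_C]
    simp only [coe_mapRingHom, Polynomial.map_X]
  -- the columns
  set n := F.natDegree with hnd
  set Z : Fin r → Fin n ⊕ Fin n → ZMod p := fun i => Sum.elim
    (fun l : Fin n => (((V i).map φ %ₘ F.map φ) /ₘ ρ.map φ).coeff l)
    (fun l : Fin n => (SL i).coeff l) with hZ
  have hρF0 : ρ.map φ ≠ 0 := hρFm.ne_zero
  have hρn : (ρ.map φ).natDegree ≤ n := by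
    have h1 := natDegree_le_of_dvd hρF hFm.ne_zero
    rwa [hF.natDegree_map] at h1
  have hdF : (F.map φ).degree = n := by
    rw [degree_eq_natDegree hFm.ne_zero, hF.natDegree_map]
  obtain ⟨σ, hσ⟩ := exists_cols Z (by
    intro c hc
    refine gindep hF (F₁ := F₁) hρF' hM hpM (fun i => spec t₁ (u i)) (fun i => spec t₁ (dT (u i)))
      (fun i => spec t₁ (w i)) V A A' hV hUW ?_ c ?_ ?_
    · intro c hc
      apply hind
      convert hc using 1
      refine Finset.sum_congr rfl fun i _ => ?_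
      unfold dlog spec
      simp only [Polynomial.map_mul, Polynomial.map_sub, ← derivative_map]
      rfl
    · -- first condition
      have h1 : ∑ i, C (c i) * (((V i).map φ %ₘ F.map φ) /ₘ ρ.map φ) = 0 := by
        ext l
        rw [finsetSum_coeff, coeff_zero]
        simp only [coeff_C_mul]
        by_cases hl : l < n
        · exact hc (Sum.inl ⟨l, hl⟩)
        · refine Finset.sum_eq_zero fun i _ => ?_
          rw [coeff_eq_zero_of_degree_lt, mul_zero]
          refine (degree_divByMonic_le _ _).trans_lt ((degree_modByMonic_lt _ hFm).trans_le ?_)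
          rw [hdF]
          exact_mod_cast not_lt.1 hl
      have h2 : ∀ i, (V i).map φ %ₘ F.map φ = ρ.map φ * (((V i).map φ %ₘ F.map φ) /ₘ ρ.map φ) := by
        intro i
        have e1 := modByMonic_add_div ((V i).map φ) (F.map φ)
        have e2 : (V i).map φ %ₘ F.map φ = (V i).map φ - F.map φ * ((V i).map φ /ₘ F.map φ) := by
          rw [eq_sub_iff_add_eq]; exact e1
        have e3 : ρ.map φ ∣ (V i).map φ %ₘ F.map φ := by
          rw [e2]
          exact dvd_sub (hρV i) (Dvd.dvd.mul_right hρF _)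
        have e4 := modByMonic_add_div ((V i).map φ %ₘ F.map φ) (ρ.map φ)
        rw [(modByMonic_eq_zero_iff_dvd hρFm).2 e3, zero_add] at e4
        exact e4.symm
      calc ∑ i, C (c i) * ((V i).map φ %ₘ F.map φ)
          = ρ.map φ * ∑ i, C (c i) * (((V i).map φ %ₘ F.map φ) /ₘ ρ.map φ) := by
            rw [Finset.mul_sum]
            refine Finset.sum_congr rfl fun i _ => ?_
            conv_lhs => rw [h2 i]
            ring
        _ = 0 := by rw [h1, mul_zero]
    · -- second condition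
      have h1 : ∑ i, C (c i) * SL i = 0 := by
        ext l
        rw [finsetSum_coeff, coeff_zero]
        simp only [coeff_C_mul]
        by_cases hl : l < n
        · exact hc (Sum.inr ⟨l, hl⟩)
        · refine Finset.sum_eq_zero fun i _ => ?_
          rw [coeff_eq_zero_of_degree_lt, mul_zero]
          refine (degree_modByMonic_lt _ hρFm).trans_le ?_
          rw [degree_eq_natDegree hρF0]
          exact_mod_cast hρn.trans (not_lt.1 hl)
      have e1 : ∀ i, ρ.map φ ∣ C (c i) * ((G₁ i).map φ - F₁.map φ * ((V i).map φ /ₘ F.map φ)) -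
          C (c i) * SL i := by
        intro i
        rw [hSL]
        simp only
        set Y := (G₁ i).map φ - F₁.map φ * ((V i).map φ /ₘ F.map φ) with hY
        have e2 := modByMonic_add_div Y (F.map φ)
        have e3 := modByMonic_add_div (Y %ₘ F.map φ) (ρ.map φ)
        obtain ⟨y, hy⟩ := hρF
        refine ⟨C (c i) * (y * (Y /ₘ F.map φ) + (Y %ₘ F.map φ) /ₘ ρ.map φ), ?_⟩
        linear_combination (-(C (c i))) * e2 - C (c i) * e3 + C (c i) * (Y /ₘ F.map φ) * hy
      have e5 := Finset.dvd_sum fun i (_ : i ∈ Finset.univ) => e1 i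
      rw [Finset.sum_sub_distrib, h1, sub_zero] at e5
      exact e5)
  -- the determinant
  set D : ℤ[X] := Matrix.det (Matrix.of fun i j : Fin r =>
      Sum.elim (fun l : Fin n => (S i).coeff l) (fun l : Fin n => (S' i).coeff l) (σ j)) with hD
  set Wm : Fin r → Fin r → ZMod p := fun i j => Sum.elim (fun _ : Fin n => 0)
    (fun l : Fin n => ((W i).map φ).coeff l) (σ j) with hWm
  have hDm : D.map φ = (Matrix.of fun i j : Fin r => if (σ j).isRight = true then
      C (Wm i j) + X * C (Z i (σ j)) else (C (Z i (σ j)) : (ZMod p)[X])).det := by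
    rw [hD, ← coe_mapRingHom, RingHom.map_det]
    congr 1
    ext1 i j
    simp only [RingHom.mapMatrix_apply, Matrix.map_apply, Matrix.of_apply, hWm, hZ]
    rcases σ j with l | l
    · simp only [Sum.elim_inl, Sum.isRight_inl]
      rw [← coeff_map, hSr, coeff_map]
      simp
    · simp only [Sum.elim_inr, Sum.isRight_inr]
      rw [← coeff_map, hS'r, coeff_add, coeff_C_mul]
      simp only [coeff_map, if_true]
  obtain ⟨j₀, hj₀, hc1, hc2⟩ := det_cols (fun i j => Z i (σ j)) Wm (fun j => (σ j).isRight = true) hσ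
  rw [← hDm] at hc1 hc2
  have hdv : ∀ a : ℤ, (p : ℤ) ∣ a ↔ φ a = 0 := fun a => (ZMod.intCast_zmod_eq_zero_iff_dvd a p).symm
  refine ⟨D, j₀, hj₀, ?_, ?_, ?_⟩
  · rw [hdv, ← coeff_map]
    exact hc1
  · intro j hj
    rw [hdv, ← coeff_map]
    exact hc2 j hj
  · intro m w G hG tf l hl hrel i
    refine gdet_dvd hFSm hρ (fun i => (u i).map (sub p t₁)) (p * M) k E c hpow S S' hSS' hS'd σ m w G ?_ tf l ?_ hrel i
    · rw [hG, hFSd, sub_eval]
    · intro i
      rw [sub_eval]
      exact hl i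

end

end Pool.Agent.Helper82.LP
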