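import Mathlib
import Pool.Agent.Helper82.LP.G1
import Pool.Agent.H33R4.RANKI
import Pool.Agent.H33R4.Puis
import Pool.Agent.H33R4.EUL

set_option autoImplicit false

/-! # General families: the logarithmic derivatives of units which are independent modulo constants -/

namespace Pool.Agent.Helper82.LP

open Polynomial
open Pool.Agent.H33R4 (spec ev2 rankI_proof puis eul_proof ev2_add ev2_mul ev2_C ev2_X)
open Pool.Agent.H33R4.EulAux (E E_coeff res)

noncomputable section

/-- chain rule -/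
theorem chain {A : Type} [CommRing A] (D₀ : A →+ A) (hD₀ : ∀ a b, D₀ (a * b) = a * D₀ b + b * D₀ a) (x y : A)
    (P : ℤ[X][X]) : D₀ (ev2 x y P) = ev2 x y (dT P) * D₀ x + ev2 x y (derivative P) * D₀ y := by
  let D : Derivation ℤ A A := Derivation.mk' D₀.toIntLinearMap (fun a b => by simpa using hD₀ a b)
  have hDD : ∀ a, D₀ a = D a := fun a => rfl
  simp only [hDD]
  have hmon : ∀ (n : ℕ) (a : ℤ[X]), ev2 x y (monomial n a) = aeval x a * y ^ n := by
    intro n a
    unfold ev2 spec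
    rw [map_monomial, eval_monomial]
    rfl
  induction P using Polynomial.induction_on' with
  | add P Q hP hQ =>
    rw [ev2_add, map_add, hP, hQ, map_add, derivative_add, ev2_add, ev2_add]
    ring
  | monomial n a =>
    rw [dT_monomial, derivative_monomial, hmon, hmon, hmon, Derivation.leibniz, Derivation.leibniz_pow,
      Derivation.map_aeval]
    simp only [smul_eq_mul, nsmul_eq_mul, map_mul, map_natCast]
    ring

/-- `E u / u` has no terms of negative order -/
theorem coeff_neg {k : Type} [Field k] (u : LaurentSeries k) (hu : u ≠ 0) (m : ℤ) (hm : m < 0) :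
    (E u / u).coeff m = 0 := by
  by_cases h0 : E u = 0
  · rw [h0]; simp
  · have hq : E u / u ≠ 0 := div_ne_zero h0 hu
    have h4 : (E u / u) * u = E u := div_mul_cancel₀ _ hu
    have h5 : HahnSeries.order (E u / u) + HahnSeries.order u = HahnSeries.order (E u) := by
      rw [← HahnSeries.order_mul hq hu, h4]
    have h6 : HahnSeries.order u ≤ HahnSeries.order (E u) := by
      by_contra hlt
      rw [not_le] at hlt
      have h7 : (E u).coeff (HahnSeries.order (E u)) ≠ 0 := HahnSeries.coeff_order_eq_zero.not.2 h0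
      apply h7
      rw [E_coeff, HahnSeries.coeff_eq_zero_of_lt_order hlt, mul_zero]
    apply HahnSeries.coeff_eq_zero_of_lt_order
    omega

/-- the coefficient of `c(τ ^ (-e)) x` at `-e N` -/
theorem coeff_top {e : ℕ} (he : 0 < e) (c : ℤ[X]) (N : ℕ) (hN : c.natDegree ≤ N) (x : LaurentSeries ℂ)
    (hx : ∀ m : ℤ, m < 0 → x.coeff m = 0) :
    ((aeval (HahnSeries.single (-(e : ℤ)) (1 : ℂ) : LaurentSeries ℂ) c) * x).coeff (-((e * N : ℕ) : ℤ)) =
      (c.coeff N : ℂ) * x.coeff 0 := by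
  have h0 : aeval (HahnSeries.single (-(e : ℤ)) (1 : ℂ) : LaurentSeries ℂ) c =
      ∑ k ∈ Finset.range (N + 1), HahnSeries.single (-((e * k : ℕ) : ℤ)) ((c.coeff k : ℤ) : ℂ) := by
    rw [aeval_def, eval₂_eq_sum_range' _ (Nat.lt_succ_of_le hN)]
    refine Finset.sum_congr rfl fun k _ => ?_
    rw [HahnSeries.single_pow, one_pow]
    have h2 : (algebraMap ℤ (LaurentSeries ℂ)) (c.coeff k) = HahnSeries.single 0 (c.coeff k : ℂ) := by
      have := map_intCast (HahnSeries.C : ℂ →+* HahnSeries ℤ ℂ) (c.coeff k)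
      rw [eq_intCast, ← this]; rfl
    rw [h2, HahnSeries.single_mul_single, mul_one, zero_add]
    congr 1
    push_cast
    simp [mul_comm]
  rw [h0, Finset.sum_mul]
  have h1 : ∀ (S : Finset ℕ) (g : ℕ → LaurentSeries ℂ) (a : ℤ), (∑ k ∈ S, g k).coeff a =
      ∑ k ∈ S, (g k).coeff a := by
    intro S g a
    exact map_sum (HahnSeries.coeff.addMonoidHom a) g S
  rw [h1, Finset.sum_eq_single N]
  · have := HahnSeries.coeff_single_mul_add (r := ((c.coeff N : ℤ) : ℂ)) (x := x) (a := 0)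
      (b := -((e * N : ℕ) : ℤ))
    rw [zero_add] at this
    exact this
  · intro k hk hkN
    have hkN' : k < N := by
      rw [Finset.mem_range] at hk
      omega
    have := HahnSeries.coeff_single_mul_add (r := ((c.coeff k : ℤ) : ℂ)) (x := x)
      (a := -((e * N : ℕ) : ℤ) + ((e * k : ℕ) : ℤ)) (b := -((e * k : ℕ) : ℤ))
    rw [show -((e * N : ℕ) : ℤ) + ((e * k : ℕ) : ℤ) + -((e * k : ℕ) : ℤ) = -((e * N : ℕ) : ℤ) by ring] at this
    rw [this, hx, mul_zero]
    have h3 : e * k < e * N := Nat.mul_lt_mul_of_pos_left hkN' he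
    have h4 : ((e * k : ℕ) : ℤ) < ((e * N : ℕ) : ℤ) := by exact_mod_cast h3
    omega
  · intro h
    exact absurd (Finset.mem_range.2 (Nat.lt_succ_self N)) h

/-- the numerator of the logarithmic derivative of a unit: `w (f_Y u_T - f_T u_Y)` -/
def dlg (f u w : ℤ[X][X]) : ℤ[X][X] := w * (derivative f * dT u - dT f * derivative u)

/-- **the logarithmic derivatives are independent over `ℚ(T)`** -/
theorem no_rel {r : ℕ} {f : ℤ[X][X]} (hf : f.Monic)
    (hsep : (f.map (algebraMap ℤ[X] (FractionRing ℤ[X]))).Separable) (u : Fin r → (AdjoinRoot f)ˣ)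
    (hind : ∀ c : Fin r → ℤ,
      IsIntegral ℤ ((∏ i, u i ^ c i : (AdjoinRoot f)ˣ) : AdjoinRoot f) → c = 0)
    (U W : Fin r → ℤ[X][X]) (hU : ∀ i, AdjoinRoot.mk f (U i) = u i) (hUW : ∀ i, f ∣ U i * W i - 1)
    (c : Fin r → ℤ[X]) (hc : f ∣ ∑ i, C (c i) * dlg f (U i) (W i)) : c = 0 := by
  classical
  obtain ⟨e, he, ϑ, hinj, hsplit⟩ := puis eul_proof f hf hsep
  have hrank := rankI_proof f hf r u hind e he _ ϑ hinj hsplit U hU
  set s : LaurentSeries ℂ := HahnSeries.single (-(e : ℤ)) (1 : ℂ) with hs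
  by_contra hne
  obtain ⟨i₀, hi₀⟩ : ∃ i₀, c i₀ ≠ 0 := by
    by_contra h
    push Not at h
    exact hne (funext h)
  obtain ⟨i₁, hi₁, hmax⟩ := Finset.exists_max_image (Finset.univ.filter fun i => c i ≠ 0)
    (fun i => (c i).natDegree) ⟨i₀, Finset.mem_filter.2 ⟨Finset.mem_univ _, hi₀⟩⟩
  set N := (c i₁).natDegree with hN
  have hdeg : ∀ i, (c i).natDegree ≤ N := by
    intro i
    by_cases h : c i = 0
    · rw [h, natDegree_zero]; exact Nat.zero_le _
    · exact hmax i (Finset.mem_filter.2 ⟨Finset.mem_univ _, h⟩)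
  have hs0 : s ≠ 0 := by
    rw [hs]
    exact HahnSeries.single_ne_zero one_ne_zero
  have hEs : E s ≠ 0 := by
    intro h
    have h1 := congrArg (fun x : LaurentSeries ℂ => x.coeff (-(e : ℤ))) h
    simp only [E_coeff, HahnSeries.coeff_zero, hs, HahnSeries.coeff_single_same] at h1
    have : (e : ℂ) = 0 := by
      push_cast at h1
      linear_combination -h1
    exact he.ne' (by exact_mod_cast this)
  set E₀ : LaurentSeries ℂ →+ LaurentSeries ℂ := ⟨⟨fun a => E a, map_zero E⟩, map_add E⟩ with hE₀d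
  have hEE : ∀ a, E a = E₀ a := fun a => rfl
  have hE₀ : ∀ a b, E₀ (a * b) = a * E₀ b + b * E₀ a := by
    intro a b
    rw [← hEE, ← hEE, ← hEE, Derivation.leibniz, smul_eq_mul, smul_eq_mul]
  -- the relation between the orders
  have hord : ∀ j, ∑ i, ((c i).coeff N : ℂ) * ((HahnSeries.order (ev2 s (ϑ j) (U i)) : ℤ) : ℂ) = 0 := by
    intro j
    have hAf : ev2 s (ϑ j) f = 0 := by
      unfold ev2
      rw [hsplit, eval_prod]
      exact Finset.prod_eq_zero (Finset.mem_univ j) (by simp)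
    have hAf' : ev2 s (ϑ j) (derivative f) ≠ 0 := by
      have h1 : ev2 s (ϑ j) (derivative f) = eval (ϑ j) (derivative (spec s f)) := by
        unfold ev2 spec
        rw [derivative_map]
      have h2 : (spec s f).Separable := by
        rw [hsplit]
        exact separable_prod_X_sub_C_iff.2 hinj
      have h3 := h2.eval₂_derivative_ne_zero (RingHom.id _) (x := ϑ j) (by
        rw [eval₂_id]
        exact hAf)
      rw [eval₂_id] at h3
      rw [h1]
      exact h3
    have hAdvd : ∀ P : ℤ[X][X], f ∣ P → ev2 s (ϑ j) P = 0 := by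
      rintro P ⟨Q, rfl⟩
      rw [ev2_mul, hAf, zero_mul]
    have hsub : ∀ P Q : ℤ[X][X], ev2 s (ϑ j) (P - Q) = ev2 s (ϑ j) P - ev2 s (ϑ j) Q := by
      intro P Q
      simp [ev2, spec]
    have hAUW : ∀ i, ev2 s (ϑ j) (U i) * ev2 s (ϑ j) (W i) = 1 := by
      intro i
      have h1 := hAdvd _ (hUW i)
      rw [hsub, ev2_mul, sub_eq_zero] at h1
      rw [h1]
      simp [ev2, spec]
    have hAU0 : ∀ i, ev2 s (ϑ j) (U i) ≠ 0 := fun i h => by
      have := hAUW i
      rw [h, zero_mul] at this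
      exact zero_ne_one this
    have hf0 := chain E₀ hE₀ s (ϑ j) f
    rw [hAf, map_zero, ← hEE, ← hEE] at hf0
    have hlog : ∀ i, ev2 s (ϑ j) (dlg f (U i) (W i)) * E s = ev2 s (ϑ j) (derivative f) *
        (E (ev2 s (ϑ j) (U i)) / ev2 s (ϑ j) (U i)) := by
      intro i
      have hW : ev2 s (ϑ j) (W i) = (ev2 s (ϑ j) (U i))⁻¹ := by
        rw [eq_comm, inv_eq_of_mul_eq_one_right (hAUW i)]
      have h1 := chain E₀ hE₀ s (ϑ j) (U i)
      rw [← hEE, ← hEE, ← hEE] at h1
      unfold dlg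
      rw [ev2_mul, hsub, ev2_mul, ev2_mul, hW, h1, div_eq_mul_inv]
      linear_combination ((ev2 s (ϑ j) (U i))⁻¹ * ev2 s (ϑ j) (derivative (U i))) * hf0
    have hsum := hAdvd _ hc
    have hsum' : ∀ (g : Fin r → ℤ[X][X]), ev2 s (ϑ j) (∑ i, g i) = ∑ i, ev2 s (ϑ j) (g i) := by
      intro g
      simp only [ev2, spec, Polynomial.map_sum, eval_finsetSum]
    rw [hsum'] at hsum
    have h2 : ∑ i, aeval s (c i) * (E (ev2 s (ϑ j) (U i)) / ev2 s (ϑ j) (U i)) = 0 := by
      have h3 : ev2 s (ϑ j) (derivative f) * ∑ i, aeval s (c i) *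
          (E (ev2 s (ϑ j) (U i)) / ev2 s (ϑ j) (U i)) = 0 := by
        rw [Finset.mul_sum]
        have h4 : ∀ i, ev2 s (ϑ j) (derivative f) * (aeval s (c i) *
            (E (ev2 s (ϑ j) (U i)) / ev2 s (ϑ j) (U i))) =
            ev2 s (ϑ j) (C (c i) * dlg f (U i) (W i)) * E s := by
          intro i
          rw [ev2_mul, mul_assoc, hlog, ev2_C]
          have : eval₂ (Int.castRingHom (LaurentSeries ℂ)) s (c i) = aeval s (c i) := by
            rw [aeval_def]
            congr 1
            exact RingHom.ext_int _ _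
          rw [this]
          ring
        rw [Finset.sum_congr rfl fun i _ => h4 i, ← Finset.sum_mul, hsum, zero_mul]
      exact (mul_eq_zero.1 h3).resolve_left hAf'
    have h5 := congrArg (fun x : LaurentSeries ℂ => x.coeff (-((e * N : ℕ) : ℤ))) h2
    simp only [HahnSeries.coeff_zero] at h5
    have h6 : (∑ i, aeval s (c i) * (E (ev2 s (ϑ j) (U i)) / ev2 s (ϑ j) (U i))).coeff (-((e * N : ℕ) : ℤ)) =
        ∑ i, (aeval s (c i) * (E (ev2 s (ϑ j) (U i)) / ev2 s (ϑ j) (U i))).coeff (-((e * N : ℕ) : ℤ)) :=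
      map_sum (HahnSeries.coeff.addMonoidHom (-((e * N : ℕ) : ℤ)))
        (fun i => aeval s (c i) * (E (ev2 s (ϑ j) (U i)) / ev2 s (ϑ j) (U i))) Finset.univ
    rw [h6] at h5
    rw [← h5]
    refine Finset.sum_congr rfl fun i _ => ?_
    rw [hs, coeff_top he (c i) N (hdeg i) _ (fun m hm => coeff_neg _ (hAU0 i) m hm), res _ (hAU0 i)]
  -- contradiction
  rw [Fintype.linearIndependent_iff] at hrank
  have h7 := hrank (fun i => ((c i).coeff N : ℚ)) (by
    funext j
    rw [Finset.sum_apply]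
    simp only [Pi.smul_apply, smul_eq_mul, Pi.zero_apply]
    have := hord j
    exact_mod_cast this) i₁
  have h8 : (c i₁).coeff N = 0 := by exact_mod_cast h7
  have h9 : c i₁ ≠ 0 := (Finset.mem_filter.1 hi₁).2
  exact h9 (leadingCoeff_eq_zero.1 h8)

end

end Pool.Agent.Helper82.LP
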