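import Mathlib
import Pool.Agent.Helper82.LP.G3
import Pool.Agent.Helper82.LP.G4
import Pool.Agent.Helper82.LP.Fields
import Pool.Agent.H33R4.PB2

set_option autoImplicit false

/-! # General families: the theorem -/

namespace Pool.Agent.Helper82.LP

open Polynomial NumberField
open Pool.Agent.H33R4 (IsLog PGood spec spec_monic Bad' PIndep st st_mk adj_map_mk logB_proof logEx_proof
  good1_proof good2_proof)

noncomputable section

/-- **the discriminantal polynomial `μ`** -/
theorem exists_mu {r : ℕ} {f : ℤ[X][X]} (hf : f.Monic)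
    (hsep : (f.map (algebraMap ℤ[X] (FractionRing ℤ[X]))).Separable) (u : Fin r → (AdjoinRoot f)ˣ)
    (hind : ∀ c : Fin r → ℤ,
      IsIntegral ℤ ((∏ i, u i ^ c i : (AdjoinRoot f)ˣ) : AdjoinRoot f) → c = 0)
    (U W : Fin r → ℤ[X][X]) (hU : ∀ i, AdjoinRoot.mk f (U i) = u i) (hUW : ∀ i, f ∣ U i * W i - 1) :
    ∃ μ : ℤ[X], μ ≠ 0 ∧ ∀ (p : ℕ) [Fact p.Prime] (t₁ : ℤ), ¬ (p : ℤ) ∣ μ.eval t₁ → ∀ c : Fin r → ZMod p,
      (spec t₁ f).map (Int.castRingHom (ZMod p)) ∣
      ∑ i, C (c i) * (spec t₁ (dlog f (U i) (W i))).map (Int.castRingHom (ZMod p)) → c = 0 := by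
  classical
  set n := f.natDegree with hn
  set Nm : Fin r → Fin n → ℤ[X] := fun i l => ((dlog f (U i) (W i)) %ₘ f).coeff l with hNm
  set 𝕂 := FractionRing ℤ[X] with h𝕂
  obtain ⟨σ, hσ⟩ := exists_cols (k := 𝕂) (fun i l => algebraMap ℤ[X] 𝕂 (Nm i l)) (by
    intro c hc
    obtain ⟨b, hb⟩ := IsLocalization.exist_integer_multiples_of_finite (nonZeroDivisors ℤ[X]) c
    choose c' hc' using hb
    have hb0 : algebraMap ℤ[X] 𝕂 b ≠ 0 := by
      have := nonZeroDivisors.ne_zero b.2
      intro h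
      exact this ((IsFractionRing.injective ℤ[X] 𝕂) (by rw [h, map_zero]))
    have h1 : c' = 0 := by
      apply no_rel hf hsep u hind U W hU hUW
      have h2 : ∀ l : ℕ, ∑ i, c' i * ((dlog f (U i) (W i)) %ₘ f).coeff l = 0 := by
        intro l
        by_cases hl : l < n
        · apply IsFractionRing.injective ℤ[X] 𝕂
          rw [map_zero, map_sum]
          have h3 := hc ⟨l, hl⟩
          have h4 : ∀ i, algebraMap ℤ[X] 𝕂 (c' i * ((dlog f (U i) (W i)) %ₘ f).coeff l) =
              algebraMap ℤ[X] 𝕂 b * (c i * algebraMap ℤ[X] 𝕂 (Nm i ⟨l, hl⟩)) := by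
            intro i
            rw [map_mul, hc', Algebra.smul_def, mul_assoc]
          rw [Finset.sum_congr rfl fun i _ => h4 i, ← Finset.mul_sum, h3, mul_zero]
        · refine Finset.sum_eq_zero fun i _ => ?_
          rw [coeff_eq_zero_of_degree_lt, mul_zero]
          refine (degree_modByMonic_lt _ hf).trans_le ?_
          rw [degree_eq_natDegree hf.ne_zero, ← hn]
          exact_mod_cast not_lt.1 hl
      have h5 : (∑ i, C (c' i) * dlog f (U i) (W i)) %ₘ f = 0 := by
        have h6 : (∑ i, C (c' i) * dlog f (U i) (W i)) %ₘ f = ∑ i, C (c' i) * (dlog f (U i) (W i) %ₘ f) := by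
          have h7 : ∀ (S : Finset (Fin r)), (∑ i ∈ S, C (c' i) * dlog f (U i) (W i)) %ₘ f =
              ∑ i ∈ S, C (c' i) * (dlog f (U i) (W i) %ₘ f) := by
            intro S
            induction S using Finset.induction_on with
            | empty => simp
            | insert a S ha ih =>
              rw [Finset.sum_insert ha, Finset.sum_insert ha, add_modByMonic, ih, ← smul_eq_C_mul,
                smul_modByMonic, smul_eq_C_mul]
          exact h7 _
        rw [h6]
        ext1 l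
        rw [finsetSum_coeff, coeff_zero]
        simp only [coeff_C_mul]
        exact h2 l
      exact (modByMonic_eq_zero_iff_dvd hf).1 h5
    funext i
    have h8 := hc' i
    rw [h1, Pi.zero_apply, map_zero, Algebra.smul_def] at h8
    exact (mul_eq_zero.1 h8.symm).resolve_left hb0)
  set μ : ℤ[X] := (Matrix.of fun i j => Nm i (σ j)).det with hμ
  refine ⟨μ, ?_, ?_⟩
  · intro h0
    apply hσ
    have h1 : (Matrix.of fun i j => algebraMap ℤ[X] 𝕂 (Nm i (σ j))).det = algebraMap ℤ[X] 𝕂 μ := by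
      rw [hμ, RingHom.map_det]
      rfl
    rw [h1, h0, map_zero]
  · intro p _ t₁ hp c hc
    set φ := Int.castRingHom (ZMod p) with hφ
    set ψ : ℤ[X] →+* ZMod p := φ.comp (eval₂RingHom (Int.castRingHom ℤ) t₁) with hψ
    have hψe : ∀ a : ℤ[X], ψ a = φ (a.eval t₁) := fun a => rfl
    have hsp : ∀ P : ℤ[X][X], (spec t₁ P).map φ = P.map ψ := by
      intro P
      unfold spec
      rw [Polynomial.map_map]
    simp only [hsp] at hc
    have hfψ : (f.map ψ).Monic := hf.map _
    have h1 : ∑ i, C (c i) * (dlog f (U i) (W i)).map ψ %ₘ f.map ψ = 0 := by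
      have h7 : ∀ (S : Finset (Fin r)), (∑ i ∈ S, C (c i) * (dlog f (U i) (W i)).map ψ) %ₘ f.map ψ =
          ∑ i ∈ S, C (c i) * (dlog f (U i) (W i)).map ψ %ₘ f.map ψ := by
        intro S
        induction S using Finset.induction_on with
        | empty => simp
        | insert a S ha ih => rw [Finset.sum_insert ha, Finset.sum_insert ha, add_modByMonic, ih]
      rw [← h7]
      exact (modByMonic_eq_zero_iff_dvd hfψ).2 hc
    have h2 : ∀ l : Fin n, ∑ i, c i * ψ (Nm i l) = 0 := by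
      intro l
      have h3 := congrArg (fun Q : (ZMod p)[X] => Q.coeff l) h1
      simp only [finsetSum_coeff, coeff_zero] at h3
      rw [← h3]
      refine Finset.sum_congr rfl fun i _ => ?_
      rw [← smul_eq_C_mul, smul_modByMonic, coeff_smul, smul_eq_mul, hNm]
      simp only
      rw [← coeff_map, map_modByMonic _ hf]
    have h4 : Matrix.vecMul c (Matrix.of fun i j => ψ (Nm i (σ j))) = 0 := by
      funext j
      exact h2 (σ j)
    have h5 : (Matrix.of fun i j => ψ (Nm i (σ j))).det ≠ 0 := by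
      have h6 : (Matrix.of fun i j => ψ (Nm i (σ j))).det = ψ μ := by
        rw [hμ, RingHom.map_det]
        rfl
      rw [h6, hψe]
      intro h
      exact hp ((ZMod.intCast_zmod_eq_zero_iff_dvd _ p).1 h)
    exact Matrix.eq_zero_of_vecMul_eq_zero h5 h4

section

variable {p : ℕ} [hp : Fact p.Prime]

/-- a relation between the logarithms at a bad `t` -/
theorem rel_of_bad {r : ℕ} {f : ℤ[X][X]} (hf : f.Monic) (u : Fin r → (AdjoinRoot f)ˣ) (U : Fin r → ℤ[X][X])
    (hU : ∀ i, AdjoinRoot.mk f (U i) = u i) {t : ℤ} (hbad : Bad' p f u t) (M : ℕ) (G : ℤ_[p][X])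
    (hG : G = (spec t f).map (Int.castRingHom ℤ_[p])) (l : Fin r → AdjoinRoot G)
    (hl : ∀ i, IsLog p ((AdjoinRoot.mk G ((spec t (U i)).map (Int.castRingHom ℤ_[p]))) ^ M) (l i)) :
    ∃ w : Fin r → ℤ_[p], w ≠ 0 ∧ ∑ i, AdjoinRoot.of G (w i) * l i = 0 := by
  obtain ⟨K, _, _, ψ, hψT, hKn, hgen, hnot⟩ := hbad
  set g : ℤ[X] := spec t f with hgdef
  have hgm : g.Monic := spec_monic _ hf
  set ψr : 𝓞 K := ψ (AdjoinRoot.root f) with hψr
  have hψof : ∀ P : ℤ[X], ψ (AdjoinRoot.of f P) = ((P.eval t : ℤ) : 𝓞 K) := by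
    intro P
    have e1 : ψ (AdjoinRoot.of f P) = (ψ.comp (AdjoinRoot.of f)) P := rfl
    have e2 : (ψ.comp (AdjoinRoot.of f)) = (Int.castRingHom (𝓞 K)).comp (Polynomial.evalRingHom t) := by
      apply Polynomial.ringHom_ext
      · intro a; simp
      · simp [hψT]
    rw [e1, e2]
    simp
  have hψmk : ∀ P : ℤ[X][X], ψ (AdjoinRoot.mk f P) = (spec t P).eval₂ (Int.castRingHom (𝓞 K)) ψr := by
    intro P
    induction P using Polynomial.induction_on' with
    | add P Q hP hQ =>
      rw [map_add, map_add, hP, hQ]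
      unfold spec
      rw [Polynomial.map_add, Polynomial.eval₂_add]
    | monomial n a =>
      rw [← Polynomial.C_mul_X_pow_eq_monomial, map_mul, map_mul, map_pow, map_pow, AdjoinRoot.mk_C,
        AdjoinRoot.mk_X, hψof]
      unfold spec
      rw [Polynomial.map_mul, Polynomial.map_pow, Polynomial.map_X, Polynomial.map_C,
        Polynomial.eval₂_mul, Polynomial.eval₂_pow, Polynomial.eval₂_X, Polynomial.eval₂_C]
      rfl
  have hroot : aeval (ψr : K) g = 0 := by
    have e1 := hψmk f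
    rw [AdjoinRoot.mk_self, map_zero] at e1
    have e2 := congrArg (algebraMap (𝓞 K) K) e1
    rw [map_zero, Polynomial.hom_eval₂] at e2
    rw [aeval_def]
    rw [e2]
    rfl
  have hfac : ∀ x, Pool.Agent.H33R4.PB.ps hgm hroot (st f t x) = ψ x := by
    intro x
    obtain ⟨P, rfl⟩ := AdjoinRoot.mk_surjective x
    rw [st_mk, hψmk]
    apply RingOfIntegers.ext
    rw [Pool.Agent.H33R4.PB.ps_mk, aeval_def]
    have e2 := Polynomial.hom_eval₂ (spec t P) (Int.castRingHom (𝓞 K)) (algebraMap (𝓞 K) K) ψr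
    rw [show (algebraMap (𝓞 K) K) (Polynomial.eval₂ (Int.castRingHom (𝓞 K)) ψr (spec t P)) =
      ((Polynomial.eval₂ (Int.castRingHom (𝓞 K)) ψr (spec t P) : 𝓞 K) : K) from rfl] at e2
    rw [e2]
    rfl
  have hGm : G.Monic := by rw [hG]; exact hgm.map _
  have hGood : PGood p (AdjoinRoot G) := good2_proof p ℤ_[p] G hGm (good1_proof.1 p)
  by_contra hcon
  push Not at hcon
  apply hnot
  have hfin2 := Pool.Agent.H33R4.PB.final' logB_proof hgm hroot
    (by rw [hKn]; exact (hf.natDegree_map _).symm) hgen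
    (AdjoinRoot.of G) hGood
    (AdjoinRoot.map (Int.castRingHom ℤ_[p]) g G (by rw [hG]))
    (fun i => Units.map (st f t : AdjoinRoot f →* _) (u i)) M l (fun i => by
      have h5 : (AdjoinRoot.map (Int.castRingHom ℤ_[p]) g G (by rw [hG]))
          ((Units.map (st f t : AdjoinRoot f →* _) (u i) : (AdjoinRoot g)ˣ) : AdjoinRoot g)
          = AdjoinRoot.mk G ((spec t (U i)).map (Int.castRingHom ℤ_[p])) := by
        have h6 : ((Units.map (st f t : AdjoinRoot f →* _) (u i) : (AdjoinRoot g)ˣ) : AdjoinRoot g)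
            = AdjoinRoot.mk g (spec t (U i)) := by
          show st f t (u i : AdjoinRoot f) = _
          rw [← hU i, st_mk]
        rw [h6, adj_map_mk]
      rw [h5]
      exact hl i) hcon
  have hEq : (fun i => Units.map (Pool.Agent.H33R4.PB.ps hgm hroot : AdjoinRoot g →* 𝓞 K)
      ((fun i => Units.map (st f t : AdjoinRoot f →* _) (u i)) i))
      = (fun i => Units.map (ψ : AdjoinRoot f →* 𝓞 K) (u i)) := by
    funext i
    apply Units.ext
    exact hfac (u i)
  rw [hEq] at hfin2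
  exact hfin2

/-- **at most `r` bad members in a class where the logarithmic derivatives are independent** -/
theorem gclass_few {r : ℕ} {f : ℤ[X][X]} (hf : f.Monic) (u : Fin r → (AdjoinRoot f)ˣ) (U W : Fin r → ℤ[X][X])
    (hU : ∀ i, AdjoinRoot.mk f (U i) = u i) (hUW : ∀ i, f ∣ U i * W i - 1)
    (hp5 : 5 ≤ p) (hn : 3 * f.natDegree ≤ p) (t₁ : ℤ)
    (hind : ∀ c : Fin r → ZMod p, (spec t₁ f).map (Int.castRingHom (ZMod p)) ∣
      ∑ i, C (c i) * (spec t₁ (dlog f (U i) (W i))).map (Int.castRingHom (ZMod p)) → c = 0)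
    (m : Fin (r + 1) → ℤ) (hm : Function.Injective m) (hbad : ∀ a, Bad' p f u (t₁ + p * m a)) : False := by
  classical
  have hpp := hp.out
  obtain ⟨M, hM, hMF, hD⟩ := gclass_det hf U W hUW hp5 hn t₁ hind
  choose D j₀ hj₀ hD1 hD2 hD3 using hD
  have hrel : ∀ a, ∃ w : Fin r → ℤ_[p], w ≠ 0 ∧ ∀ k i, (p : ℤ_[p]) ^ k ∣ w i * (((D k).eval (m a) : ℤ) : ℤ_[p]) := by
    intro a
    set t := t₁ + p * m a with ht
    set G : ℤ_[p][X] := (spec t f).map (Int.castRingHom ℤ_[p]) with hG
    have hGm : G.Monic := by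
      rw [hG]
      exact (spec_monic _ hf).map _
    have hgood : PGood p (AdjoinRoot G) := good2_proof p ℤ_[p] G hGm (good1_proof.1 p)
    have hdv : ∀ i, (p : AdjoinRoot G) ∣ (AdjoinRoot.mk G ((spec t (U i)).map (Int.castRingHom ℤ_[p]))) ^ M - 1 := by
      intro i
      have hcong : ∀ P : ℤ[X][X], ∃ R : ℤ[X], spec t P = spec t₁ P + (p : ℤ[X]) * R := by
        intro P
        obtain ⟨R, hR⟩ := taylor p t₁ P
        refine ⟨C (m a) * spec t₁ (dT P) + (p : ℤ[X]) * R.map (evalRingHom (m a)), ?_⟩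
        rw [ht, ← sub_eval, hR, Polynomial.map_add, Polynomial.map_add, map_C_eval, Polynomial.map_mul,
          Polynomial.map_mul, map_C_eval, Polynomial.map_mul, Polynomial.map_C]
        simp only [Polynomial.map_natCast, Polynomial.map_pow, coe_evalRingHom, eval_X]
        ring
      obtain ⟨R, hR⟩ := hcong f
      obtain ⟨R', hR'⟩ := hcong (U i)
      obtain ⟨y, y', hy⟩ := dvd_lift (p := p) (A := spec t₁ f) (B := (spec t₁ (U i)) ^ M - 1) (by
        rw [Polynomial.map_sub, Polynomial.map_pow, Polynomial.map_one]; exact hMF i)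
      obtain ⟨z, hz⟩ := sub_dvd_pow_sub_pow (spec t (U i)) (spec t₁ (U i)) M
      have h1 : (spec t (U i)) ^ M - 1 = spec t f * y + (p : ℤ[X]) * (y' - R * y + R' * z) := by
        have e1 : (spec t (U i)) ^ M = (spec t₁ (U i)) ^ M + (spec t (U i) - spec t₁ (U i)) * z := by
          rw [← hz]; ring
        have e2 : spec t (U i) - spec t₁ (U i) = (p : ℤ[X]) * R' := by rw [hR']; ring
        rw [e1, e2, hR]
        linear_combination hy
      have h2 := congrArg (fun Q => AdjoinRoot.mk G (Q.map (Int.castRingHom ℤ_[p]))) h1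
      simp only [Polynomial.map_sub, Polynomial.map_pow, Polynomial.map_one, map_sub, map_pow, map_one] at h2
      rw [h2, Polynomial.map_add, Polynomial.map_mul, ← hG, map_add, map_mul, AdjoinRoot.mk_self, zero_mul,
        zero_add, Polynomial.map_mul, Polynomial.map_natCast, map_mul, map_natCast]
      exact dvd_mul_right _ _
    choose l hl using fun i => logEx_proof p hpp _ hgood _ (hdv i)
    obtain ⟨w, hw0, hw⟩ := rel_of_bad hf u U hU (hbad a) M G hG l hl
    exact ⟨w, hw0, fun k i => hD3 k (m a) w G hG hgood.tf l hl hw i⟩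
  choose w hw hwD using hrel
  exact few D j₀ hj₀ hD1 hD2 m hm w hw hwD

end

/-- **uniform specialisation** -/
theorem uniform_spec {r : ℕ} {f : ℤ[X][X]} (hf : f.Monic)
    (hsep : (f.map (algebraMap ℤ[X] (FractionRing ℤ[X]))).Separable) (u : Fin r → (AdjoinRoot f)ˣ)
    (hind : ∀ c : Fin r → ℤ,
      IsIntegral ℤ ((∏ i, u i ^ c i : (AdjoinRoot f)ˣ) : AdjoinRoot f) → c = 0) :
    ∃ μ : ℤ[X], μ ≠ 0 ∧ ∀ (p : ℕ) [Fact p.Prime], 5 ≤ p → 3 * f.natDegree ≤ p →
      {t : ℤ | ¬ (p : ℤ) ∣ μ.eval t ∧ Bad' p f u t}.encard ≤ r * p := by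
  choose U hU using fun i => AdjoinRoot.mk_surjective (u i : AdjoinRoot f)
  choose W hW using fun i => AdjoinRoot.mk_surjective ((u i)⁻¹ : (AdjoinRoot f)ˣ).1
  have hUW : ∀ i, f ∣ U i * W i - 1 := by
    intro i
    rw [← AdjoinRoot.mk_eq_zero, map_sub, map_mul, hU, hW, map_one, sub_eq_zero]
    exact Units.mul_inv _
  obtain ⟨μ, hμ0, hμ⟩ := exists_mu hf hsep u hind U W hU hUW
  refine ⟨μ, hμ0, fun p hp hp5 hn => ?_⟩
  apply encard_le_of_classes p r hp.out.pos
  intro t₁ m hm h
  have hμ1 : ¬ (p : ℤ) ∣ μ.eval t₁ := by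
    intro hdv
    apply (h 0).1
    have h1 : (p : ℤ) ∣ μ.eval (t₁ + p * m 0) - μ.eval t₁ := by
      refine dvd_trans ?_ (Polynomial.sub_dvd_eval_sub (t₁ + p * m 0) t₁ μ)
      exact ⟨m 0, by ring⟩
    have h2 := dvd_add h1 hdv
    rwa [sub_add_cancel] at h2
  exact gclass_few hf u U W hU hUW hp5 hn t₁ (hμ p t₁ hμ1) m hm fun a => (h a).2

end

end Pool.Agent.Helper82.LP
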