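import Mathlib

set_option autoImplicit false

/-! # Approximate zeros of a polynomial with a unit coefficient followed by multiples of `p` -/

namespace Pool.Agent.Helper82.LP

open Polynomial

theorem pow_dvd_cancel {p : ℕ} (hp : p.Prime) (d : ℕ) : ∀ (e : ℕ) (x y : ℤ),
    (p : ℤ) ^ e ∣ x * y → ¬ (p : ℤ) ^ d ∣ x → (p : ℤ) ^ (e - d) ∣ y := by
  have hp' : Prime (p : ℤ) := Nat.prime_iff_prime_int.1 hp
  induction d with
  | zero =>
    intro e x y _ h2
    exact absurd (by simp) h2
  | succ d ih =>
    intro e x y h1 h2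
    by_cases hx : (p : ℤ) ∣ x
    · obtain ⟨x', rfl⟩ := hx
      rcases Nat.eq_zero_or_pos e with he | he
      · subst he; simp
      · obtain ⟨e', rfl⟩ : ∃ e', e = e' + 1 := ⟨e - 1, by omega⟩
        have h3 : (p : ℤ) ^ e' ∣ x' * y := by
          have h4 : (p : ℤ) * (p : ℤ) ^ e' ∣ (p : ℤ) * (x' * y) := by
            rw [← pow_succ', ← mul_assoc]; exact h1
          exact (mul_dvd_mul_iff_left hp'.ne_zero).1 h4
        have h5 : ¬ (p : ℤ) ^ d ∣ x' := by
          intro h6
          apply h2
          rw [pow_succ']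
          exact mul_dvd_mul_left _ h6
        have := ih e' x' y h3 h5
        rwa [show e' + 1 - (d + 1) = e' - d by omega]
    · have hc : IsCoprime ((p : ℤ) ^ e) x :=
        ((Prime.coprime_iff_not_dvd hp').2 hx).pow_left
      exact (pow_dvd_pow _ (by omega)).trans (hc.dvd_of_dvd_mul_left h1)

/-- If the `r`-th coefficient of `D` is prime to `p` and all later ones are divisible by `p`, then `D` has at most `r`
zeros modulo a large power of `p`. -/
theorem strass {p : ℕ} (hp : p.Prime) (d : ℕ) : ∀ (r : ℕ) (D : ℤ[X]), ¬ (p : ℤ) ∣ D.coeff r →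
    (∀ j, r < j → (p : ℤ) ∣ D.coeff j) → ∀ (m : Fin (r + 1) → ℤ) (e : ℕ),
    (∀ a b, a ≠ b → ¬ (p : ℤ) ^ d ∣ m a - m b) → (∀ a, (p : ℤ) ^ e ∣ D.eval (m a)) → e ≤ r * d := by
  intro r
  induction r with
  | zero =>
    intro D h0 h1 m e _ he
    rw [zero_mul, Nat.le_zero]
    by_contra hne
    apply h0
    have h2 : (p : ℤ) ∣ D.eval (m 0) := (dvd_pow_self _ hne).trans (he 0)
    rw [eval_eq_sum_range, Finset.sum_range_succ'] at h2
    rw [pow_zero, mul_one] at h2
    exact (dvd_add_right (Finset.dvd_sum fun i _ => Dvd.dvd.mul_right (h1 (i + 1) (by omega)) _)).1 h2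
  | succ r ih =>
    intro D h0 h1 m e hm he
    set G := D /ₘ (X - C (m 0)) with hG
    have hD : (X - C (m 0)) * G + C (D.eval (m 0)) = D := by
      have := modByMonic_add_div D (X - C (m 0))
      rw [modByMonic_X_sub_C_eq_C_eval] at this
      rw [hG, add_comm]
      exact this
    have hcoef : ∀ j, D.coeff (j + 1) = G.coeff j - m 0 * G.coeff (j + 1) := by
      intro j
      conv_lhs => rw [← hD]
      rw [coeff_add, sub_mul, coeff_sub, coeff_X_mul, coeff_C_mul, coeff_C, if_neg (by omega),
        add_zero]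
    have hhigh : ∀ k j, r < j → G.natDegree < j + k → (p : ℤ) ∣ G.coeff j := by
      intro k
      induction k with
      | zero =>
        intro j _ hj
        rw [coeff_eq_zero_of_natDegree_lt (by omega)]
        exact dvd_zero _
      | succ k ihk =>
        intro j hj hk
        have h2 := ihk (j + 1) (by omega) (by omega)
        have h3 := h1 (j + 1) (by omega)
        rw [hcoef] at h3
        exact (dvd_sub_left (Dvd.dvd.mul_left h2 _)).1 h3
    have hh : ∀ j, r < j → (p : ℤ) ∣ G.coeff j := fun j hj => hhigh (G.natDegree + 1) j hj (by omega)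
    have hr : ¬ (p : ℤ) ∣ G.coeff r := by
      intro h2
      apply h0
      rw [hcoef]
      exact dvd_sub h2 (Dvd.dvd.mul_left (hh _ (by omega)) _)
    have h4 := ih G hr hh (fun a => m a.succ) (e - d)
      (fun a b hab => hm _ _ (fun h => hab (Fin.succ_injective _ h))) (fun a => by
        apply pow_dvd_cancel hp d e (m a.succ - m 0)
        · have h5 := he a.succ
          have h6 := he 0
          rw [← hD] at h5
          simp only [eval_add, eval_mul, eval_sub, eval_X, eval_C] at h5
          exact (dvd_add_left h6).1 h5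
        · exact hm _ _ (Fin.succ_ne_zero a))
    have : (r + 1) * d = r * d + d := by ring
    omega

end Pool.Agent.Helper82.LP
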